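import Pool.Agent.FJB.EDefs
import Pool.Agent.Lib_helper44.Wh.Final
import Pool.Agent.Lib_helper44.Wh.Rat

/-!
# WHF: the colimit of the Whitehead groups of the finite subgroups
-/

set_option autoImplicit false
set_option linter.unusedSectionVars false

open Matrix TensorProduct Pool.Agent.WhK

noncomputable section

namespace Pool.Agent.FJB

namespace WHF

/-! ## Extension of homomorphisms to `ℚ` -/

theorem exists_ext {A B : Type} [AddCommGroup A] [AddCommGroup B] (i : A →+ B)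
    (hi : ∀ x, i x = 0 → ∃ n : ℕ, 0 < n ∧ n • x = 0) (φ : A →+ ℚ) :
    ∃ Φ : B →+ ℚ, ∀ a, Φ (i a) = φ a := by
  have h1 := lTensor_injective_of_ker_torsion i hi
  let T : ℚ ⊗[ℤ] A →ₗ[ℚ] ℚ ⊗[ℤ] B := i.toIntLinearMap.baseChange ℚ
  have hT : LinearMap.ker T = ⊥ := LinearMap.ker_eq_bot.2 h1
  obtain ⟨g, hg⟩ := LinearMap.exists_leftInverse_of_injective T hT
  let θ : ℚ ⊗[ℤ] A →ₗ[ℚ] ℚ := LinearMap.liftBaseChange ℚ φ.toIntLinearMap
  have hθ : ∀ a : A, θ (1 ⊗ₜ[ℤ] a) = φ a := by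
    intro a
    rw [LinearMap.liftBaseChange_tmul, one_smul]
    rfl
  let ι : B →+ ℚ ⊗[ℤ] B := (TensorProduct.mk ℤ ℚ B 1).toAddMonoidHom
  refine ⟨((θ ∘ₗ g).toAddMonoidHom).comp ι, fun a => ?_⟩
  change θ (g (1 ⊗ₜ[ℤ] i a)) = φ a
  have h2 : (1 : ℚ) ⊗ₜ[ℤ] i a = T (1 ⊗ₜ[ℤ] a) := rfl
  have h3 := LinearMap.congr_fun hg (1 ⊗ₜ[ℤ] a)
  rw [LinearMap.comp_apply, LinearMap.id_apply] at h3
  rw [h2, h3, hθ]

/-! ## Functionals on `K_1` -/

section k1

variable {R : Type} [Ring R]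

theorem blk_iff {a b : ℕ} (X : GLn R a) (Y : GLn R b) (Z : GLn R (a + b)) :
    Dl.Blk (R := R) X Y Z ↔ Z = reU finSumFinEquiv (diagU X Y) :=
  ⟨fun h => Units.ext h, fun h => congrArg Units.val h⟩

theorem cls_eq_mk {a : ℕ} (X : (Matrix (Fin a) (Fin a) R)ˣ) : cls X = K1.mk a X := by
  rw [cls_eq (Equiv.refl (Fin a))]
  rfl

theorem mk_blk {a b : ℕ} {X : GLn R a} {Y : GLn R b} {Z : GLn R (a + b)}
    (h : Dl.Blk (R := R) X Y Z) : K1.mk (a + b) Z = K1.mk a X + K1.mk b Y := by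
  rw [blk_iff] at h
  have h1 := cls_reU finSumFinEquiv (diagU X Y)
  rw [cls_diagU, cls_eq_mk, cls_eq_mk, cls_eq_mk, ← h] at h1
  exact h1

theorem one_zero {F : ∀ r : ℕ, GLn R r → ℚ} (hF : Dl.IsK1 (R := R) F) (r : ℕ) : F r 1 = 0 := by
  have h := hF.1 r 1 1
  have h2 : (1 : GLn R r) * 1 = 1 := mul_one 1
  have h3 : F r 1 = F r 1 + F r 1 := (congrArg (F r) h2).symm.trans h
  linarith

/-- the homomorphism given by a family -/
theorem exists_k {F : ∀ r : ℕ, GLn R r → ℚ} (hF : Dl.IsK1 (R := R) F) :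
    ∃ k : K1 R →+ ℚ, ∀ (r : ℕ) (X : GLn R r), k (K1.mk r X) = F r X := by
  have hrel : AddSubgroup.closure (K1.relMul R ∪ K1.relStab R) ≤
      (FreeAbelianGroup.lift fun x : MatPair R => F x.n x.X).ker := by
    rw [AddSubgroup.closure_le]
    rintro x (⟨n, X, Y, rfl⟩ | ⟨m, n, hmn, X, rfl⟩)
    · rw [SetLike.mem_coe, AddMonoidHom.mem_ker, K1.relMulElt, map_sub, map_sub, K1.gen, K1.gen,
        K1.gen, FreeAbelianGroup.lift_apply_of, FreeAbelianGroup.lift_apply_of,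
        FreeAbelianGroup.lift_apply_of, sub_sub, sub_eq_zero]
      exact hF.1 n X Y
    · rw [SetLike.mem_coe, AddMonoidHom.mem_ker, K1.relStabElt, map_sub, K1.gen, K1.gen,
        FreeAbelianGroup.lift_apply_of, FreeAbelianGroup.lift_apply_of, sub_eq_zero]
      obtain ⟨d, rfl⟩ := Nat.exists_eq_add_of_le hmn
      have h1 : Dl.Blk (R := R) X (1 : GLn R d) (stabGL R m (m + d) hmn X) := by
        rw [blk_iff]
        exact (stab_eq X).symm
      have h2 := hF.2 m d X (1 : GLn R d) _ h1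
      exact h2.trans (by rw [one_zero hF, add_zero])
  refine ⟨QuotientAddGroup.lift _ _ hrel, fun r X => ?_⟩
  show QuotientAddGroup.lift _ _ _ (QuotientAddGroup.mk _) = _
  rw [QuotientAddGroup.lift_mk]
  exact FreeAbelianGroup.lift_apply_of _ _

end k1

/-! ## Functionals on the Whitehead groups -/

section wh

variable {G : Type} [Group G]

theorem gu_eq (g : G) : (Dl.gu g : (MonoidAlgebra ℤ G)ˣ) = gUnit g := Units.ext rfl

theorem exists_w {F : ∀ r : ℕ, GLn (MonoidAlgebra ℤ G) r → ℚ} (hF : Dl.IsWh F) :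
    ∃ w : Wh G →+ ℚ, ∀ (r : ℕ) (X : GLn (MonoidAlgebra ℤ G) r), w (Wh.mk (K1.mk r X)) = F r X := by
  obtain ⟨k, hk⟩ := exists_k hF.1
  have hg : ∀ g : G, k (K1.ofUnit (gUnit g)) = 0 := by
    intro g
    have h1 := hF.2 g
    rw [gu_eq] at h1
    exact (hk 1 _).trans h1
  have hn : ∀ g : G, k (K1.ofUnit (-gUnit g)) = 0 := by
    intro g
    have h1 : (-gUnit g) * (-gUnit g) = gUnit g * gUnit g := neg_mul_neg _ _
    have h2 := congrArg (fun u => k (K1.ofUnit u)) h1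
    beta_reduce at h2
    rw [K1.ofUnit_mul, K1.ofUnit_mul, map_add, map_add, hg] at h2
    linarith
  have hle : trivUnits G ≤ k.ker := by
    unfold trivUnits
    rw [AddSubgroup.closure_le]
    rintro x ⟨g, rfl | rfl⟩
    · exact hg g
    · exact hn g
  exact ⟨QuotientAddGroup.lift _ k hle, fun r X => hk r X⟩

end wh

end WHF

open WHF in
/-- Compatible families of functionals extend. -/
theorem t_WHF (G : Type) [Group G] : Dl.WhInj G := by
  classical
  intro f hf hc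
  choose w hw using fun H : FinSub G => exists_w (hf H.sub H.fin)
  have hrel : AddSubgroup.closure (ColimWh.relAdd G ∪ ColimWh.relConj G) ≤
      (FreeAbelianGroup.lift fun p : WhPair G => w p.H p.x).ker := by
    rw [AddSubgroup.closure_le]
    rintro z (⟨H, x, y, rfl⟩ | ⟨H, K, g, h, x, rfl⟩)
    · rw [SetLike.mem_coe, AddMonoidHom.mem_ker, ColimWh.relAddElt, map_sub, map_sub, ColimWh.gen,
        ColimWh.gen, ColimWh.gen, FreeAbelianGroup.lift_apply_of, FreeAbelianGroup.lift_apply_of,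
        FreeAbelianGroup.lift_apply_of, sub_sub, sub_eq_zero]
      exact map_add (w H) x y
    · rw [SetLike.mem_coe, AddMonoidHom.mem_ker, ColimWh.relConjElt, map_sub, ColimWh.gen,
        ColimWh.gen, FreeAbelianGroup.lift_apply_of, FreeAbelianGroup.lift_apply_of, sub_eq_zero]
      show w H x = w K (Wh.map (conjHom H.sub K.sub g h) x)
      obtain ⟨y, rfl⟩ := Wh.exists_mk x
      obtain ⟨r, X, rfl⟩ := K1.exists_mk y
      rw [Wh.map_mk, K1.map_mk, hw, hw]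
      exact (hc H.sub K.sub g (conjHom H.sub K.sub g h) H.fin K.fin (fun _ => rfl) r X).symm
  let φ : ColimWh G →+ ℚ := QuotientAddGroup.lift _ _ hrel
  obtain ⟨Φ, hΦ⟩ := exists_ext (assemblyWh G) assemblyWh_ker_torsion φ
  refine ⟨fun r X => Φ (Wh.mk (K1.mk r X)), ⟨⟨fun r X Y => ?_, fun a b X Y Z h => ?_⟩,
    fun g => ?_⟩, fun H hH r X => ?_⟩
  · have h1 : K1.mk r (X * Y : GLn (MonoidAlgebra ℤ G) r) = K1.mk r X + K1.mk r Y := K1.mk_mul r X Y
    have h2 := congrArg (fun t => Φ (Wh.mk t)) h1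
    exact h2.trans (map_add Φ (Wh.mk (K1.mk r X)) (Wh.mk (K1.mk r Y)))
  · have h2 := congrArg (fun t => Φ (Wh.mk t)) (mk_blk h)
    exact h2.trans (map_add Φ (Wh.mk (K1.mk a X)) (Wh.mk (K1.mk b Y)))
  · have h1 : (Wh.mk (K1.ofUnit (gUnit g)) : Wh G) = 0 :=
      (QuotientAddGroup.eq_zero_iff _).2 (AddSubgroup.subset_closure ⟨g, Or.inl rfl⟩)
    have h2 : Φ (Wh.mk (K1.ofUnit (gUnit g))) = 0 := by rw [h1, map_zero]
    rw [← gu_eq] at h2
    exact h2
  · have h1 := hΦ (ColimWh.mk ⟨H, hH⟩ (Wh.mk (K1.mk r X)))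
    have h2 : φ (ColimWh.mk ⟨H, hH⟩ (Wh.mk (K1.mk r X))) = f H r X := by
      refine Eq.trans ?_ (hw ⟨H, hH⟩ r X)
      show QuotientAddGroup.lift _ _ _ (QuotientAddGroup.mk _) = _
      rw [QuotientAddGroup.lift_mk]
      exact FreeAbelianGroup.lift_apply_of _ _
    have h3 : assemblyWh G (ColimWh.mk ⟨H, hH⟩ (Wh.mk (K1.mk r X))) =
        Wh.mk (K1.mk r (GLn.map (ringMap H.subtype) r X)) := by
      have h4 : assemblyWh G (ColimWh.mk ⟨H, hH⟩ (Wh.mk (K1.mk r X))) =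
          Wh.map H.subtype (Wh.mk (K1.mk r X)) := by
        show QuotientAddGroup.lift _ _ _ (QuotientAddGroup.mk _) = _
        rw [QuotientAddGroup.lift_mk]
        exact FreeAbelianGroup.lift_apply_of _ _
      rw [h4, Wh.map_mk, K1.map_mk]
    rw [h3, h2] at h1
    exact h1

end Pool.Agent.FJB
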