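import Mathlib

/-!
# Functionals on the source and on the target of the assembly map

The dual of `H_m(Γ; ℚ)` is `H^m(Γ; ℚ)`.
-/

set_option autoImplicit false

open CategoryTheory

noncomputable section

namespace Pool.Agent.FJB.Dual

/-! ## General linear groups -/

/-- The group `GL_r(R)`. -/
def GLr (R : Type) [Ring R] (r : ℕ) : Type := (Matrix (Fin r) (Fin r) R)ˣ

instance GLr.grp (R : Type) [Ring R] (r : ℕ) : Group (GLr R r) :=
  (inferInstance : Group (Matrix (Fin r) (Fin r) R)ˣ)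

/-- The underlying matrix. -/
def GLr.mat {R : Type} [Ring R] {r : ℕ} (X : GLr R r) : Matrix (Fin r) (Fin r) R := Units.val X

/-- The homomorphism `GL_r(R) → GL_r(S)` induced by a ring homomorphism. -/
def GLr.map {R S : Type} [Ring R] [Ring S] (f : R →+* S) (r : ℕ) : GLr R r →* GLr S r :=
  Units.map f.mapMatrix.toMonoidHom

/-- The matrix `Z` is the block sum of `X` and `Y`. -/
def Blk {R : Type} [Ring R] {a b : ℕ} (X : GLr R a) (Y : GLr R b) (Z : GLr R (a + b)) : Prop :=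
  Z.mat = (Matrix.fromBlocks X.mat 0 0 Y.mat).submatrix finSumFinEquiv.symm finSumFinEquiv.symm

/-! ## Cohomology of groups -/

/-- The homology `H_m(Γ; k)` with trivial coefficients (Mathlib). -/
abbrev H (k : Type) [CommRing k] (m : ℕ) (Γ : Type) [Group Γ] : ModuleCat k :=
  groupHomology (Rep.trivial k Γ k) m

/-- The dual of `H_m(Γ; ℚ)`, that is, the cohomology `H^m(Γ; ℚ)`. -/
def Coh (m : ℕ) (Γ : Type) [Group Γ] : Type := H ℚ m Γ →ₗ[ℚ] ℚ

instance Coh.acg (m : ℕ) (Γ : Type) [Group Γ] : AddCommGroup (Coh m Γ) :=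
  (inferInstance : AddCommGroup (H ℚ m Γ →ₗ[ℚ] ℚ))

/-- The value of a cohomology class on a homology class. -/
def Coh.ev {m : ℕ} {Γ : Type} [Group Γ] (f : Coh m Γ) (c : H ℚ m Γ) : ℚ :=
  (show H ℚ m Γ →ₗ[ℚ] ℚ from f) c

/-- The map `H^m(Δ; ℚ) → H^m(Γ; ℚ)` induced by a homomorphism `Γ → Δ`. -/
def Coh.pull {m : ℕ} {Γ Δ : Type} [Group Γ] [Group Δ] (u : Γ →* Δ) (f : Coh m Δ) : Coh m Γ :=
  (show H ℚ m Δ →ₗ[ℚ] ℚ from f) ∘ₗ (groupHomology.map u (𝟙 (Rep.trivial ℚ Γ ℚ)) m).hom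

/-- The inhomogeneous chain `x` is a cycle with homology class `c`. -/
def Cls {m : ℕ} {Γ : Type} [Group Γ] (x : (Fin m → Γ) →₀ ℚ) (c : H ℚ m Γ) : Prop :=
  ∃ z : groupHomology.cycles (Rep.trivial ℚ Γ ℚ) m,
    (groupHomology.iCycles (Rep.trivial ℚ Γ ℚ) m).hom z = x ∧
      (groupHomology.π (Rep.trivial ℚ Γ ℚ) m).hom z = c

/-- The class `f` takes integral values on the classes of the cycles with integral coefficients,
that is, it comes from a homomorphism `H_m(Γ; ℤ) → ℤ`. -/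
def IsInt {m : ℕ} {Γ : Type} [Group Γ] (f : Coh m Γ) : Prop :=
  ∀ (x : (Fin m → Γ) →₀ ℚ) (c : H ℚ m Γ), Cls x c → (∀ a, ∃ k : ℤ, x a = k) → ∃ k : ℤ, f.ev c = k

/-- The class `f` is detected: it vanishes on the undetected homology classes, i.e. those on which all
the homomorphisms `H_m(Γ; ℤ) → ℤ` vanish; or there are no undetected classes except zero because
`m = 0` or `H_m(Γ; ℤ)` is finitely generated. -/
def Det {m : ℕ} {Γ : Type} [Group Γ] (f : Coh m Γ) : Prop :=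
  m = 0 ∨ Module.Finite ℤ (H ℤ m Γ) ∨
    ∀ c : H ℚ m Γ, (∀ g : Coh m Γ, IsInt g → g.ev c = 0) → f.ev c = 0

/-! ## Functionals on the K-theory -/

/-- A linear functional on `K_n(R) ⊗ ℚ`, `n ≥ 0`, which is the cokernel of
`K_{n+1}(R[X]) ⊕ K_{n+1}(R[X]) → K_{n+1}(R[t,t⁻¹])`, `X ↦ t` and `X ↦ t⁻¹`, tensored with `ℚ`; and
`K_{n+1}(S) ⊗ ℚ` is the space of indecomposables of the homology of `GL(S)`.  So it is a family of classes
`F r` in `H^{n+1}(GL_r(R[t,t⁻¹]); ℚ)` which is additive on block sums and vanishes on the two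
subrings `R[t]` and `R[t⁻¹]`. -/
def IsKn {n : ℕ} {R : Type} [Ring R] (F : ∀ r : ℕ, Coh (n + 1) (GLr (LaurentPolynomial R) r)) :
    Prop :=
  (∀ a b : ℕ, ∃ s : GLr (LaurentPolynomial R) a × GLr (LaurentPolynomial R) b →*
      GLr (LaurentPolynomial R) (a + b), (∀ X, Blk X.1 X.2 (s X)) ∧
      (F (a + b)).pull s = (F a).pull (MonoidHom.fst _ _) + (F b).pull (MonoidHom.snd _ _)) ∧
  ∀ j : Polynomial R →+* LaurentPolynomial R, (∀ x, j (Polynomial.C x) = LaurentPolynomial.C x) →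
    (j Polynomial.X = LaurentPolynomial.T 1 ∨ j Polynomial.X = LaurentPolynomial.T (-1)) →
    ∀ r : ℕ, (F r).pull (GLr.map j r) = 0

/-! ## Functionals on the source -/

/-- The centraliser of `h`. -/
abbrev Cen {G : Type} [Group G] (h : G) : Subgroup G := Subgroup.centralizer {h}

/-- A linear functional on the part with coefficients `K_{-1}` of the source, i.e. on the sum of the
`H_{n+1}(Z_G(h); ℚ) ⊗ Θ K_{-1}(ℤ[⟨h⟩])`: classes `L p h` in `H^{n+1}(Z_G(h); ℚ)`, for `h` of finite order and a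
prime `p` dividing the order of `h`, compatible with conjugation by the elements of `G` and depending
only on the `p`-Frobenius orbit of the generator `h` of `⟨h⟩`, and with sum zero over all `p` and
all generators `h ^ a` of `⟨h⟩`. -/
def IsL {n : ℕ} {G : Type} [Group G] (L : ∀ (_ : ℕ) (h : G), Coh n (Cen h)) : Prop :=
  (∀ (p : ℕ) (h h' x : G) (j k : ℕ) (u : Cen h →* Cen h'), p.Prime → IsOfFinOrder h →
    p ∣ orderOf h → Subgroup.zpowers h' = Subgroup.zpowers (x * h * x⁻¹) →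
    (x * h * x⁻¹) ^ p ^ j = h' ^ p ^ k → (∀ z, (u z : G) = x * z * x⁻¹) →
    (L p h').pull u = L p h) ∧
  ∀ (h : G) (u : ∀ a : ℕ, Cen h →* Cen (h ^ a)), IsOfFinOrder h → (∀ a z, (u a z : G) = z) →
    ∑ p ∈ (orderOf h).primeFactors, ∑ a ∈ Finset.range (orderOf h) with a.Coprime (orderOf h),
      (L p (h ^ a)).pull (u a) = 0

/-- The element `h` has finite order and `u` is a unit of `ℤ[⟨h⟩]`. -/
def Adm {G : Type} [Group G] (h : G) (u : (MonoidAlgebra ℤ G)ˣ) : Prop :=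
  IsOfFinOrder h ∧ ∃ v : (MonoidAlgebra ℤ (Subgroup.zpowers h))ˣ,
    MonoidAlgebra.mapDomainRingHom ℤ (Subgroup.zpowers h).subtype v.val = u.val

/-- The element `g` of `G` as a unit of `ℤ[G]`. -/
def gu {G : Type} [Group G] (g : G) : (MonoidAlgebra ℤ G)ˣ := (MonoidAlgebra.of ℤ G).toHomUnits g

/-- A linear functional on the part with coefficients `K_1` of the source, i.e. on the sum of the
`H_m(Z_G(h); ℚ) ⊗ ℤ[⟨h⟩]ˣ`, modulo conjugation by the elements of `G` and restriction to the subgroups of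
`⟨h⟩`. -/
def IsM {m : ℕ} {G : Type} [Group G] (M : ∀ (h : G) (_ : (MonoidAlgebra ℤ G)ˣ), Coh m (Cen h)) :
    Prop :=
  (∀ (h : G) (u v : (MonoidAlgebra ℤ G)ˣ), Adm h u → Adm h v → M h (u * v) = M h u + M h v) ∧
  ∀ (h h' x : G) (u : (MonoidAlgebra ℤ G)ˣ) (w : Cen h →* Cen h'), IsOfFinOrder h →
    h' ∈ Subgroup.zpowers (x * h * x⁻¹) → Adm h' (gu x * u * (gu x)⁻¹) →
    (∀ z, (w z : G) = x * z * x⁻¹) → (M h' (gu x * u * (gu x)⁻¹)).pull w = M h u

/-! ## The assembly map -/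

/-- The cyclic group of order `N`. -/
abbrev Cyc (N : ℕ) : Type := Multiplicative (ZMod N)

/-- The generator. -/
abbrev gen (N : ℕ) : Cyc N := Multiplicative.ofAdd 1

/-- The shuffle product of an inhomogeneous chain with the 1-chain `[g]`:
`(a_1, …, a_m) ↦ ∑ i, (-1)^i (a_1, …, a_i, g, a_(i+1), …, a_m)`. -/
def ins (m : ℕ) {Q : Type} (g : Q) (x : (Fin m → Q) →₀ ℚ) : (Fin (m + 1) → Q) →₀ ℚ :=
  x.sum fun a r => ∑ i : Fin (m + 1),
    Finsupp.single (Fin.insertNth (α := fun _ => Q) i g a) ((-1 : ℚ) ^ (i : ℕ) * r)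

/-- The ring `ℤ[G][t,t⁻¹]`. -/
abbrev LG (G : Type) [Group G] : Type := LaurentPolynomial (MonoidAlgebra ℤ G)

/-- The element `t` of `GL_1(ℤ[G][t,t⁻¹])`. -/
def tt (G : Type) [Group G] : GLr (LG G) 1 where
  val := Matrix.scalar (Fin 1) (LaurentPolynomial.T 1)
  inv := Matrix.scalar (Fin 1) (LaurentPolynomial.T (-1))
  val_inv := by
    rw [← map_mul, ← LaurentPolynomial.T_add, add_neg_cancel, LaurentPolynomial.T_zero, map_one]
  inv_val := by
    rw [← map_mul, ← LaurentPolynomial.T_add, neg_add_cancel, LaurentPolynomial.T_zero, map_one]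

/-- The units of `ℤ[G]` in `GL_1(ℤ[G][t,t⁻¹])`. -/
def uu (G : Type) [Group G] : (MonoidAlgebra ℤ G)ˣ →* GLr (LG G) 1 :=
  Units.map ((Matrix.scalar (Fin 1)).comp LaurentPolynomial.C).toMonoidHom

/-- The part with coefficients `K_0`: `F (c × [t]) = f c` for `c` in `H_n(G; ℚ)`. -/
def ExtZ {n : ℕ} {G : Type} [Group G] (f : Coh n G) (F : Coh (n + 1) (GLr (LG G) 1)) : Prop :=
  ∀ (x : (Fin n → G) →₀ ℚ) (c : H ℚ n G), Cls x c → ∃ c' : H ℚ (n + 1) (GLr (LG G) 1),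
    Cls (ins n (tt G) (x.mapDomain fun a i => uu G (gu (a i)))) c' ∧ F.ev c' = f.ev c

/-- The part with coefficients `K_{-1}`: for an injective homomorphism `φ : C_N → G`, a prime `p` dividing `N`
and the image `E` of the idempotent matrix `e N p`, the pull-back of the functional along the homomorphism
`z ↦ z E + 1 - E` from the centraliser of `h`, the image of the generator, is `L p h`. -/
def ExtN {n : ℕ} {G : Type} [Group G] {r : ℕ → ℕ → ℕ}
    (e : ∀ N p : ℕ, Matrix (Fin (r N p)) (Fin (r N p)) (LG (Cyc N)))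
    (L : ∀ (_ : ℕ) (h : G), Coh n (Cen h)) (F : ∀ r : ℕ, Coh n (GLr (LG G) r)) : Prop :=
  ∀ (N p : ℕ) (φ : Cyc N →* G) (E : Matrix (Fin (r N p)) (Fin (r N p)) (LG G)), 0 < N → p.Prime →
    p ∣ N → Function.Injective φ →
    E = (e N p).map (AddMonoidAlgebra.mapRingHom ℤ (MonoidAlgebra.mapDomainRingHom ℤ φ)) →
    ∃ s : Cen (φ (gen N)) →* GLr (LG G) (r N p),
      (∀ z, (s z).mat = LaurentPolynomial.C (MonoidAlgebra.of ℤ G z) • E + (1 - E)) ∧
      (F (r N p)).pull s = L p (φ (gen N))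

/-- The part with coefficients `K_1`, for `n = m + 1`: `F (c × [u] × [t]) = M h u c` for `c` in
`H_m(Z_G(h); ℚ)`. -/
def ExtO {G : Type} [Group G] : (n : ℕ) → (∀ (h : G) (_ : (MonoidAlgebra ℤ G)ˣ), Coh (n - 1) (Cen h)) →
    Coh (n + 1) (GLr (LG G) 1) → Prop
  | 0, _, _ => True
  | m + 1, M, F => ∀ (h : G) (u : (MonoidAlgebra ℤ G)ˣ) (x : (Fin m → Cen h) →₀ ℚ)
      (c : H ℚ m (Cen h)), Adm h u → Cls x c → ∃ c' : H ℚ (m + 2) (GLr (LG G) 1),
      Cls (ins (m + 1) (tt G) (ins m (uu G u) (x.mapDomain fun a i => uu G (gu (a i : G))))) c' ∧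
      F.ev c' = (M h u).ev c

/-- For every prime `p` the `p`-parts of the orders of the torsion elements of `G` are bounded. -/
def PBd (G : Type) [Group G] : Prop :=
  ∀ p : ℕ, p.Prime → ∃ c : ℕ, ∀ h : G, IsOfFinOrder h → ¬ p ^ c ∣ orderOf h

/-- The final statement. -/
def Main : Prop :=
  ∃ (r : ℕ → ℕ → ℕ) (e : ∀ N p : ℕ, Matrix (Fin (r N p)) (Fin (r N p)) (LG (Cyc N))),
    (∀ N p : ℕ, e N p * e N p = e N p) ∧
    ∀ (G : Type) [Group G] (n : ℕ), (n ≤ 2 ∨ PBd G) → ∀ (f : Coh n G)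
      (L : ∀ (_ : ℕ) (h : G), Coh (n + 1) (Cen h))
      (M : ∀ (h : G) (_ : (MonoidAlgebra ℤ G)ˣ), Coh (n - 1) (Cen h)), IsL L → IsM M →
      (∀ (p : ℕ) (h : G), IsOfFinOrder h → h ≠ 1 → Det (L p h)) →
      (∀ (h : G) (u : (MonoidAlgebra ℤ G)ˣ), IsOfFinOrder h → h ≠ 1 → Det (M h u)) →
      ∃ F : ∀ r : ℕ, Coh (n + 1) (GLr (LG G) r), IsKn F ∧ ExtZ f (F 1) ∧ ExtN e L F ∧
        ExtO n M (F 1)

end Pool.Agent.FJB.Dual
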