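import Mathlib

/-!
# Functionals on the source and on the target of the assembly map

The dual of `H_m(Γ; ℚ)` is `H^m(Γ; ℚ)`.
-/

set_option autoImplicit false

open CategoryTheory

noncomputable section

namespace Pool.Agent.FJB.Dl

/-! ## General linear groups -/

/-- The group `GL_r(R)`. -/
def GLr (R : Type) [Ring R] (r : ℕ) : Type := (Matrix (Fin r) (Fin r) R)ˣ

instance GLr.grp (R : Type) [Ring R] (r : ℕ) : Group (GLr R r) :=
  (inferInstance : Group (Matrix (Fin r) (Fin r) R)ˣ)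

/-- The underlying matrix. -/
def GLr.mat {R : Type} [Ring R] {r : ℕ} (X : GLr R r) : Matrix (Fin r) (Fin r) R := Units.val X

/-- The homomorphism `GL_r(R) → GL_r(S)` induced by a ring homomorphism. -/
def GLr.map {R S : Type} [Ring R] [Ring S] (f : R →+* S) (r : ℕ) : GLr R r →* GLr S r :=
  Units.map f.mapMatrix.toMonoidHom

/-- A unit of `R` as a `1 × 1` matrix. -/
def GLr.one {R : Type} [Ring R] : Rˣ →* GLr R 1 := Units.map (Matrix.scalar (Fin 1)).toMonoidHom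

/-- The matrix `Z` is the block sum of `X` and `Y`. -/
def Blk {R : Type} [Ring R] {a b : ℕ} (X : GLr R a) (Y : GLr R b) (Z : GLr R (a + b)) : Prop :=
  Z.mat = (Matrix.fromBlocks X.mat 0 0 Y.mat).submatrix finSumFinEquiv.symm finSumFinEquiv.symm

/-- The matrix `a E + 1 - E`. -/
def rmat {R : Type} [Ring R] {r : ℕ} (E : Matrix (Fin r) (Fin r) R) (a : R) :
    Matrix (Fin r) (Fin r) R := a • E + (1 - E)

/-- The element `g` of `G` as a unit of `ℤ[G]`. -/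
def gu {G : Type} [Group G] : G →* (MonoidAlgebra ℤ G)ˣ := (MonoidAlgebra.of ℤ G).toHomUnits

/-! ## Whitehead groups -/

/-- A linear functional on `K_1(R) ⊗ ℚ`: homomorphisms `F r : GL_r(R) → ℚ`, additive on block sums. -/
def IsK1 {R : Type} [Ring R] (F : ∀ r : ℕ, GLr R r → ℚ) : Prop :=
  (∀ (r : ℕ) (X Y : GLr R r), F r (X * Y) = F r X + F r Y) ∧
  ∀ (a b : ℕ) (X : GLr R a) (Y : GLr R b) (Z : GLr R (a + b)), Blk X Y Z →
    F (a + b) Z = F a X + F b Y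

/-- A linear functional on `Wh(G) ⊗ ℚ`: one on `K_1(ℤ[G]) ⊗ ℚ` that vanishes on the elements of `G`. -/
def IsWh {G : Type} [Group G] (F : ∀ r : ℕ, GLr (MonoidAlgebra ℤ G) r → ℚ) : Prop :=
  IsK1 F ∧ ∀ g : G, F 1 (GLr.one (gu g)) = 0

/-- The homomorphism `GL_r(ℤ[H]) → GL_r(ℤ[K])` induced by a homomorphism `H → K`. -/
def gm {H K : Type} [Group H] [Group K] (u : H →* K) (r : ℕ) :
    GLr (MonoidAlgebra ℤ H) r →* GLr (MonoidAlgebra ℤ K) r :=
  GLr.map (MonoidAlgebra.mapDomainRingHom ℤ u) r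

/-- The map `colim_H Wh(H) ⊗ ℚ → Wh(G) ⊗ ℚ` is injective, where `H` runs through the finite subgroups of
`G` and the maps are those induced by the homomorphisms `H → K`, `a ↦ x a x⁻¹`: every linear functional
on the colimit, that is, every compatible family of linear functionals `f H` on the `Wh(H) ⊗ ℚ`, extends
to a linear functional on `Wh(G) ⊗ ℚ`. -/
def WhInj (G : Type) [Group G] : Prop :=
  ∀ f : ∀ (H : Subgroup G) (r : ℕ), GLr (MonoidAlgebra ℤ H) r → ℚ,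
    (∀ H : Subgroup G, Finite H → IsWh (f H)) →
    (∀ (H K : Subgroup G) (x : G) (u : H →* K), Finite H → Finite K →
      (∀ a, (u a : G) = x * a * x⁻¹) → ∀ r X, f K r (gm u r X) = f H r X) →
    ∃ F : ∀ r : ℕ, GLr (MonoidAlgebra ℤ G) r → ℚ, IsWh F ∧
      ∀ H : Subgroup G, Finite H → ∀ r X, F r (gm H.subtype r X) = f H r X

/-! ## Cohomology of groups -/

/-- The homology `H_m(Γ; k)` with trivial coefficients (Mathlib). -/
abbrev H (k : Type) [CommRing k] (m : ℕ) (Γ : Type) [Group Γ] : ModuleCat k :=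
  groupHomology (Rep.trivial k Γ k) m

/-- The dual of `H_m(Γ; ℚ)`, that is, the cohomology `H^m(Γ; ℚ)`. -/
def Coh (m : ℕ) (Γ : Type) [Group Γ] : Type := H ℚ m Γ →ₗ[ℚ] ℚ

instance Coh.acg (m : ℕ) (Γ : Type) [Group Γ] : AddCommGroup (Coh m Γ) :=
  (inferInstance : AddCommGroup (H ℚ m Γ →ₗ[ℚ] ℚ))

/-- The value of a cohomology class on a homology class. -/
def Coh.ev {m : ℕ} {Γ : Type} [Group Γ] (f : Coh m Γ) (c : H ℚ m Γ) : ℚ :=
  (show H ℚ m Γ →ₗ[ℚ] ℚ from f) c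

/-- The map `H^m(Δ; ℚ) → H^m(Γ; ℚ)` induced by a homomorphism `Γ → Δ`. -/
def Coh.pull {m : ℕ} {Γ Δ : Type} [Group Γ] [Group Δ] (u : Γ →* Δ) (f : Coh m Δ) : Coh m Γ :=
  (show H ℚ m Δ →ₗ[ℚ] ℚ from f) ∘ₗ (groupHomology.map u (𝟙 (Rep.trivial ℚ Γ ℚ)) m).hom

/-- The inhomogeneous chain `x` is a cycle with homology class `c`. -/
def Cls {m : ℕ} {Γ : Type} [Group Γ] (x : (Fin m → Γ) →₀ ℚ) (c : H ℚ m Γ) : Prop :=
  ∃ z : groupHomology.cycles (Rep.trivial ℚ Γ ℚ) m,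
    (groupHomology.iCycles (Rep.trivial ℚ Γ ℚ) m).hom z = x ∧
      (groupHomology.π (Rep.trivial ℚ Γ ℚ) m).hom z = c

/-- The class `f` takes integral values on the classes of the cycles with integral coefficients,
that is, it comes from a homomorphism `H_m(Γ; ℤ) → ℤ`. -/
def IsInt {m : ℕ} {Γ : Type} [Group Γ] (f : Coh m Γ) : Prop :=
  ∀ (x : (Fin m → Γ) →₀ ℚ) (c : H ℚ m Γ), Cls x c → (∀ a, ∃ k : ℤ, x a = k) → ∃ k : ℤ, f.ev c = k

/-- The class `f` is detected: it vanishes on the undetected homology classes, i.e. those on which all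
the homomorphisms `H_m(Γ; ℤ) → ℤ` vanish; or there are no undetected classes except zero because
`m = 0` or `H_m(Γ; ℤ)` is finitely generated. -/
def Det {m : ℕ} {Γ : Type} [Group Γ] (f : Coh m Γ) : Prop :=
  m = 0 ∨ Module.Finite ℤ (H ℤ m Γ) ∨
    ∀ c : H ℚ m Γ, (∀ g : Coh m Γ, IsInt g → g.ev c = 0) → f.ev c = 0

/-! ## Functionals on the K-theory -/

/-- The ring `ℤ[G][t,t⁻¹]`. -/
def LG (G : Type) [Group G] : Type := LaurentPolynomial (MonoidAlgebra ℤ G)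

instance LG.ring (G : Type) [Group G] : Ring (LG G) :=
  (inferInstance : Ring (LaurentPolynomial (MonoidAlgebra ℤ G)))

/-- The inclusion `ℤ[G] → ℤ[G][t,t⁻¹]`. -/
def cc {G : Type} [Group G] : MonoidAlgebra ℤ G →+* LG G :=
  (LaurentPolynomial.C : MonoidAlgebra ℤ G →+* LaurentPolynomial (MonoidAlgebra ℤ G))

/-- The element `t ^ k` of `ℤ[G][t,t⁻¹]`. -/
def tk (G : Type) [Group G] (k : ℤ) : LG G :=
  (LaurentPolynomial.T k : LaurentPolynomial (MonoidAlgebra ℤ G))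

/-- A linear functional on `K_n(ℤ[G]) ⊗ ℚ`, `n ≥ 0`, where `K_n(R)` is the cokernel of
`K_{n+1}(R[X]) ⊕ K_{n+1}(R[X]) → K_{n+1}(R[t,t⁻¹])`, `X ↦ t` and `X ↦ t⁻¹` (tensored with `ℚ`), and
`K_{n+1}(S) ⊗ ℚ` is the space of indecomposables of the homology of `GL(S)`.  So it is a family of classes
`F r` in `H^{n+1}(GL_r(ℤ[G][t,t⁻¹]); ℚ)` which is additive on block sums and vanishes on the two
subrings `ℤ[G][t]` and `ℤ[G][t⁻¹]`. -/
def IsKn {n : ℕ} {G : Type} [Group G] (F : ∀ r : ℕ, Coh (n + 1) (GLr (LG G) r)) : Prop :=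
  (∀ a b : ℕ, ∃ s : GLr (LG G) a × GLr (LG G) b →* GLr (LG G) (a + b),
      (∀ X, Blk X.1 X.2 (s X)) ∧
      (F (a + b)).pull s = (F a).pull (MonoidHom.fst _ _) + (F b).pull (MonoidHom.snd _ _)) ∧
  ∀ k : ℤ, (k = 1 ∨ k = -1) → ∃ j : Polynomial (MonoidAlgebra ℤ G) →+* LG G,
    j.comp Polynomial.C = cc ∧ j Polynomial.X = tk G k ∧ ∀ r : ℕ, (F r).pull (GLr.map j r) = 0

/-! ## Functionals on the source -/

/-- The centraliser of `h`. -/
abbrev Cen {G : Type} [Group G] (h : G) : Subgroup G := Subgroup.centralizer {h}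

/-- The homomorphism `u` from `Z_G(h)` to `Z_G(h')` is `z ↦ x z x⁻¹`. -/
def Cj {G : Type} [Group G] {h h' : G} (x : G) (u : Cen h →* Cen h') : Prop :=
  ∀ z, (u z : G) = x * z * x⁻¹

/-- A linear functional on the part with coefficients `K_{-1}` of the source, i.e. on the sum of the
`H_n(Z_G(h); ℚ) ⊗ Θ K_{-1}(ℤ[⟨h⟩])`: classes `L p h` in `H^n(Z_G(h); ℚ)`, for `h` of finite order and a
prime `p` dividing the order of `h`, compatible with conjugation by the elements of `G` and depending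
only on the `p`-Frobenius orbit of the generator `h` of `⟨h⟩`, and with sum zero over all `p` and
all generators `h ^ a` of `⟨h⟩`. -/
def IsL {n : ℕ} {G : Type} [Group G] (L : ∀ (_ : ℕ) (h : G), Coh n (Cen h)) : Prop :=
  (∀ (p : ℕ) (h h' x : G) (j k : ℕ) (u : Cen h →* Cen h'), p.Prime → IsOfFinOrder h →
    p ∣ orderOf h → Subgroup.zpowers h' = Subgroup.zpowers (x * h * x⁻¹) →
    (x * h * x⁻¹) ^ p ^ j = h' ^ p ^ k → Cj x u → (L p h').pull u = L p h) ∧
  ∀ (h : G) (u : ∀ a : ℕ, Cen h →* Cen (h ^ a)), IsOfFinOrder h → (∀ a, Cj 1 (u a)) →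
    ∑ p ∈ (orderOf h).primeFactors, ∑ a ∈ Finset.range (orderOf h) with a.Coprime (orderOf h),
      (L p (h ^ a)).pull (u a) = 0

/-- The element `h` has finite order and `u` is a unit of `ℤ[⟨h⟩]`. -/
def Adm {G : Type} [Group G] (h : G) (u : (MonoidAlgebra ℤ G)ˣ) : Prop :=
  IsOfFinOrder h ∧ ∃ v : (MonoidAlgebra ℤ (Subgroup.zpowers h))ˣ,
    MonoidAlgebra.mapDomainRingHom ℤ (Subgroup.zpowers h).subtype v.val = u.val

/-- A linear functional on the part with coefficients `K_1` of the source, i.e. on the sum of the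
`H_m(Z_G(h); ℚ) ⊗ ℤ[⟨h⟩]ˣ`, modulo conjugation by the elements of `G` and restriction to the subgroups of
`⟨h⟩`. -/
def IsM {m : ℕ} {G : Type} [Group G] (M : ∀ (h : G) (_ : (MonoidAlgebra ℤ G)ˣ), Coh m (Cen h)) :
    Prop :=
  (∀ (h : G) (u v : (MonoidAlgebra ℤ G)ˣ), Adm h u → Adm h v → M h (u * v) = M h u + M h v) ∧
  ∀ (h h' x : G) (u : (MonoidAlgebra ℤ G)ˣ) (w : Cen h →* Cen h'), IsOfFinOrder h →
    h' ∈ Subgroup.zpowers (x * h * x⁻¹) → Adm h' (gu x * u * (gu x)⁻¹) → Cj x w →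
    (M h' (gu x * u * (gu x)⁻¹)).pull w = M h u

/-! ## The assembly map -/

/-- The cyclic group of order `N`. -/
abbrev Cyc (N : ℕ) : Type := Multiplicative (ZMod N)

/-- The generator. -/
abbrev gen (N : ℕ) : Cyc N := Multiplicative.ofAdd 1

/-- The ring homomorphism `ℤ[C][t,t⁻¹] → ℤ[G][t,t⁻¹]` induced by a homomorphism `C → G`. -/
def ind {C G : Type} [Group C] [Group G] (φ : C →* G) : LG C →+* LG G :=
  AddMonoidAlgebra.mapRingHom ℤ (MonoidAlgebra.mapDomainRingHom ℤ φ)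

/-- The shuffle product of an inhomogeneous chain with the 1-chain `[g]`:
`(a_1, …, a_m) ↦ ∑ i, (-1)^i (a_1, …, a_i, g, a_(i+1), …, a_m)`. -/
def ins (m : ℕ) {Q : Type} (g : Q) (x : (Fin m → Q) →₀ ℚ) : (Fin (m + 1) → Q) →₀ ℚ :=
  x.sum fun a r => ∑ i : Fin (m + 1),
    Finsupp.single (Fin.insertNth (α := fun _ => Q) i g a) ((-1 : ℚ) ^ (i : ℕ) * r)

/-- The units of `ℤ[G]` in `GL_1(ℤ[G][t,t⁻¹])`. -/
def uu {G : Type} [Group G] : (MonoidAlgebra ℤ G)ˣ →* GLr (LG G) 1 :=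
  (GLr.map cc 1).comp GLr.one

/-- The part with coefficients `K_0`: `F (c × [t]) = f c` for `c` in `H_n(G; ℚ)`. -/
def ExtZ {n : ℕ} {G : Type} [Group G] (f : Coh n G) (F : Coh (n + 1) (GLr (LG G) 1)) : Prop :=
  ∃ t : GLr (LG G) 1, t.mat = Matrix.scalar (Fin 1) (tk G 1) ∧
    ∀ (x : (Fin n → G) →₀ ℚ) (c : H ℚ n G), Cls x c → ∃ c' : H ℚ (n + 1) (GLr (LG G) 1),
      Cls (ins n t (x.mapDomain fun a i => uu (gu (a i)))) c' ∧ F.ev c' = f.ev c

/-- The part with coefficients `K_{-1}`: for an injective homomorphism `φ : C_N → G`, a prime `p` dividing `N`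
and the image `E` of the idempotent matrix `e N p`, the pull-back of the functional along the homomorphism
`z ↦ z E + 1 - E` from the centraliser of `h`, the image of the generator, is `L p h`. -/
def ExtN {n : ℕ} {G : Type} [Group G] {r : ℕ → ℕ → ℕ}
    (e : ∀ N p : ℕ, Matrix (Fin (r N p)) (Fin (r N p)) (LG (Cyc N)))
    (L : ∀ (_ : ℕ) (h : G), Coh n (Cen h)) (F : ∀ r : ℕ, Coh n (GLr (LG G) r)) : Prop :=
  ∀ (N p : ℕ) (φ : Cyc N →* G), 0 < N → p.Prime → p ∣ N → Function.Injective φ →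
    ∃ s : Cen (φ (gen N)) →* GLr (LG G) (r N p),
      (∀ z, (s z).mat = rmat ((e N p).map (ind φ)) (cc (MonoidAlgebra.of ℤ G z))) ∧
      (F (r N p)).pull s = L p (φ (gen N))

/-- The part with coefficients `K_1`, for `n = m + 1`: `F (c × [u] × [t]) = M h u c` for `c` in
`H_m(Z_G(h); ℚ)`. -/
def ExtO {G : Type} [Group G] : (n : ℕ) → (∀ (h : G) (_ : (MonoidAlgebra ℤ G)ˣ), Coh (n - 1) (Cen h)) →
    Coh (n + 1) (GLr (LG G) 1) → Prop
  | 0, _, _ => True
  | m + 1, M, F => ∃ t : GLr (LG G) 1, t.mat = Matrix.scalar (Fin 1) (tk G 1) ∧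
      ∀ (h : G) (u : (MonoidAlgebra ℤ G)ˣ) (x : (Fin m → Cen h) →₀ ℚ) (c : H ℚ m (Cen h)),
        Adm h u → Cls x c → ∃ c' : H ℚ (m + 2) (GLr (LG G) 1),
        Cls (ins (m + 1) t (ins m (uu u) (x.mapDomain fun a i => uu (gu (a i : G))))) c' ∧
        F.ev c' = (M h u).ev c

/-- For every prime `p` the `p`-parts of the orders of the torsion elements of `G` are bounded. -/
def PBd (G : Type) [Group G] : Prop :=
  ∀ p : ℕ, p.Prime → ∃ c : ℕ, ∀ h : G, IsOfFinOrder h → ¬ p ^ c ∣ orderOf h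

/-- A linear functional on the source of the rationalised assembly map in degree `n`, that is, on the
sum of its parts with coefficients `K_0`, `K_{-1}` and, for `n ≥ 1`, `K_1`. -/
structure SrcFun (n : ℕ) (G : Type) [Group G] : Type where
  f : Coh n G
  L : ∀ (_ : ℕ) (h : G), Coh (n + 1) (Cen h)
  M : ∀ (h : G) (_ : (MonoidAlgebra ℤ G)ˣ), Coh (n - 1) (Cen h)
  hL : IsL L
  hM : IsM M

/-- The classes at the elements `h ≠ 1` are detected. -/
def SrcFun.IsDet {n : ℕ} {G : Type} [Group G] (s : SrcFun n G) : Prop :=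
  ∀ h : G, IsOfFinOrder h → h ≠ 1 → (∀ p, Det (s.L p h)) ∧ ∀ u, Det (s.M h u)

/-- The composition of the functional `F` on `K_n(ℤ[G]) ⊗ ℚ` with the assembly map is `s`. -/
def Ext {n : ℕ} {G : Type} [Group G] {r : ℕ → ℕ → ℕ}
    (e : ∀ N p : ℕ, Matrix (Fin (r N p)) (Fin (r N p)) (LG (Cyc N))) (s : SrcFun n G)
    (F : ∀ r : ℕ, Coh (n + 1) (GLr (LG G) r)) : Prop :=
  ExtZ s.f (F 1) ∧ ExtN e s.L F ∧ ExtO n s.M (F 1)

/-- The final statement. -/
def Main : Prop :=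
  (∀ (G : Type) [Group G], WhInj G) ∧
  ∃ (r : ℕ → ℕ → ℕ) (e : ∀ N p : ℕ, Matrix (Fin (r N p)) (Fin (r N p)) (LG (Cyc N))),
    (∀ N p : ℕ, e N p * e N p = e N p) ∧ ∀ (G : Type) [Group G] (n : ℕ),
      (∀ F : ∀ r : ℕ, Coh (n + 1) (GLr (LG G) r), IsKn F → ∃ s : SrcFun n G, Ext e s F) ∧
      ((n ≤ 2 ∨ PBd G) → ∀ s : SrcFun n G, s.IsDet →
        ∃ F : ∀ r : ℕ, Coh (n + 1) (GLr (LG G) r), IsKn F ∧ Ext e s F)

end Pool.Agent.FJB.Dl
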