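import Pool.Agent.FJB.Core
import Pool.Agent.FJA.P_T0M
import Pool.Agent.FJA.St4

/-!
# Statements of the modules of the project FJB

`Z' = Multiplicative ℤ`, `Γ = G × Z'`, `C = Cyc N`, `φ : C →* G`, `f = ffC φ : C →* Γ`.  The statements of the
project FJA (files `Pool/Agent/FJA/St*.lean`, proofs `Pool/Agent/FJA/P_XXX.lean`, theorems `t_XXX : S_XXX`) can be used.
Every module is a file `Pool/Agent/FJB/P_XXX.lean` with a theorem `t_XXX`, whose hypotheses are the statements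
`S_YYY` listed after USES (statements of FJA may also be used directly through their theorems `t_YYY`).
-/

set_option autoImplicit false

open Matrix Pool.Agent.WhK Pool.Agent.Lib25 CategoryTheory Pool.Agent.FJA

noncomputable section

namespace Pool.Agent.FJB

/-! ## Modules TXM, SLA, KBD, SLV: the chain `w × [u] × [t]` -/

/-- TXM (USES: nothing): merging of labels along a monotone map `f`.

Proof.  The homomorphism `Rec.res f` induces a ring homomorphism `R` of the matrices over `k[Rec Γ (Fin M')]` to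
those over `k[Rec Γ (Fin M)]` (see the proofs of `t_TXfac` in P_TXA.lean and `t_TXR` in P_TXR.lean): `R (j A) = j A` and
`R (ω_e)` is the diagonal matrix of the path with lists `[1]` for the labels `t` with `f t = e` and `[]` otherwise,
which is the ordered product of the `ω_t`, `f t = e` (also if there is no such `t`).  So `R (UX X) = ∏_e j X_e *
(∏_(f t = e) ω_t) * j X_e⁻¹ = ∏_e ∏_(f t = e) (j X_(f t) ω_t j X_(f t)⁻¹)`.  As `f` is monotone, the list `finRange M` is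
the concatenation over `e` (in `finRange M'`) of the lists of the `t` with `f t = e` (both are strictly increasing and
have the same elements: `List.eq_of_perm_of_sorted` or induction), so this is `UX (X ∘ f)`.
Finally `lin (φ ∘ θ) x = lin φ (mapDomain θ x)`.  (Alternatively: induction on `M`, splitting off the last label with
`Fin.lastCases`/`Fin.castSucc`; choose what is easier.  Only `M' = 2` is needed, if that helps.) -/
def S_TXM : Prop := ∀ (k : Type) [Field k] [CharZero k] (Γ : Type) [Group Γ] (ι : Type) [Fintype ι]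
    [DecidableEq ι] (M M' N : ℕ) (f : Fin M → Fin M'), Monotone f →
    ∀ (φ : Rec Γ (Fin M) → ℚ) (X : Fin M' → (Matrix ι ι (MonoidAlgebra k Γ))ˣ),
    TX (fun μ => φ (Rec.res f μ)) N X = TX φ N (fun t => X (f t))

/-- SLA (USES TXM): the value of a function on the chain `E1` is the value of the slant product on the
simplex `1, u` over `k[C]`.

Proof.  By linearity in `w` (`SL φ η (κ + κ') = SL φ η κ + SL φ η κ'`, TXlin) take `w = single Z 1`.  Compare P_EV1.lean (there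
`k = ℚ_p` and a special `η`; `EV1.vert` computes the vertices; generalise it to `k`, with `uK k` instead of `uZ p`):
`E1` is the sum over `i, i'` of `(-1)^(i + i')` times the simplex with the vertices `cvt` of which are
`sclU k (Fin 1) γ_l * glG (inl) (glG φ (sc v_l))`, `γ_l = (Z.., 1 or t)`, `v_l = 1` or `uK k u`.  By TWI (P_TWI.lean) with
`f = ffC φ` (`glG (inl) ∘ glG φ = glG (ffC φ)`) and `γ_l`, which commutes with the image of `f` (`commute_cyc`), its value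
is `TX (η ∘ twR f γ) K (sc ∘ v)`; `v_l = ![1, uK k u] (e_l)` with `e_l = 0` before and `e_l = 1` after the index `i`:
monotone, so by TXM it is `TX (fun ν => η (twR f γ (Rec.res e ν))) K ![1, sc (uK k u)]`, and
`twR f γ (Rec.res e ν) = twX φ X ν` for `X_l = (γ_l, e_l)`, which are the simplices of `k2 m (single Z 1)`. -/
def S_SLA : Prop := ∀ (k : Type) [Field k] [CharZero k] (G : Type) [Group G] (N : ℕ) [NeZero N]
    (m K : ℕ) (φ : Cyc N →* G) (u : (MonoidAlgebra ℤ (Cyc N))ˣ)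
    (w : (Fin (m + 1) → Cen (φ (gen N))) →₀ ℚ)
    (η : Rec (G × Multiplicative ℤ) (Fin (m + 3)) → ℚ),
    TS k η K (E1 m φ u w) = TX (SL φ η (k2 m w)) K ![1, sc (uK k u)]

/-- KBD (USES: nothing; FJA: PRI, BD): boundaries.

Proof.  (a) Linearity; for `κ = single X 1` both sides are `∑ i, (-1)^i η (twX φ (X ∘ i.succAbove) ν)`, because
`Rec.res i.succAbove (twX φ X ν) = twX φ (X ∘ i.succAbove) ν` (by definition).
(b) `k2 m w = P_t (P_u w)`, `P_t = prism id mt`, `P_u = prism (·, 0) (·, 1)`.  `t_PRI`: `∂ P_t x = hmap mt x - x - P_t ∂ x` and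
`∂ P_u w = hmap (·, 1) w - hmap (·, 0) w - P_u ∂ w`.  `Φ (hmap mt x) = Φ x` (`mt` is the left translation by `(1, t)`,
which is central).  `Φ (P_t P_u (∂ w)) = 0`: for `m = 0` `∂ w` is a chain of tuples of length `0`, on which `prism` is `0`;
for `m = m' + 1` `∂ w ∈ hdeg ℚ (Cen h) m'` (definition of `cyc`), and `P_t P_u (hmap (g * ·) c) = hmap (g * ·) (P_t P_u c)`
(`t_BD`, third part, twice), so `Φ P_t P_u` vanishes on the generators of `hdeg`. -/
def S_KBD : Prop :=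
    (∀ (G : Type) [Group G] (N M r : ℕ) (φ : Cyc N →* G) (η : Rec (G × Multiplicative ℤ) (Fin M) → ℚ)
      (κ : (Fin (M + 1) → PZ (φ (gen N)) × Fin r) →₀ ℚ) (ν : Rec (Cyc N) (Fin r)),
      SL φ (cobR η) κ ν = SL φ η (bd ℚ _ M κ) ν) ∧
    ∀ (G : Type) [Group G] (h : G) (m : ℕ) (w : (Fin (m + 1) → Cen h) →₀ ℚ), w ∈ cyc ℚ (Cen h) m →
      ∀ (V : Type) [AddCommGroup V] [Module ℚ V] (Φ : ((Fin (m + 2) → PZ h × Fin 2) →₀ ℚ) →ₗ[ℚ] V),
      (∀ (g : PZ h) (X : Fin (m + 2) → PZ h × Fin 2),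
        Φ (Finsupp.single (fun i => (g * (X i).1, (X i).2)) 1) = Φ (Finsupp.single X 1)) →
      Φ (bd ℚ _ (m + 2) (k2 m w)) = Φ (k1 m 0 w) - Φ (k1 m 1 w)

/-- SLV (USES: nothing; FJA: TXM or TXfac, TXinv, TXsup): functions of one label vanish on the simplex `1, v`.

Proof.  `TX (ψ ∘ Rec.res (fun _ => e)) N X = TX ψ N (fun _ => X e)` (TXM or TXR, P_TXR.lean), `= TX ψ N (fun _ => 1)` (TXinv
for `ψ`, with `g = (X e)⁻¹`), and all the paths have the endpoint `1` (TXsup with `S` the submonoid of the paths with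
`μ.val = 1`). -/
def S_SLV : Prop := ∀ (k : Type) [Field k] [CharZero k] (C : Type) [CommGroup C] (e : Fin 2)
    (ψ : Rec C (Fin 1) → ℚ), CjInv ψ → (∀ μ, μ.val = 1 → ψ μ = 0) → ∀ (N : ℕ)
    (v : (MonoidAlgebra k C)ˣ),
    TX (fun ν => ψ (Rec.res (fun _ => e) ν)) N ![1, sc v] = 0

/-! ## Modules EHI, GHP: the prism functions -/

/-- EHI (USES: nothing; FJA: PRI, MEX, `SCH.closed`): the decomposition of the prism function `SCH.EE`.

Proof.  Let `Λ M` be the linear extension of `c ↦ mex (F · y) c` to formal combinations of tuples of elements of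
`V = Γ →₀ ℚ`, `Λ' x = Λ (hmap (avL f) x)`, `g` the linear extension of `gh f F y`, i.e. `g x = Λ (prism (avL f) id x)`.
(1) For a tuple `x` of length `M + 2` of elements with augmentation `1` (then `avL f` of them too):
`Λ x = Λ' x + g (∂ x)`: by `t_PRI` for `avL f`, `id` and `Λ (∂ P x) = 0` (`SCH.closed`, all the entries of `P x` have
augmentation one; compare `SCH.prism_coc` in P_SCH.lean, in particular `hA`).
(2) `EE F y v = Λ (prism snd fst v)` (a sum of tuples as in (1)) `= Λ' (prism snd fst v) + g (∂ prism snd fst v)`, and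
`∂ prism snd fst v = hmap fst v - hmap snd v - prism snd fst (∂ v)` (`t_PRI`).  `g (prism snd fst (∂ v)) =
∑_i (-1)^i hh f F y (v ∘ i.succAbove)` (definition of `hh`). -/
def S_EHI : Prop := ∀ (Γ C : Type) [Group Γ] [Group C] [Fintype C] (f : C →* Γ)
    (σ : Γ →* Multiplicative ℤ) (M : ℕ) (F : (Fin (M + 2) → Γ) → Γ → ℚ), Coch σ (M + 1) F →
    ∀ (y : Γ) (v : Fin (M + 1) → (Γ →₀ ℚ) × (Γ →₀ ℚ)), (∀ i, aug (v i).1 = 1) →
    (∀ i, aug (v i).2 = 1) →
    SCH.EE F y v =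
      ∑ j : Fin (M + 1), (-1 : ℚ) ^ (j : ℕ) *
        mex (fun a => F a y) (fun l => avL f (mix Prod.snd Prod.fst v j l)) +
      gh f F y (fun i => (v i).1) - gh f F y (fun i => (v i).2) -
      ∑ i : Fin (M + 1), (-1 : ℚ) ^ (i : ℕ) * hh f F y (fun l => v (i.succAbove l))

/-- GHP (USES: nothing; FJA: MEX): properties of `avL`, `gh`, `hh`.  (a), (b): invariance under `γ` which commutes with
the image of `f` (`avL f (c.mapDomain (γ * ·)) = (avL f c).mapDomain (γ * ·)`; MEX (e)).  (c): vanishing.  (d): if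
`aug c = 1` and `c` is supported in `γ * f C = f C * γ` then `avL f c = avL f (single γ 1)`.  (e): `aug`.  (f):
denominators (`card C * b` is a common denominator of the coefficients of `c i` and of `avL f (c i)`; MEX (d)).
(g), (h): linearity in `F` (MEX (c)). -/
def S_GHP : Prop := ∀ (Γ C : Type) [Group Γ] [Group C] [Fintype C] (f : C →* Γ),
    (∀ (M : ℕ) (F : (Fin (M + 1) → Γ) → Γ → ℚ),
      (∀ (γ : Γ) (a : Fin (M + 1) → Γ) (y : Γ), F (fun i => γ * a i) (γ * y * γ⁻¹) = F a y) →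
      ∀ γ : Γ, (∀ t, γ * f t = f t * γ) → ∀ (y : Γ) (c : Fin M → (Γ →₀ ℚ)),
      gh f F (γ * y * γ⁻¹) (fun i => (c i).mapDomain (γ * ·)) = gh f F y c) ∧
    (∀ (M : ℕ) (F : (Fin (M + 2) → Γ) → Γ → ℚ),
      (∀ (γ : Γ) (a : Fin (M + 2) → Γ) (y : Γ), F (fun i => γ * a i) (γ * y * γ⁻¹) = F a y) →
      ∀ γ : Γ, (∀ t, γ * f t = f t * γ) → ∀ (y : Γ) (v : Fin M → (Γ →₀ ℚ) × (Γ →₀ ℚ)),
      hh f F (γ * y * γ⁻¹) (fun i => ((v i).1.mapDomain (γ * ·), (v i).2.mapDomain (γ * ·))) =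
        hh f F y v) ∧
    (∀ (M : ℕ) (F : (Fin (M + 2) → Γ) → Γ → ℚ) (y : Γ), (∀ a, F a y = 0) →
      (∀ c, gh f F y c = 0) ∧ ∀ v, hh f F y v = 0) ∧
    (∀ (γ : Γ), (∀ t, γ * f t = f t * γ) → ∀ c : Γ →₀ ℚ, aug c = 1 →
      (∀ x ∈ c.support, ∃ t : C, x = γ * f t) → avL f c = avL f (Finsupp.single γ 1)) ∧
    (∀ c : Γ →₀ ℚ, aug (avL f c) = aug c) ∧
    (∀ (M : ℕ) (F : (Fin (M + 1) → Γ) → Γ → ℚ) (y : Γ) (c : Fin M → (Γ →₀ ℚ)) (D b : ℕ),
      (∀ a, ∃ z : ℤ, (D : ℚ) * F a y = z) → (∀ i x, ∃ z : ℤ, (b : ℚ) * c i x = z) →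
      ∃ z : ℤ, ((D * (Fintype.card C * b) ^ (M + 1) : ℕ) : ℚ) * gh f F y c = z) ∧
    (∀ (M : ℕ) (F F' : (Fin (M + 1) → Γ) → Γ → ℚ) (y : Γ) (c : Fin M → (Γ →₀ ℚ)),
      gh f (fun a y => F a y + F' a y) y c = gh f F y c + gh f F' y c) ∧
    ∀ (M : ℕ) (r : ℚ) (F : (Fin (M + 1) → Γ) → Γ → ℚ) (y : Γ) (c : Fin M → (Γ →₀ ℚ)),
      gh f (fun a y => r * F a y) y c = r * gh f F y c

/-! ## Module SLE: the null function of SCH on the chain `w × [u] × [t]` -/

/-- SLE (USES SLA, KBD, SLV, EHI, GHP): the null function `SCH.eta F s` on the chain `E1`.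

Proof.  By SLA both sides are values at `![1, sc (uK k u)]`; let `X : Fin (m + 3) → PZ × Fin 2`, `ν : Rec C (Fin 2)` with
nonempty lists (TXlen, `0 < K`), `μ = twX φ X ν`, `y = μ.val = f (ν.val)` (of finite order), `γ_l = emb (X l).1`, which
commutes with the image of `f`.  The list `μ.lst l` is `γ_l * f (x)`, `x ∈ ν.lst (X l).2`.  Let `v = SCH.vv s μ`,
`v_l = (s (μ.lst l) y, single (first position) 1)`: both have augmentation one (`Sec.aug`) and are supported in `γ_l * f C`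
(`Sec.supp`, `y ∈ f C` commutes with `γ_l`).  EHI gives
`eta F s μ = A(μ) + ghR f F s μ - ghR f F hdS μ - cobR (hhR f F s) μ`.
* `A(μ) = ∑_j (-1)^j mex (F · y) (avL f (mix v_j))` and `avL f (v_l) = avL f (single γ_l 1)` for both components (GHP (d)):
  it only depends on `X` and `y`.  So `SL φ A (k2 m w) ν = ψ (Rec.res (fun _ => 0) ν)` for a function
  `ψ : Rec C (Fin 1) → ℚ` which only depends on the endpoint and vanishes at endpoint `1` (`F a 1 = 0`): SLV.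
* `SL φ (cobR (hhR ..)) (k2 m w) = SL φ (hhR ..) (bd (k2 m w))` (KBD (a)).  The linear functional
  `Φ κ = TX (SL φ (hhR f F s) κ) K ![1, sc (uK k u)]` is invariant under left translation by `g ∈ PZ` (GHP (b) with
  `γ = emb g`, `Sec.inv`), so by KBD (b) `Φ (bd (k2 m w)) = Φ (k1 m 0 w) - Φ (k1 m 1 w)`, and all the labels of the
  simplices of `k1 m e w` are `e`: `SL φ (hhR ..) (k1 m e w) ν = ψ_e (Rec.res (fun _ => e) ν)`, `ψ_e` invariant under
  conjugation (GHP (b) with `γ = f c`, `c ∈ C`, `C` is commutative, `f c` commutes with the `γ_l`) and zero at endpoint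
  `1` (GHP (c)): SLV. -/
def S_SLE : Prop := ∀ (k : Type) [Field k] [CharZero k] (G : Type) [Group G] (N : ℕ) [NeZero N]
    (m K : ℕ) (φ : Cyc N →* G) (u : (MonoidAlgebra ℤ (Cyc N))ˣ)
    (w : (Fin (m + 1) → Cen (φ (gen N))) →₀ ℚ), w ∈ cyc ℚ (Cen (φ (gen N))) m →
    ∀ F : (Fin (m + 4) → G × Multiplicative ℤ) → G × Multiplicative ℤ → ℚ, Coch (sg2 G) (m + 3) F →
    (∀ a, F a 1 = 0) →
    ∀ s : List (G × Multiplicative ℤ) → G × Multiplicative ℤ → (G × Multiplicative ℤ →₀ ℚ),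
    Sec s → 0 < K →
    TS k (SCH.eta F s) K (E1 m φ u w) =
      TS k (ghR (ffC φ) F s) K (E1 m φ u w) - TS k (ghR (ffC φ) F hdS) K (E1 m φ u w)

/-! ## Modules LSF, SCE, LVE: the level equation -/

/-- LSF (USES: nothing; FJA: TXfst, TXlen): (a) the functional of `ghR f F hdS` does not depend on the level (TXfst: it
only depends on the first positions and on the endpoint); (b) `ghR` on powers: the lists of `μ ^ e` are
`powL e (μ.lst i) μ.val` (P_EVS.lean), its endpoint is `μ.val ^ e`. -/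
def S_LSF : Prop :=
    (∀ (k : Type) [Field k] [CharZero k] (Γ C : Type) [Group Γ] [Group C] [Fintype C] (f : C →* Γ)
      (ι : Type) [Fintype ι] [DecidableEq ι] (M K : ℕ) (F : (Fin (M + 1) → Γ) → Γ → ℚ)
      (X : Fin M → (Matrix ι ι (MonoidAlgebra k Γ))ˣ), 0 < K →
      TX (ghR f F hdS) K X = TX (ghR f F hdS) 1 X) ∧
    ∀ (Γ C : Type) [Group Γ] [Group C] [Fintype C] (f : C →* Γ) (M : ℕ)
      (F : (Fin (M + 1) → Γ) → Γ → ℚ) (s : List Γ → Γ → (Γ →₀ ℚ)) (e : ℕ), 0 < e →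
      ∀ μ : Rec Γ (Fin M), ghR f F s (μ ^ e) =
        ghR f (powF e F) (fun Y y => s (powL e Y y) (y ^ e)) μ

/-- SCE (USES: nothing; FJA: `t_SCH`, EVS, TXfst): SCH for chains, with the concrete null function.  The proof of
`t_SCH` (P_SCH.lean) shows that `SCH.eta F s` is a null function and has the property in SCH; `BND.TK_bdK`,
`PDK.TK_apply`, compare `PDG.TK_cobR` in P_PDG.lean; the last claim is TXfst with EVS (f). -/
def S_SCE : Prop := ∀ (Γ : Type) [Group Γ] (σ : Γ →* Multiplicative ℤ) (M : ℕ)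
    (F : (Fin (M + 1) → Γ) → Γ → ℚ) (s : List Γ → Γ → (Γ →₀ ℚ)), Coch σ M F → Sec s →
    NullFun σ (SCH.eta F s) ∧
    ∀ (k : Type) [Field k] [CharZero k] (K : ℕ), 0 < K → ∀ B : KCh k Γ (M + 1),
      TK k (evs F s) K B = TK k (fst F) K B + TK k (SCH.eta F s) K (bdK k Γ M B) ∧
      TK k (fst F) K B = TK k (fst F) 1 B

/-- The right side of the level equation. -/
def UE (k : Type) [Field k] [CharZero k] {G : Type} [Group G] {m : ℕ}
    (F : (Fin (m + 4) → G × Multiplicative ℤ) → G × Multiplicative ℤ → ℚ)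
    (s : List (G × Multiplicative ℤ) → G × Multiplicative ℤ → (G × Multiplicative ℤ →₀ ℚ)) (K : ℕ)
    (B : KCh k (G × Multiplicative ℤ) (m + 4)) (D : Sy1 m G →₀ ℚ) : k :=
  TK k (evs F s) K B - ∑ x ∈ D.support, ((D x : ℚ) : k) * TS k (ghR (ffC x.φ) F s) K x.chn

/-- LVE (USES SLE, LSF, SCE): the level equation.

Proof.  `cup F` is a `Coch (sg2 G) (m + 3)` (`t_CUP`), `cup F a 1 = 0`.  SCE: `TK (fst (cup F)) 1 B =
TK (evs (cup F) s) K B - TK (eta) K (bdK B)`, `eta = SCH.eta (cup F) s` a null function, so the last term is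
`TS eta K (chn1 m G D) = ∑ D x * TS eta K x.chn` (`chn1` is the linear combination of the `x.chn = E1 m x.φ x.u x.w`,
`x.w ∈ cyc` by `psi_ch_mem`-type lemmas: for `m = 0` `cyc` is `⊤`, for `m = m' + 1` it is `psi_ch_mem`), and SLE, LSF (a)
(`TS` is a sum of multiples of values of `TX`; `T1 k x F = TS k (ghR (ffC x.φ) (cup F) hdS) 1 x.chn`). -/
def S_LVE : Prop := ∀ (k : Type) [Field k] [CharZero k] (G : Type) [Group G] (m : ℕ) (S : G → Prop)
    (F : (Fin (m + 3) → G) → G → ℚ), (∀ y, S y → IsOfFinOrder y) → GCoch (m + 2) S F →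
    (∀ a, F a 1 = 0) →
    ∀ (B : KCh k (G × Multiplicative ℤ) (m + 4)) (D : Sy1 m G →₀ ℚ),
    (∀ η : Rec (G × Multiplicative ℤ) (Fin (m + 3)) → ℚ, NullFun (sg2 G) η → ∀ N : ℕ, 0 < N →
      TK k η N (bdK _ _ (m + 3) B) = TS k η N (chn1 m G D)) →
    ∀ s : List (G × Multiplicative ℤ) → G × Multiplicative ℤ → (G × Multiplicative ℤ →₀ ℚ),
    Sec s → ∀ K : ℕ, 0 < K →
    TK k (fst (cup F)) 1 B - T1S k F D = UE k (cup F) s K B D

/-! ## Modules GSE, GHT, GHD, PTC, EGH, EGL: the Gauss congruence for the chains of symbols -/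

/-- GSE (USES SLA; FJA: GAS, `Step7.step`, GAUint): the Gauss congruence on the chain `E1`.

Proof.  Let `W > 0` be a common denominator of the coefficients of `k2 m w`.  By SLA the difference is
`TX ψ (ℓ^(k+1)) X - TX (ψ (·^ℓ)) (ℓ^k) X` for `ψ = SL φ η (k2 m w) : Rec C (Fin 2) → ℚ`, `X = ![1, sc (uK ℚ_ℓ u)]`
(`twX φ x (ν ^ ℓ) = (twX φ x ν) ^ ℓ`: `twX φ x` is multiplicative because the vertices commute with the image of `f`).
`D W ψ` is a trace function on `Bal C (Fin 2)` with integral values there: `Step7.step` (Step7.lean) with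
`S = Bal C (Fin 2)` (its hypothesis `S_SUP` is `t_SUP`; the support of `UX X` is in `Bal`; `X` is integral: `NIU`). -/
def S_GSE : Prop := ∀ (ℓ : ℕ) [Fact ℓ.Prime] (G : Type) [Group G] (N : ℕ) [NeZero N] (m : ℕ)
    (φ : Cyc N →* G) (u : (MonoidAlgebra ℤ (Cyc N))ˣ) (w : (Fin (m + 1) → Cen (φ (gen N))) →₀ ℚ),
    ∃ W : ℕ, 0 < W ∧ ∀ (D : ℕ) (η : Rec (G × Multiplicative ℤ) (Fin (m + 3)) → ℚ), 0 < D →
      (∀ (X : Fin (m + 3) → PZ (φ (gen N)) × Fin 2), ∀ μ ∈ Bal (Cyc N) (Fin 2),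
        ∀ ν ∈ Bal (Cyc N) (Fin 2), η (twX φ X (μ * ν)) = η (twX φ X (ν * μ))) →
      (∀ (X : Fin (m + 3) → PZ (φ (gen N)) × Fin 2), ∀ μ ∈ Bal (Cyc N) (Fin 2),
        ∃ z : ℤ, (D : ℚ) * η (twX φ X μ) = z) →
      ∀ k : ℕ, ‖((W * D : ℕ) : ℚ_[ℓ]) * (TS ℚ_[ℓ] η (ℓ ^ (k + 1)) (E1 m φ u w) -
        TS ℚ_[ℓ] (fun μ => η (μ ^ ℓ)) (ℓ ^ k) (E1 m φ u w))‖ ≤ (ℓ : ℝ) ^ (-(k + 1 : ℤ))

/-- GHT (USES GHP): the trace property of `ghR`.

Proof.  `twX φ X` is multiplicative, let `a = twX φ X μ`, `b = twX φ X ν`.  Compare the proof of EVS (a) in P_EVS.lean: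
conjugating `b * a` with `a.val = f (μ.val)`, which commutes with the image of `f` (`Cyc N` is commutative), it becomes
the path with the lists `a.val Y' ++ y Y` and the endpoint `y = (a * b).val`, where `a * b` has the lists
`Y ++ a.val Y'`; rotate letter by letter (`RotS`).  GHP (a), `Sec.inv`; `y` has finite order. -/
def S_GHT : Prop := ∀ (G : Type) [Group G] (N : ℕ) [NeZero N] (φ : Cyc N →* G) (M r : ℕ)
    (F : (Fin (M + 1) → G × Multiplicative ℤ) → G × Multiplicative ℤ → ℚ),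
    (∀ (γ : G × Multiplicative ℤ) (a : Fin (M + 1) → G × Multiplicative ℤ)
      (y : G × Multiplicative ℤ), F (fun i => γ * a i) (γ * y * γ⁻¹) = F a y) →
    ∀ s : List (G × Multiplicative ℤ) → G × Multiplicative ℤ → (G × Multiplicative ℤ →₀ ℚ),
    Sec s → RotS s →
    ∀ (X : Fin M → PZ (φ (gen N)) × Fin r) (μ ν : Rec (Cyc N) (Fin r)),
      twX φ X (μ * ν) = twX φ X μ * twX φ X ν ∧
      ghR (ffC φ) F s (twX φ X (μ * ν)) = ghR (ffC φ) F s (twX φ X (ν * μ))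

/-- PTC (USES: nothing): the number of points of a list in `γ * f C` divides `N`.

Proof.  `y = f c`, `Y' = γ f (Y)`; `δ = dl Y' y`, `(Pt Y' y).card = orderOf δ` (`Pnt.card`).  `Pnt.stb`:
`((rotL y)^[e] Y').map (δ * ·) = Y'`; all the elements of `(rotL y)^[e] Y'` are in `γ f C` (`y γ f(x) = γ f (c x)`), so
`δ γ f(x') = γ f(x)` for some `x, x' ∈ C`, `δ = γ f (x x'⁻¹) γ⁻¹ = f (x x'⁻¹)` (`γ` commutes with `f C`), `δ ^ N = 1`
(`C = Cyc N` has `N` elements). -/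
def S_PTC : Prop := ∀ (G : Type) [Group G] (N : ℕ) [NeZero N] (φ : Cyc N →* G)
    (Pt : List (G × Multiplicative ℤ) → G × Multiplicative ℤ → Finset (G × Multiplicative ℤ))
    (dl : List (G × Multiplicative ℤ) → G × Multiplicative ℤ → G × Multiplicative ℤ), Pnt Pt dl →
    ∀ (M r : ℕ) (X : Fin M → PZ (φ (gen N)) × Fin r) (ν : Rec (Cyc N) (Fin r)) (l : Fin M),
      (twX φ X ν).lst l ≠ [] →
      IsOfFinOrder (twX φ X ν).val ∧ (Pt ((twX φ X ν).lst l) (twX φ X ν).val).card ∣ N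

/-- EGH (USES GSE, GHT, PTC, GHP): the Gauss congruence for the functions `ghR`.

Proof.  For every `x ∈ D.support` GSE for `x.φ`, `x.u`, `x.w` and `η = ghR (ffC x.φ) F (avS Pt)`: trace property GHT
(`t_AVS`: `Sec`, `RotS`); denominators: by PTC `N * avS Pt Y y z` is an integer for `Y = (twX φ X μ).lst l ≠ []`, so GHP (f)
with `b = N` and the denominator of `F` (`Coch.den`); if some list is empty then `ghR` is `0`.  Multiply the constants
(and the denominators of the `D x`) together. -/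
def S_EGH : Prop := ∀ (ℓ : ℕ) [Fact ℓ.Prime] (G : Type) [Group G] (m : ℕ)
    (F : (Fin (m + 4) → G × Multiplicative ℤ) → G × Multiplicative ℤ → ℚ), Coch (sg2 G) (m + 3) F →
    ∀ (Pt : List (G × Multiplicative ℤ) → G × Multiplicative ℤ → Finset (G × Multiplicative ℤ))
      (dl : List (G × Multiplicative ℤ) → G × Multiplicative ℤ → G × Multiplicative ℤ), Pnt Pt dl →
    ∀ D : Sy1 m G →₀ ℚ, ∃ W : ℕ, 0 < W ∧ ∀ k : ℕ,
    ‖(W : ℚ_[ℓ]) * (∑ x ∈ D.support, ((D x : ℚ) : ℚ_[ℓ]) *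
        TS ℚ_[ℓ] (ghR (ffC x.φ) F (avS Pt)) (ℓ ^ (k + 1)) x.chn -
      ∑ x ∈ D.support, ((D x : ℚ) : ℚ_[ℓ]) *
        TS ℚ_[ℓ] (fun μ => ghR (ffC x.φ) F (avS Pt) (μ ^ ℓ)) (ℓ ^ k) x.chn)‖ ≤
      (ℓ : ℝ) ^ (-(k + 1 : ℤ))

/-- EGL (USES GSE, GHT, PTC): the Gauss congruence for the null functions of CULPd, with a constant `W` which does not
depend on the null function.

Proof.  `TS L K (chn1 m G D) = ∑ D x * TS L K x.chn`.  For every `x ∈ D.support` GSE for `η = L`: `twX φ X` is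
multiplicative (GHT, first part) and maps `Bal` to `Bal` (all the lists of `μ ∈ Bal` have the same length, so also
those of `twX φ X μ`), and for `μ ∈ Bal` the hypothesis on `L` with `q = x.N` (PTC) says that `A * x.N ^ (m + 2) * L (twX ..)`
is an integer: GSE with the denominator `A * x.N ^ (m + 2)`.  `W` = the product over `x` of the `W_x * x.N ^ (m + 2)` times
the denominators of the `D x`. -/
def S_EGL : Prop := ∀ (ℓ : ℕ) [Fact ℓ.Prime] (G : Type) [Group G] (m : ℕ)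
    (Pt : List (G × Multiplicative ℤ) → G × Multiplicative ℤ → Finset (G × Multiplicative ℤ))
    (dl : List (G × Multiplicative ℤ) → G × Multiplicative ℤ → G × Multiplicative ℤ), Pnt Pt dl →
    ∀ D : Sy1 m G →₀ ℚ, ∃ W : ℕ, 0 < W ∧
      ∀ (A : ℕ) (L : Rec (G × Multiplicative ℤ) (Fin (m + 3)) → ℚ), 0 < A →
      (∀ μ ∈ Bal (G × Multiplicative ℤ) (Fin (m + 3)),
        ∀ ν ∈ Bal (G × Multiplicative ℤ) (Fin (m + 3)), L (μ * ν) = L (ν * μ)) →
      (∀ (q : ℕ) (μ : Rec (G × Multiplicative ℤ) (Fin (m + 3))), 0 < q →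
        ((∀ i, μ.lst i ≠ []) → IsOfFinOrder μ.val → ∀ i, (Pt (μ.lst i) μ.val).card ∣ q) →
        ∃ z : ℤ, ((A * q ^ (m + 2) : ℕ) : ℚ) * L μ = z) →
      ∀ k : ℕ, ‖((W * A : ℕ) : ℚ_[ℓ]) * (TS ℚ_[ℓ] L (ℓ ^ (k + 1)) (chn1 m G D) -
        TS ℚ_[ℓ] (fun μ => L (μ ^ ℓ)) (ℓ ^ k) (chn1 m G D))‖ ≤ (ℓ : ℝ) ^ (-(k + 1 : ℤ))

/-! ## Modules DNE, DNF, CUE: reduction of denominators with a bound for the denominators of the cochain -/

/-- DNE (USES: nothing): copy of P_DNB.lean (`t_DNB : S_DNB`) with the additional property of `DNPd`.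

Proof of the additional property (notation of the doc string of `S_DNB` in FJA/St8.lean): if `L Y y ≠ 0` then all
the lists are nonempty, `y` has finite order and `Good mm (Y i) y`, so `mm / |Pt Y0|` is an integer, `D * c01 (Y0 | b0, b1)`
and `D * c10 (Y0, Y1 | b)` are integers, and the averages over `Pt Y1`, `Pt Y0` have the denominator `q` each: so
`D * mm * q^2 * L` is an integer. -/
def S_DNE : Prop := DNPd 2

/-- DNF (USES: nothing): copy of P_DNC.lean (`t_DNC : S_CY3 → S_DNC`, `t_CY3`) with the additional property of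
`DNPd`.

Proof of the additional property (notation of the doc string of `S_DNC` in FJA/St8.lean): `D * q^3 * c2 (Y0 | A0, A1, A2)`,
`D * q^2 * c11 (Y0, Y1 | A1, A2)` and `D * q * c20 (Y0, Y1, Y2 | A2)` are integers for good vertices. -/
def S_DNF : Prop := DNPd 3

/-- CUE (USES: nothing): copy of P_CUL.lean (`t_CUL : S_CUL`) with the additional property: `L μ` is `L'` times an
integer, where `L'` is the cochain of `DNPd`. -/
def S_CUE : Prop := ∀ m : ℕ, 1 ≤ m → DNPd m → CULPd m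

/-! ## Modules PDL, PDN: the `ℓ`-adic theorem -/

/-- PDL (USES LVE, LSF, EGH, EGL): the `ℓ`-adic theorem in low degrees.

Proof: adapt `PDG.one` and `t_PDG` (P_PDG.lean), with `n = m + 1`.  Induction on `e` as there (`F (·; 1^e) = 0`).  One
step: `A = TK (fst (cup F)) 1 B - T1S F D`, `A'` the same for `powF ℓ F` (`powF ℓ (cup F) = cup (powF ℓ F)`, `PDG.powF_cup`).
With `s = avS Pt`, `s' Y y = s (powL ℓ Y y) (y ^ ℓ)` (a `Sec`, EVS (e)): by LVE `A = UE (cup F) s K B D` and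
`A' = UE (cup (powF ℓ F)) s' K B D` for all `K > 0`, and `evs (cup F) s (μ^ℓ) = evs (powF ℓ (cup F)) s' μ` (EVS (d)),
`ghR f (cup F) s (μ^ℓ) = ghR f (powF ℓ (cup F)) s' μ` (LSF (b)).  So with `K = ℓ^(k0+1)`, resp. `ℓ^k0`:
`A - A' = [TK (evs ..) (ℓ^(k0+1)) B - TK (evs .. (·^ℓ)) (ℓ^k0) B] - [the difference of EGH]`.
The first bracket: with `L` from `CULPd (m + 2)` for `mm = n0 * ℓ^(k0+1-i0)`, `φ = D' mm (evs - cobR L)` as in
`PDG.one`, `TK φ (ℓ^(k0+1)) B - TK (φ(·^ℓ)) (ℓ^k0) B` has norm `≤ C ℓ^(-(k0+1))` (`Step7.step`), and it is `D' mm` times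
(the first bracket `-` `(TK L (ℓ^(k0+1)) (bdK B) - TK (L(·^ℓ)) (ℓ^k0) (bdK B))`); as `L` and `L(·^ℓ)` are null functions
(`PDG.null_pow`), the last difference is `TS L (ℓ^(k0+1)) (chn1 D) - TS (L(·^ℓ)) (ℓ^k0) (chn1 D)`, bounded by EGL with
`A = D' mm`.  Altogether `‖W W' D' n0 ℓ^(k0+1-i0) (A - A')‖ ≤ C' ℓ^(-(k0+1))` with constants independent of `i0`. -/
def S_PDL : Prop := ∀ m : ℕ, CULPd (m + 2) → ∀ (G : Type) [Group G], PdgE G m

/-- PDN (USES LVE, LSF, EGH; FJA: GAQ, EVQ): the `ℓ`-adic theorem in all degrees if the `p`-torsion is bounded for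
every prime `p`.  Proof: adapt `PDQ.one` and `t_PDQ` (P_PDQ.lean) as described in PDL; there is no `L`: the first bracket
is bounded by GAQ and EVQ, the second one by EGH. -/
def S_PDN : Prop := ∀ (G : Type) [Group G], (∀ p : ℕ, p.Prime → TorP G p) → ∀ m : ℕ, PdgE G m

/-! ## Modules T1C, RPE, RGE, RLE: the relation theorem -/

/-- T1C (USES SLA, GHP): properties of the correction term.

Proof.  `T1 k s F = TS k (ghR (ffC s.φ) (cup F) hdS) 1 s.chn = TX (SL s.φ (ghR ..) (k2 m s.w)) 1 ![1, sc (uK k s.u)]` (SLA).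
(a), (b): GHP (g), (h), `cup (F + F') = cup F + cup F'`, TXlin.  (c): the endpoint of `twX φ X ν` is `(φ ν.val, 1)`, so
`ghR ..` of it only depends on the values `F a (φ c)`, `c ∈ C`.  (d): TXmap for `ℚ → ℚ_p` (`uK ℚ_p u` is the image of
`uK ℚ u`). -/
def S_T1C : Prop := ∀ (m : ℕ) (G : Type) [Group G] (D : Sy1 m G →₀ ℚ),
    (∀ (k : Type) [Field k] [CharZero k],
      (∀ F F' : (Fin (m + 3) → G) → G → ℚ,
        T1S k (fun a y => F a y + F' a y) D = T1S k F D + T1S k F' D) ∧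
      (∀ (r : ℚ) (F : (Fin (m + 3) → G) → G → ℚ),
        T1S k (fun a y => r * F a y) D = (r : k) * T1S k F D) ∧
      ∀ F F' : (Fin (m + 3) → G) → G → ℚ,
        (∀ s ∈ D.support, ∀ (c : Cyc s.N) (a : Fin (m + 3) → G), F a (s.φ c) = F' a (s.φ c)) →
        T1S k F D = T1S k F' D) ∧
    ∀ (p : ℕ) [Fact p.Prime] (F : (Fin (m + 3) → G) → G → ℚ),
      ((T1S ℚ F D : ℚ) : ℚ_[p]) = T1S ℚ_[p] F D

/-- RPE (USES T1C; FJA: REB, NIB, SUP): RPB (P_RPB.lean) with the correction term.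

Proof: as P_RPB.lean.  `F a 1 = 0` as `n0 ≠ 1`.  `PdgE` for `B = BT ..` (`t_REB` with `E = chn1 m G D1`, NIB) gives for
all `E`: `TK (fst (cup F)) 1 B - T1S F D1 = TK (fst (powF (p^E) (cup F))) 1 B - T1S (powF (p^E) F) D1`.  For `E` large the
first term on the right is `0` as in P_RPB.lean, and `T1S (powF (p^E) F) D1 = T1S 0 D1 = 0` by T1C (c), (b): if
`F a ((s.φ c)^(p^E)) ≠ 0` then `(s.φ c)^(p^E)` has order `n0`, divisible by `p`, so `p^(E+1)` divides the order of `s.φ c`,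
which divides `s.N`; impossible if `s.N < p^E` for all `s ∈ D1.support`. -/
def S_RPE : Prop := ∀ (G : Type) [Group G] (m n0 : ℕ), 1 < n0 → PdgE G m →
    ∀ (p : ℕ) [Fact p.Prime], p ∣ n0 → ∀ (D : Dat G (m + 1)) (D1 : Sy1 m G →₀ ℚ)
      (e : ∀ j, IdemMat (LaurentPolynomial (MonoidAlgebra ℤ (Cyc (D.N j)))))
      (d : ∀ j, Fin (e j).n → Bool)
      (T : ∀ j, (Matrix (Fin (e j).n) (Fin (e j).n)
        (MonoidAlgebra ℚ_[p] (Cyc (D.N j) × Multiplicative ℤ)))ˣ),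
    (∀ j, Trv ℚ_[p] (e j) (d j) (T j)) → (∀ j, NIU (T j)) →
    ∀ (b : SCh (LaurentPolynomial (MonoidAlgebra ℤ G)) (m + 4))
      (κ : SCh (LaurentPolynomial (MonoidAlgebra ℤ G)) (m + 3)),
    κ ∈ Kil (MonoidAlgebra ℤ G) (m + 3) →
    D.ch e + chn1 m G D1 = bdS (LaurentPolynomial (MonoidAlgebra ℤ G)) (m + 3) b + κ →
    ∀ F : (Fin (m + 3) → G) → G → ℚ, GCoch (m + 2) (fun y => orderOf y = n0) F →
    TK ℚ_[p] (fst (cup F)) 1 (BT ℚ_[p] D e b T) = T1S ℚ_[p] F D1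

/-- RGE (USES T1C; FJA: REB, NIB, MPB, INT, SUP): RGB (P_RGB.lean) with the correction term.

Proof: as P_RGB.lean, with `t_REB` (`E = chn1 m G D1`) instead of REA and `PdgE` with `e = 1`; the prime `ℓ` is also larger
than all `s.N`, `s ∈ D1.support`.  `T1S ℚ_ℓ F D1` is the image of `T1S ℚ F D1` (T1C (d)), and
`T1S (powF ℓ F) D1 = T1S (twF n0 a F) D1` by T1C (c): for `y = s.φ c` (of order dividing `s.N`, so prime to `ℓ`) `y^ℓ` has the
same order as `y`, and if this order is `n0` then `y^ℓ = y^a` (`ℓ ≡ a` modulo `n0`), otherwise both values are `0`. -/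
def S_RGE : Prop := ∀ (G : Type) [Group G] (m n0 : ℕ), 1 < n0 → PdgE G m →
    ∀ (a : ℕ), a.Coprime n0 → ∀ (D : Dat G (m + 1)) (D1 : Sy1 m G →₀ ℚ)
      (e : ∀ j, IdemMat (LaurentPolynomial (MonoidAlgebra ℤ (Cyc (D.N j)))))
      (d : ∀ j, Fin (e j).n → Bool)
      (X : ∀ j, (Matrix (Fin (e j).n) (Fin (e j).n)
        (MonoidAlgebra ℚ (Cyc (D.N j) × Multiplicative ℤ)))ˣ),
    (∀ j, Trv ℚ (e j) (d j) (X j)) →
    ∀ (b : SCh (LaurentPolynomial (MonoidAlgebra ℤ G)) (m + 4))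
      (κ : SCh (LaurentPolynomial (MonoidAlgebra ℤ G)) (m + 3)),
    κ ∈ Kil (MonoidAlgebra ℤ G) (m + 3) →
    D.ch e + chn1 m G D1 = bdS (LaurentPolynomial (MonoidAlgebra ℤ G)) (m + 3) b + κ →
    ∀ F : (Fin (m + 3) → G) → G → ℚ, GCoch (m + 2) (fun y => orderOf y = n0) F →
    TK ℚ (fst (cup (twF n0 a F))) 1 (BT ℚ D e b X) - T1S ℚ (twF n0 a F) D1 =
      TK ℚ (fst (cup F)) 1 (BT ℚ D e b X) - T1S ℚ F D1

/-- RLE (USES RPE, RGE, T1C; FJA: RLD, MPB): REL3 with `PdgE` and the chain of `D1`.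

Proof: for `n0 = 1` take `Q = 0` (`loc` is void, no prime divides `1`).  For `n0 > 1`: as `t_RLB` (P_RLB.lean) and `t_REL3`
(P_REL.lean), with `Q F = (-1)^(m + 2) * (TK ℚ (fst (cup F)) 1 (BT ℚ D e b X) - T1S ℚ F D1)`: `add`, `smul` by T1C (a), (b);
`loc`: over `ℚ_p`, `TK (BT mapU X) - TK (BT Y)` is given by RLD, `TK (BT Y) = T1S ℚ_p F D1` by RPE, and `T1S ℚ F D1` is
mapped to it (T1C (d)); `gal`: RGE. -/
def S_RLE : Prop := ∀ (G : Type) [Group G] (m n0 : ℕ), 0 < n0 → PdgE G m →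
    ∀ (D : Dat G (m + 1)) (D1 : Sy1 m G →₀ ℚ)
      (e : ∀ j, IdemMat (LaurentPolynomial (MonoidAlgebra ℤ (Cyc (D.N j)))))
      (v : ∀ (j : D.J) (p : ℕ), [Fact p.Prime] → Cyc (D.N j) → ℚ_[p]),
    (∀ j, LocE (e j) (fun p _ => v j p)) →
    D.ch e + chn1 m G D1 ∈ LinearMap.range (bdS (LaurentPolynomial (MonoidAlgebra ℤ G)) (m + 3)) ⊔
      Kil (MonoidAlgebra ℤ G) (m + 3) →
    ∃ Q : ((Fin (m + 3) → G) → G → ℚ) → ℚ, QF D v n0 Q

/-! ## Modules BRE, T0F, T0E, VSU, ADE: from the relation to the functionals -/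

/-- BRE (USES: nothing; FJA: CRS, BRF): BRG with the further term `A1 (val1 m G D)`.  Proof: combine P_BRG.lean
(`n = m + 1`) and P_BRF.lean (the part `h4` there). -/
def S_BRE : Prop :=
    ∀ (ε0 : ∀ N : ℕ, ℕ → IdemMat (LaurentPolynomial (MonoidAlgebra ℤ (Cyc N)))) (G : Type) [Group G]
      (m : ℕ) (A1 : Src1 m G →ₗ[ℚ] KB (m + 1) (MonoidAlgebra ℤ G)), IsA1 A1 →
      ∀ (J : Type) (s : Finset J) (q : J → ℚ) (N p : J → ℕ) (φ : ∀ j, Cyc (N j) →* G)
      (hN : ∀ j, 0 < N j) (hp : ∀ j, (p j).Prime) (hd : ∀ j, p j ∣ N j)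
      (hφ : ∀ j, Function.Injective (φ j)) (z : ∀ j, ZC ℚ (m + 1 + 1) (Cen (φ j (gen (N j)))))
      (x : ZC ℚ (m + 1 + 1) (G × Multiplicative ℤ)) (D : Sy1 m G →₀ ℚ),
    tau (m + 1) G (cl ℚ (m + 1 + 1) _ x) +
      ∑ j ∈ s, q j • KB.mk (m + 1) (MonoidAlgebra ℤ G) (ε0 (N j) (p j)).n
        (HQ.map (m + 1 + 1) (rhoC (ε0 (N j) (p j)) (φ j)) (cl ℚ (m + 1 + 1) _ (z j))) +
      A1 (val1 m G D) = 0 →
    kinS (LaurentPolynomial (MonoidAlgebra ℤ G)) (m + 3) 1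
        (hmap ℚ (gl1 mon) (m + 3) (psi ℚ (m + 1 + 1) _ (ch ℚ (m + 1 + 1) _ x))) +
      (mkDat J s q N p φ hN hp hd hφ z).ch (fun j => ε0 (N j) (p j)) + chn1 m G D ∈
      LinearMap.range (bdS (LaurentPolynomial (MonoidAlgebra ℤ G)) (m + 3)) ⊔
        Kil (MonoidAlgebra ℤ G) (m + 3)

/-- T0F (USES SLA; FJA: TPR, PRI, BD): the functional of `K_0` on the chain `E1`.

Proof.  By SLA the value is `TX (SL φ η (k2 m w)) 1 ![1, sc (uK ℚ u)]`, `η = fst (T0M.Ff F)`.  For `ν` with nonempty lists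
let `a_e` be the first element of `ν.lst e`: `SL φ η (k2 m w) ν` is `0` if `(φ ν.val, 1) ≠ 1`, and otherwise `S (a_0, a_1)`,
`S (a, b) = F (P_t (prism (f_a) (f_b) w))`, where `f_a : Cen h → Γ`, `z ↦ (z * φ a, 1)`, `P_t = prism id (· * (1, t))` and `F` is
extended linearly.  Claim: `S = 0`.
(1) `S (a, b) + S (b, c) = S (a, c)`: with `T` from TPR for `f_a, f_b, f_c` the sum of the three prisms is
`∂ T w - T ∂ w`; `F (P_t ∂ x) = F (hmap (· * t) x) - F x - F (∂ P_t x) = 0` (PRI, `F` is a cocycle and invariant under the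
central element `(1, t)`), and `F (P_t T ∂ w) = 0` because `∂ w` is `0` or in `hdeg` and everything is equivariant under
left translation by `z ∈ Cen h` (see KBD (b)).
(2) `S (c a, c b) = S (a, b)` for `c ∈ C` (`F` is invariant under `(φ c, 1)`, which commutes with `Cen h`).
(3) So `c ↦ S (1, c)` is a homomorphism from the finite group `C` to `ℚ`, hence `0`, and `S (a, b) = S (1, a⁻¹ b) = 0`. -/
def S_T0F : Prop := ∀ (G : Type) [Group G] (N : ℕ) [NeZero N] (m : ℕ) (φ : Cyc N →* G)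
    (u : (MonoidAlgebra ℤ (Cyc N))ˣ) (w : (Fin (m + 1) → Cen (φ (gen N))) →₀ ℚ),
    w ∈ cyc ℚ (Cen (φ (gen N))) m →
    ∀ F : (Fin (m + 3) → G × Multiplicative ℤ) → ℚ,
    (∀ (γ : G × Multiplicative ℤ) (X : Fin (m + 3) → G × Multiplicative ℤ),
      F (fun i => γ * X i) = F X) →
    (∀ X : Fin (m + 4) → G × Multiplicative ℤ,
      ∑ i : Fin (m + 4), (-1 : ℚ) ^ (i : ℕ) * F (fun j => X (i.succAbove j)) = 0) →
    TS ℚ (fst (T0M.Ff F)) 1 (E1 m φ u w) = 0

/-- VSU (USES: nothing; FJA: REP, or `exists_rep1` in Rel1.lean): every element of `Src1 m G` is the value of a formal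
combination of symbols.  Proof: `Src1 m G` is spanned by the `sym1 h c u`; if `¬ Adm1 h u` it is `0`, otherwise REP with
`N = orderOf h` gives `s` with `s.val = sym1 h c u`. -/
def S_VSU : Prop := ∀ (m : ℕ) (G : Type) [Group G] (y : Src1 m G), ∃ D : Sy1 m G →₀ ℚ,
    val1 m G D = y

/-- T0E (USES BRE, T0F, VSU; FJA: KCB, KIL, HTP, FVX, LAU): the part with coefficients `K_0`.  Proof: as `t_T0M` in
P_T0M.lean, with BRE instead of BRG (VSU: `y = val1 m G D`); the additional term `TS ℚ (fst (Ff F)) 1 (chn1 m G D)` is a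
sum of multiples of `TS ℚ (fst (Ff F)) 1 (E1 m s.φ s.u s.w) = 0` (T0F; `s.w ∈ cyc`, see LVE). -/
def S_T0E : Prop :=
    ∀ (ε : ∀ N : ℕ, ℕ → IdemMat (LaurentPolynomial (MonoidAlgebra ℤ (Cyc N))))
      (v : ∀ (N : ℕ) (_ : ℕ) (q : ℕ), [Fact q.Prime] → Cyc N → ℚ_[q]) (K : ℕ → ℕ), NodeD ε v K →
    ∀ (G : Type) [Group G] (m : ℕ) (A1 : Src1 m G →ₗ[ℚ] KB (m + 1) (MonoidAlgebra ℤ G)), IsA1 A1 →
    ∀ (J : Type) (s : Finset J) (q : J → ℚ) (N p : J → ℕ)
      (φ : ∀ j, Cyc (N j) →* G) (c : ∀ j, HQ (m + 1 + 1) (Cen (φ j (gen (N j))))),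
    (∀ j, 0 < N j) → (∀ j, (p j).Prime) → (∀ j, p j ∣ N j) → (∀ j, Function.Injective (φ j)) →
    ∀ (x : ZC ℚ (m + 1 + 1) (G × Multiplicative ℤ)) (y : Src1 m G),
    tau (m + 1) G (cl ℚ (m + 1 + 1) _ x) +
      ∑ j ∈ s, q j • KB.mk (m + 1) (MonoidAlgebra ℤ G) (ε (N j) (p j)).n
        (HQ.map (m + 1 + 1) (rhoC (ε (N j) (p j)) (φ j)) (c j)) + A1 y = 0 →
    ∀ F : (Fin (m + 3) → G × Multiplicative ℤ) → ℚ,
    (∀ (γ : G × Multiplicative ℤ) (X : Fin (m + 3) → G × Multiplicative ℤ),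
      F (fun i => γ * X i) = F X) →
    (∀ X : Fin (m + 4) → G × Multiplicative ℤ,
      ∑ i : Fin (m + 4), (-1 : ℚ) ^ (i : ℕ) * F (fun j => X (i.succAbove j)) = 0) →
    (∀ X : Fin (m + 3) → G × Multiplicative ℤ, (∀ i j, (X i).2 = (X j).2) → F X = 0) →
    pair F (psi ℚ (m + 1 + 1) _ (ch ℚ (m + 1 + 1) _ x)) = 0

/-- ADE (USES BRE, VSU, RLE; FJA: RST, FCH, FNB, FNC): the core theorem.

Proof: as `t_ADB` and `ADB.fin` (P_ADB.lean), with `n = m + 1`, BRE (with `x = 0`, `y = val1 m G D1`) instead of BRG, and RLE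
instead of RLB. -/
def S_ADE : Prop :=
    ∀ (ε : ∀ N : ℕ, ℕ → IdemMat (LaurentPolynomial (MonoidAlgebra ℤ (Cyc N))))
      (v : ∀ (N : ℕ) (_ : ℕ) (q : ℕ), [Fact q.Prime] → Cyc N → ℚ_[q]) (K : ℕ → ℕ), NodeD ε v K →
    ∀ (G : Type) [Group G] (m : ℕ), PdgE G m →
    ∀ (A1 : Src1 m G →ₗ[ℚ] KB (m + 1) (MonoidAlgebra ℤ G)), IsA1 A1 →
    ∀ (L : ∀ (_ : ℕ) (h : G), HQ (m + 1 + 1) (Cen h) →ₗ[ℚ] ℚ), AdmL (m + 1) G L →
    ∀ (J : Type) (s : Finset J) (q : J → ℚ) (N p : J → ℕ) (φ : ∀ j, Cyc (N j) →* G)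
      (c : ∀ j, HQ (m + 1 + 1) (Cen (φ j (gen (N j))))),
    (∀ j, 0 < N j) → (∀ j, (p j).Prime) → (∀ j, p j ∣ N j) → (∀ j, Function.Injective (φ j)) →
    ∀ y : Src1 m G,
    ∑ j ∈ s, q j • KB.mk (m + 1) (MonoidAlgebra ℤ G) (ε (N j) (p j)).n
      (HQ.map (m + 1 + 1) (rhoC (ε (N j) (p j)) (φ j)) (c j)) + A1 y = 0 →
    ∑ j ∈ s, q j * L (p j) (φ j (gen (N j))) (c j) = 0

end Pool.Agent.FJB
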