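import Pool.Agent.FJA.FinE
import Pool.Agent.FJB.St

/-!
# The map `A` and the functionals
-/

set_option autoImplicit false
set_option linter.unusedSectionVars false

open Matrix Pool.Agent.WhK Pool.Agent.Lib25 CategoryTheory Pool.Agent.FJA

noncomputable section

namespace Pool.Agent.FJB

/-- The map `A` and the functionals: if for every admissible family `L` there is a linear functional with the
values of `L` on the raw classes which vanishes on `A x`, then `x` is a combination of symbols with undetected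
classes. -/
theorem t_ALLu (hPRI : S_PRI.{0, 0, 0}) (hBD : S_BD.{0, 0, 0})
    (ε0 : ∀ N : ℕ, ℕ → IdemMat (LaurentPolynomial (MonoidAlgebra ℤ (Cyc N)))) :
    ∃ ε : ∀ N : ℕ, ℕ → IdemMat (LaurentPolynomial (MonoidAlgebra ℤ (Cyc N))),
    ∀ (n : ℕ) (G : Type) [Group G], ∃ A : Src n G →ₗ[ℚ] KB n (MonoidAlgebra ℤ G),
      IsAssembly ε A ∧
      (∀ x : Src n G, A x ∈ Submodule.span ℚ (Set.range (rawV ε0 n G))) ∧
      ∀ x : Src n G, (∀ L : ∀ (_ : ℕ) (h : G), HQ (n + 1) (Cen h) →ₗ[ℚ] ℚ, AdmL n G L →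
          ∃ F : KB n (MonoidAlgebra ℤ G) →ₗ[ℚ] ℚ,
            (∀ j : Ix n G, F (rawV ε0 n G j) = L j.p (j.φ (gen j.N)) j.c) ∧ F (A x) = 0) →
        x ∈ UdSrc n G := by
  classical
  have hex : ∀ N p : ℕ, ∃ e : IdemMat (LaurentPolynomial (MonoidAlgebra ℤ (Cyc N))),
      KNegOne.of e = kapA ε0 N p := fun N p => KNegOne.exists_of _
  choose ε hε using hex
  refine ⟨ε, fun n G _ => ?_⟩
  obtain ⟨A, hA⟩ := exists_A hPRI hBD n (G := G) (kapA ε0)
    (by
      intro N _ p w hw
      rw [kapA_eq]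
      exact H2.T_ak3 (fun u w x => Tw_Tw u w x) p w hw)
    (by
      intro N _
      simp only [kapA_eq]
      exact H2.sum_ak3 (fun u w x => Tw_Tw u w x))
  -- the values of `A` in terms of raw classes
  have hAh : ∀ (p : ℕ) (h : G) (c : HQ (n + 1) (Cen h)), Adm p h → ∀ (N : ℕ) [NeZero N]
      (φ : Cyc N →* G) (_ : φ (gen N) = h)
      (H : ∀ (z : Cen h) c, Commute ((Cen h).subtype z) (φ c)), orderOf h = N →
      A (sym p h c) = prodG hPRI hBD n φ (Cen h).subtype H
        (H2.ak3 (Tw N) (fun q => KNegOne.of (ε0 N q)) p) c := by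
    intro p h c hv N _ φ e H hN
    subst e
    rw [← kapA_eq]
    have hinj : Function.Injective φ := by
      intro a b hab
      have h1 : φ (a * b⁻¹) = 1 := by rw [map_mul, map_inv, hab, mul_inv_cancel]
      have h2 := cyc_eq_pow (a * b⁻¹)
      rw [h2, map_pow] at h1
      have h3 := orderOf_dvd_of_pow_eq_one h1
      rw [hN] at h3
      have h4 := Nat.eq_zero_of_dvd_of_lt h3 (ZMod.val_lt _)
      rw [h4, pow_zero] at h2
      exact mul_inv_eq_one.1 h2
    exact hA N p φ c (Nat.pos_of_ne_zero (NeZero.ne N)) hv.1 (by rw [← hN]; exact hv.2.2) hinj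
  have hAv : ∀ (p : ℕ) (h : G) (c : HQ (n + 1) (Cen h)), Adm p h →
      ∃ (N : ℕ) (_ : NeZero N) (φ : Cyc N →* G)
        (H : ∀ (z : Cen h) c, Commute ((Cen h).subtype z) (φ c)), φ (gen N) = h ∧
        orderOf h = N ∧ Function.Injective φ ∧
        A (sym p h c) = prodG hPRI hBD n φ (Cen h).subtype H
          (H2.ak3 (Tw N) (fun q => KNegOne.of (ε0 N q)) p) c := by
    intro p h c hv
    have hpos : 0 < orderOf h := orderOf_pos_iff.2 hv.2.1
    have hNe : NeZero (orderOf h) := ⟨hpos.ne'⟩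
    obtain ⟨φ, hφ⟩ := exists_cyc (N := orderOf h) h (pow_orderOf_eq_one h)
    refine ⟨orderOf h, hNe, φ, fun z c => commute_cyc' hφ z c, hφ, rfl, ?_,
      hAh p h c hv (orderOf h) φ hφ _ rfl⟩
    intro a b hab
    have h1 : φ (a * b⁻¹) = 1 := by rw [map_mul, map_inv, hab, mul_inv_cancel]
    have h2 := cyc_eq_pow (a * b⁻¹)
    rw [h2, map_pow, hφ] at h1
    have h3 := orderOf_dvd_of_pow_eq_one h1
    have h4 := Nat.eq_zero_of_dvd_of_lt h3 (ZMod.val_lt _)
    rw [h4, pow_zero] at h2
    exact mul_inv_eq_one.1 h2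
  -- the image of `A` is spanned by the raw classes
  have hspan : ∀ x : Src n G, A x ∈ Submodule.span ℚ (Set.range (rawV ε0 n G)) := by
    intro x
    obtain ⟨y, hy⟩ := exists_rep x
    rw [hy, map_sum]
    refine Submodule.sum_mem _ fun s _ => ?_
    rw [map_smul]
    refine Submodule.smul_mem _ _ ?_
    by_cases hv : Adm s.p s.h
    swap
    · rw [sym_invalid s.p s.h s.c hv, map_zero]
      exact Submodule.zero_mem _
    · obtain ⟨N, _, φ, H, hφ, hord, hinj, e⟩ := hAv s.p s.h s.c hv
      rw [e]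
      let Θ : KNegOne (MonoidAlgebra ℤ (Cyc N)) →+
          (KB n (MonoidAlgebra ℤ G) ⧸ Submodule.span ℚ (Set.range (rawV ε0 n G))) :=
        { toFun := fun κ => (Submodule.span ℚ (Set.range (rawV ε0 n G))).mkQ
            (prodG hPRI hBD n φ (Cen s.h).subtype H κ s.c)
          map_zero' := by rw [map_zero, LinearMap.zero_apply, map_zero]
          map_add' := fun x y => by rw [map_add, LinearMap.add_apply, map_add] }
      have h5 := H2.ak3_induct (T := Tw N) (κ := fun q => KNegOne.of (ε0 N q))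
        (fun u w x => Tw_Tw u w x) Θ (fun q hq w => by
          change (Submodule.span ℚ (Set.range (rawV ε0 n G))).mkQ
            (prodG hPRI hBD n φ (Cen s.h).subtype H (Tw N w (KNegOne.of (ε0 N q))) s.c) = 0
          rw [Submodule.mkQ_apply, Submodule.Quotient.mk_eq_zero]
          have e' : (φ.comp (pw N w)) (gen N) = s.h ^ (w : ZMod N).val := by rw [pw_gen, hφ]
          rw [tw_raw hPRI hBD q φ H s.c w (Subgroup.pow_mem _ (Subgroup.mem_zpowers s.h) _)
            (fun z c => commute_cyc' e' z c)]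
          have key : ∀ (ψ : Cyc N →* G) (h' : G) (_ : ψ (gen N) = h')
              (H' : ∀ (z : Cen h') c, Commute ((Cen h').subtype z) (ψ c))
              (c' : HQ (n + 1) (Cen h')), Function.Injective ψ →
              prodG hPRI hBD n ψ (Cen h').subtype H' (KNegOne.of (ε0 N q)) c' ∈
                Submodule.span ℚ (Set.range (rawV ε0 n G)) := by
            intro ψ h' e H' c' hψ
            subst e
            have h6 := rawV_eq ε0 n G hPRI hBD ⟨N, q, ψ, c',
              Nat.pos_of_ne_zero (NeZero.ne N), Nat.prime_of_mem_primeFactors hq,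
              Nat.dvd_of_mem_primeFactors hq, hψ⟩
            change prodG hPRI hBD n ψ (Cen (ψ (gen N))).subtype (commute_cyc ψ)
              (KNegOne.of (ε0 N q)) c' = _ at h6
            rw [h6]
            exact Submodule.subset_span ⟨_, rfl⟩
          exact key _ _ e' _ _ (fun a b hab => inj_pw w (hinj hab))) s.p
        (Nat.mem_primeFactors.2 ⟨hv.1, by rw [← hord]; exact hv.2.2, NeZero.ne N⟩)
      change (Submodule.span ℚ (Set.range (rawV ε0 n G))).mkQ _ = 0 at h5
      rw [Submodule.mkQ_apply, Submodule.Quotient.mk_eq_zero] at h5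
      exact h5
  refine ⟨A, ?_, hspan, ?_⟩
  · intro N p φ c hN hp hpN hφ
    rw [hA N p φ c hN hp hpN hφ, ← hε]
    exact prodG_rhoC hPRI hBD n (ε N p) φ c
  · intro x hx
    obtain ⟨y, hy⟩ := exists_rep x
    refine t_SEP hPRI hBD x y hy ?_
    intro N0 L hL hsupp
    obtain ⟨F, hF, hx⟩ := hx L hL
    have hval : ∀ s : Sym n G, F (A (sym s.p s.h s.c)) =
        (omg N0 : ℚ) * L s.p s.h s.c := by
      intro s
      by_cases hv : Adm s.p s.h
      · obtain ⟨N, _, φ, H, hφ, hord, hinj, e⟩ := hAv s.p s.h s.c hv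
        rw [e, val_ak3 hPRI hBD (Nat.mem_primeFactors.2
          ⟨hv.1, by rw [← hord]; exact hv.2.2, NeZero.ne N⟩) φ hinj hφ H s.c hL hF]
        by_cases hNN : N = N0
        · rw [hNN]
        · rw [hsupp s.p s.h (by rw [hord]; exact hNN), LinearMap.zero_apply, mul_zero, mul_zero]
      · rw [sym_invalid s.p s.h s.c hv, map_zero, map_zero, hL.zero s.p s.h hv,
          LinearMap.zero_apply, mul_zero]
    have h1 : (omg N0 : ℚ) * ∑ s ∈ y.support, y s * L s.p s.h s.c = 0 := by
      have h2 := hx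
      rw [hy, map_sum, map_sum] at h2
      rw [← h2, Finset.mul_sum]
      refine Finset.sum_congr rfl fun s _ => ?_
      rw [map_smul, map_smul, hval, smul_eq_mul]
      ring
    by_cases hex : ∃ s ∈ y.support, orderOf s.h = N0 ∧ Adm s.p s.h
    · obtain ⟨s, hs, hs', hv⟩ := hex
      have h3 : (omg N0 : ℚ) ≠ 0 := omg_ne (p := s.p)
        (by rw [← hs']; exact orderOf_pos_iff.2 hv.2.1) hv.1 (by rw [← hs']; exact hv.2.2)
      exact (mul_eq_zero.1 h1).resolve_left h3
    · refine Finset.sum_eq_zero fun s hs => ?_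
      by_cases hord : orderOf s.h = N0
      · rw [hL.zero s.p s.h (fun hv => hex ⟨s, hs, hord, hv⟩), LinearMap.zero_apply, mul_zero]
      · rw [hsupp s.p s.h hord, LinearMap.zero_apply, mul_zero]

end Pool.Agent.FJB
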