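import Pool.Agent.FJB.FinA
import Pool.Agent.FJA.FinG

/-!
# The final theorem in kernel form, from the modules
-/

set_option autoImplicit false
set_option linter.unusedSectionVars false

open Matrix Pool.Agent.WhK Pool.Agent.Lib25 CategoryTheory Pool.Agent.FJA

noncomputable section

namespace Pool.Agent.FJB

/-- The functional which vanishes on the image of the part with coefficients `K_1`. -/
theorem exists_FE (hADE : S_ADE)
    {ε0 : ∀ N : ℕ, ℕ → IdemMat (LaurentPolynomial (MonoidAlgebra ℤ (Cyc N)))}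
    {v : ∀ (N : ℕ) (_ : ℕ) (q : ℕ), [Fact q.Prime] → Cyc N → ℚ_[q]} {K : ℕ → ℕ}
    (hND : NodeD ε0 v K) {m : ℕ} {G : Type} [Group G] (hP : PdgE G m)
    {A1 : Src1 m G →ₗ[ℚ] KB (m + 1) (MonoidAlgebra ℤ G)} (hA1 : IsA1 A1)
    {L : ∀ (_ : ℕ) (h : G), HQ (m + 1 + 1) (Cen h) →ₗ[ℚ] ℚ} (hL : AdmL (m + 1) G L) :
    ∃ F : KB (m + 1) (MonoidAlgebra ℤ G) →ₗ[ℚ] ℚ,
      (∀ j : Ix (m + 1) G, F (rawV ε0 (m + 1) G j) = L j.p (j.φ (gen j.N)) j.c) ∧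
      ∀ y : Src1 m G, F (A1 y) = 0 := by
  obtain ⟨F, hF⟩ := exists_fun (J := Ix (m + 1) G)
    (fun j => (LinearMap.range A1).mkQ (rawV ε0 (m + 1) G j))
    (fun j => L j.p (j.φ (gen j.N)) j.c) (by
      intro q hq
      have h1 : (LinearMap.range A1).mkQ (q.sum fun j r => r • rawV ε0 (m + 1) G j) = 0 := by
        rw [← hq]
        unfold Finsupp.sum
        rw [map_sum]
        exact Finset.sum_congr rfl fun j _ => map_smul _ _ _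
      rw [Submodule.mkQ_apply, Submodule.Quotient.mk_eq_zero] at h1
      obtain ⟨y, hy⟩ := h1
      refine hADE ε0 v K hND G m hP A1 hA1 L hL (Ix (m + 1) G) q.support q (fun j => j.N)
        (fun j => j.p) (fun j => j.φ) (fun j => j.c) (fun j => j.hN) (fun j => j.hp)
        (fun j => j.hpN) (fun j => j.hφ) (-y) ?_
      rw [map_neg, hy]
      exact add_neg_cancel _)
  refine ⟨F.comp (LinearMap.range A1).mkQ, hF, fun y => ?_⟩
  rw [LinearMap.comp_apply, Submodule.mkQ_apply,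
    (Submodule.Quotient.mk_eq_zero _).2 (LinearMap.mem_range_self A1 y), map_zero]

/-- The conclusion for the parts with coefficients `K_0` and `K_(-1)`. -/
theorem t_AX (hADE : S_ADE) (hT0E : S_T0E) (hFLC : S_FLC)
    {ε0 : ∀ N : ℕ, ℕ → IdemMat (LaurentPolynomial (MonoidAlgebra ℤ (Cyc N)))}
    {v : ∀ (N : ℕ) (_ : ℕ) (q : ℕ), [Fact q.Prime] → Cyc N → ℚ_[q]} {K : ℕ → ℕ}
    (hND : NodeD ε0 v K) {m : ℕ} {G : Type} [Group G] (hP : PdgE G m)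
    {A1 : Src1 m G →ₗ[ℚ] KB (m + 1) (MonoidAlgebra ℤ G)} (hA1 : IsA1 A1)
    {A : Src (m + 1) G →ₗ[ℚ] KB (m + 1) (MonoidAlgebra ℤ G)}
    (hspan : ∀ x, A x ∈ Submodule.span ℚ (Set.range (rawV ε0 (m + 1) G)))
    (hsep : ∀ x : Src (m + 1) G,
      (∀ L : ∀ (_ : ℕ) (h : G), HQ (m + 1 + 1) (Cen h) →ₗ[ℚ] ℚ, AdmL (m + 1) G L →
          ∃ F : KB (m + 1) (MonoidAlgebra ℤ G) →ₗ[ℚ] ℚ,
            (∀ j : Ix (m + 1) G, F (rawV ε0 (m + 1) G j) = L j.p (j.φ (gen j.N)) j.c) ∧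
              F (A x) = 0) →
        x ∈ UdSrc (m + 1) G)
    (a : HQ (m + 1 + 1) (G × Multiplicative ℤ)) (x : Src (m + 1) G) (y : Src1 m G)
    (hrel : tau (m + 1) G a + A x + A1 y = 0) : a ∈ inG (m + 1) G ∧ x ∈ UdSrc (m + 1) G := by
  obtain ⟨z, rfl⟩ := exists_cl (k := ℚ) a
  obtain ⟨q, hq⟩ := (Finsupp.mem_span_range_iff_exists_finsupp).1 (hspan x)
  have hmem : cl ℚ (m + 1 + 1) _ z ∈ inG (m + 1) G := by
    by_contra hne
    obtain ⟨lam, h1, h2⟩ := Submodule.exists_le_ker_of_notMem hne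
    obtain ⟨F, hF1, hF2, hF3, hF4⟩ := hFLC G (m + 1) lam (fun c => by
      have h3 : Hk.map ℚ (m + 1 + 1) (MonoidHom.inl G (Multiplicative ℤ)) c ∈ inG (m + 1) G :=
        ⟨c, rfl⟩
      exact h2 h3)
    apply h1
    rw [hF4]
    refine hT0E ε0 v K hND G m A1 hA1 (Ix (m + 1) G) q.support q (fun j => j.N) (fun j => j.p)
      (fun j => j.φ) (fun j => j.c) (fun j => j.hN) (fun j => j.hp) (fun j => j.hpN)
      (fun j => j.hφ) z y ?_ F hF1 hF2 hF3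
    rw [← hrel, ← hq]
    rfl
  refine ⟨hmem, hsep x fun L hL => ?_⟩
  have h3 : tau (m + 1) G (cl ℚ (m + 1 + 1) _ z) = 0 := by
    obtain ⟨c, hc⟩ := hmem
    rw [← hc]
    exact tau_inl c
  rw [h3, zero_add] at hrel
  obtain ⟨F, hF1, hF2⟩ := exists_FE hADE hND hP hA1 hL
  refine ⟨F, hF1, ?_⟩
  rw [eq_neg_of_add_eq_zero_left hrel, map_neg, hF2, neg_zero]

/-- The statement in kernel form; `T` is the condition on the torsion in the degrees `n ≥ 3`. -/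
def S_ALL8 (T : ∀ (G : Type) [Group G], Prop) : Prop :=
  ∃ ε : ∀ N : ℕ, ℕ → IdemMat (LaurentPolynomial (MonoidAlgebra ℤ (Cyc N))),
    ∀ (G : Type) [Group G], ∃ (A : ∀ n : ℕ, Src n G →ₗ[ℚ] KB n (MonoidAlgebra ℤ G))
      (B : ∀ m : ℕ, Src1 m G →ₗ[ℚ] KB (m + 1) (MonoidAlgebra ℤ G)),
      (∀ n : ℕ, IsAssembly ε (A n)) ∧ (∀ m : ℕ, IsA1 (B m)) ∧
      (∀ n : ℕ, ∀ a ∈ inG n G, tau n G a = 0) ∧
      (∀ (a : HQ 1 (G × Multiplicative ℤ)) (x : Src 0 G),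
        tau 0 G a + A 0 x = 0 → a ∈ inG 0 G ∧ x ∈ UdSrc 0 G) ∧
      ∀ m : ℕ, (T G ∨ m ≤ 1) →
        ∀ (a : HQ (m + 2) (G × Multiplicative ℤ)) (x : Src (m + 1) G) (y : Src1 m G),
          tau (m + 1) G a + A (m + 1) x + B m y = 0 →
            a ∈ inG (m + 1) G ∧ x ∈ UdSrc (m + 1) G ∧ y ∈ UdSrc1 m G

theorem t_ALL8 (T : ∀ (G : Type) [Group G], Prop) (hPRI : S_PRI.{0, 0, 0}) (hBD : S_BD.{0, 0, 0})
    (hFLC : S_FLC)
    (ε0 : ∀ N : ℕ, ℕ → IdemMat (LaurentPolynomial (MonoidAlgebra ℤ (Cyc N))))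
    (hFIN : S_FNP ε0) (hT0 : S_T0 ε0) (hADE : S_ADE) (hT0E : S_T0E)
    (hCKX : S_CKX) (hBRF : S_BRF) (hPLB : S_PLB)
    (hREP : S_REP) (hTTH : S_TTH) (hTPA : S_TPA) (hTPD : S_TPD) (hAS1 : S_AS1)
    (v : ∀ (N : ℕ) (_ : ℕ) (q : ℕ), [Fact q.Prime] → Cyc N → ℚ_[q]) (K : ℕ → ℕ)
    (hND : NodeD ε0 v K) (hP0 : ∀ (G : Type) [Group G], Pdg G 0)
    (hP : ∀ (G : Type) [Group G] (m : ℕ), (T G ∨ m ≤ 1) → PdgE G m)
    (hL : ∀ (G : Type) [Group G] (m : ℕ), (T G ∨ m ≤ 1) → ∀ (p : ℕ) [Fact p.Prime],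
      LMh G p m) : S_ALL8 T := by
  obtain ⟨ε, hε⟩ := t_ALLu hPRI hBD ε0
  refine ⟨ε, fun G _ => ?_⟩
  choose A hA hspan hsep using fun n => hε n G
  choose B hB using fun m => hAS1 m G
  have htau : ∀ n : ℕ, ∀ a ∈ inG n G, tau n G a = 0 := by
    rintro n _ ⟨c, rfl⟩
    exact tau_inl c
  refine ⟨A, B, hA, hB, htau, fun a x hrel => ?_, fun m hm a x y hrel => ?_⟩
  · obtain ⟨z, rfl⟩ := exists_cl (k := ℚ) a
    obtain ⟨q, hq⟩ := (Finsupp.mem_span_range_iff_exists_finsupp).1 (hspan 0 x)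
    have hmem : cl ℚ (0 + 1) _ z ∈ inG 0 G := by
      by_contra hne
      obtain ⟨lam, h1, h2⟩ := Submodule.exists_le_ker_of_notMem hne
      obtain ⟨F, hF1, hF2, hF3, hF4⟩ := hFLC G 0 lam (fun c => by
        have h3 : Hk.map ℚ (0 + 1) (MonoidHom.inl G (Multiplicative ℤ)) c ∈ inG 0 G := ⟨c, rfl⟩
        exact h2 h3)
      apply h1
      rw [hF4]
      refine hT0 G 0 (Ix 0 G) q.support q (fun j => j.N) (fun j => j.p) (fun j => j.φ)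
        (fun j => j.c) (fun j => j.hN) (fun j => j.hp) (fun j => j.hpN) (fun j => j.hφ) z ?_
        F hF1 hF2 hF3
      rw [← hrel, ← hq]
      rfl
    refine ⟨hmem, hsep 0 x fun L hL' => ?_⟩
    obtain ⟨F, hF⟩ := exists_FP hFIN (hP0 G) hL'
    refine ⟨F, hF, ?_⟩
    have h3 := htau 0 _ hmem
    have h4 : A 0 x = 0 := by
      rw [← hrel]
      exact (congrArg (· + A 0 x) h3).symm ▸ (zero_add _).symm
    rw [h4, map_zero]
  · obtain ⟨h1, h2⟩ := t_AX hADE hT0E hFLC hND (hP G m hm) (hB m) (hspan (m + 1)) (hsep (m + 1))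
      a x y hrel
    exact ⟨h1, h2, t_Y3 hCKX hBRF hPLB hREP hTTH hTPA hTPD ε0 v K hND m G (hL G m hm) (B m)
      (hB m) a (A (m + 1) x) (hspan (m + 1) x) y hrel⟩

end Pool.Agent.FJB
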