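import Pool.Agent.FJB.Def
import Pool.Agent.FJA.FinF
import Pool.Agent.FJA.P_AS1
import Pool.Agent.FJA.P_CRS
import Pool.Agent.FJA.P_CRA
import Pool.Agent.FJA.P_TPR
import Pool.Agent.FJA.P_PRI

/-!
# WHX: functionals on the colimit of the Whitehead groups extend to `K_1(ℤ[G])`
-/

set_option autoImplicit false
set_option linter.unusedSectionVars false

open Matrix Pool.Agent.WhK Pool.Agent.Lib25 CategoryTheory Pool.Agent.FJA

noncomputable section

namespace Pool.Agent.FJB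

namespace WHX

/-! ## The product with a commuting element -/

section crs

variable {P Q P' Q' : Type} [Group P] [Group Q] [Group P'] [Group Q']

/-- `X` is the product with the class of `g`. -/
def IsCr (m : ℕ) (f : P →* Q) (g : Q) (X : Hk ℚ m P →ₗ[ℚ] Hk ℚ (m + 1) Q) : Prop :=
  ∀ z : ZC ℚ m P, ∃ z' : ZC ℚ (m + 1) Q,
    ch ℚ (m + 1) Q z' = insL m g (IC.map ℚ m f (ch ℚ m P z)) ∧
    X (cl ℚ m P z) = cl ℚ (m + 1) Q z'

theorem exists_isCr (m : ℕ) (f : P →* Q) (g : Q) (h : ∀ z, g * f z = f z * g) :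
    ∃ X : Hk ℚ m P →ₗ[ℚ] Hk ℚ (m + 1) Q, IsCr m f g X :=
  ((t_CRS t_PRI t_BD) P Q f g h m).2

theorem IsCr.nat {m : ℕ} {f : P →* Q} {g : Q} {X : Hk ℚ m P →ₗ[ℚ] Hk ℚ (m + 1) Q} {f' : P' →* Q'}
    {g' : Q'} {X' : Hk ℚ m P' →ₗ[ℚ] Hk ℚ (m + 1) Q'} (h : IsCr m f g X) (h' : IsCr m f' g' X')
    (α : P →* P') (β : Q →* Q') (h1 : ∀ z, β (f z) = f' (α z)) (h2 : β g = g') (c : Hk ℚ m P) :
    X' (Hk.map ℚ m α c) = Hk.map ℚ (m + 1) β (X c) := by
  obtain ⟨z, rfl⟩ := exists_cl c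
  obtain ⟨y, h3, h4⟩ := Hk.map_cl α z
  obtain ⟨w, h5, h6⟩ := h z
  obtain ⟨w', h7, h8⟩ := h' y
  obtain ⟨y', h9, h10⟩ := Hk.map_cl β w
  rw [h3, h8, h6, h9]
  apply cl_congr
  rw [h7, h4, h10, h5, AS1.map_insL, IC.map_map, IC.map_map, h2]
  have h11 : (f' : P' → Q') ∘ (α : P → P') = (β : Q → Q') ∘ (f : P → Q) := by
    funext z
    exact (h1 z).symm
  rw [h11]

end crs

/-! ## The class of an element in the first homology group -/

/-- The cycle `1` in degree `0`. -/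
def z0 : ZC ℚ 0 PUnit := ((t_UCZ t_UCT).1 PUnit (Finsupp.single default 1)).choose

theorem ch_z0 : ch ℚ 0 PUnit z0 = Finsupp.single default 1 :=
  ((t_UCZ t_UCT).1 PUnit (Finsupp.single default 1)).choose_spec

section one

variable {Q Q' : Type} [Group Q] [Group Q']

theorem one_comm (g : Q) (z : PUnit.{1}) : g * (1 : PUnit.{1} →* Q) z = (1 : PUnit.{1} →* Q) z * g := by
  rw [MonoidHom.one_apply, mul_one, one_mul]

/-- The class of `g` in the first homology group. -/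
def c1 (g : Q) : Hk ℚ 1 Q :=
  (exists_isCr 0 (1 : PUnit.{1} →* Q) g (one_comm g)).choose (cl ℚ 0 PUnit z0)

theorem c1_eq (g : Q) : ∃ z : ZC ℚ 1 Q, ch ℚ 1 Q z = insL 0 g (Finsupp.single default 1) ∧
    c1 g = cl ℚ 1 Q z := by
  obtain ⟨z, h1, h2⟩ := (exists_isCr 0 (1 : PUnit.{1} →* Q) g (one_comm g)).choose_spec z0
  refine ⟨z, ?_, h2⟩
  rw [h1, ch_z0, IC.map_single]
  congr 2
  exact Subsingleton.elim _ _

theorem c1_mul (g g' : Q) : c1 (g * g') = c1 g + c1 g' := by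
  obtain ⟨w1, h1, h1'⟩ := c1_eq (g * g')
  obtain ⟨w2, h2, h2'⟩ := c1_eq g
  obtain ⟨w3, h3, h3'⟩ := c1_eq g'
  obtain ⟨y, hy⟩ := t_CRA t_TPR (t_CRS t_PRI t_BD) t_BD PUnit Q 1 g g' (one_comm g) (one_comm g') 0
    z0
  have h0 : IC.map ℚ 0 (1 : PUnit.{1} →* Q) (ch ℚ 0 PUnit z0) = Finsupp.single default 1 := by
    rw [ch_z0, IC.map_single]
    congr 1
    exact Subsingleton.elim _ _
  rw [h0] at hy
  rw [h1', h2', h3']
  have h4 : cl ℚ 1 Q (w2 + w3 - w1) = 0 := by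
    rw [cl_eq_zero_iff]
    refine ⟨y, ?_⟩
    rw [map_sub, map_add, h1, h2, h3]
    exact hy
  rw [map_sub, map_add, sub_eq_zero] at h4
  exact h4.symm

theorem c1_map (β : Q →* Q') (g : Q) : Hk.map ℚ 1 β (c1 g) = c1 (β g) := by
  obtain ⟨z, h1, h2⟩ := c1_eq g
  obtain ⟨z', h3, h4⟩ := c1_eq (β g)
  obtain ⟨y, h5, h6⟩ := Hk.map_cl β z
  rw [h2, h4, h5]
  apply cl_congr
  rw [h6, h3, h1, AS1.map_insL, IC.map_single]
  congr 2
  exact Subsingleton.elim _ _

end one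

/-! ## The product with `t` -/

section tt

variable {R : Type} [Ring R]

/-- The inclusion of the constants. -/
def cst (R : Type) [Ring R] : R →+* LaurentPolynomial R :=
  AddMonoidAlgebra.singleZeroRingHom (R := R) (M := ℤ)

/-- The matrix `t 1`. -/
def tI (R : Type) [Ring R] (r : ℕ) : GLn (LaurentPolynomial R) r where
  val := Matrix.diagonal fun _ => LaurentPolynomial.T 1
  inv := Matrix.diagonal fun _ => LaurentPolynomial.T (-1)
  val_inv := by
    rw [Matrix.diagonal_mul_diagonal, ← LaurentPolynomial.T_add, add_neg_cancel,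
      LaurentPolynomial.T_zero, Matrix.diagonal_one]
  inv_val := by
    rw [Matrix.diagonal_mul_diagonal, ← LaurentPolynomial.T_add, neg_add_cancel,
      LaurentPolynomial.T_zero, Matrix.diagonal_one]

theorem tI_comm (r : ℕ) (X : GLn (LaurentPolynomial R) r) : tI R r * X = X * tI R r := by
  apply Units.ext
  change (Matrix.diagonal fun _ => LaurentPolynomial.T 1) * X.val =
    X.val * (Matrix.diagonal fun _ => LaurentPolynomial.T 1)
  refine Matrix.ext fun i j => ?_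
  rw [Matrix.diagonal_mul, Matrix.mul_diagonal]
  exact (LaurentPolynomial.commute_T 1 (X.val i j)).eq

/-- The product with `t`. -/
def XT (R : Type) [Ring R] (r : ℕ) : Hk ℚ 1 (GLn R r) →ₗ[ℚ] Hk ℚ 2 (GLn (LaurentPolynomial R) r) :=
  (exists_isCr 1 (glm (cst R) r) (tI R r) (fun _ => tI_comm r _)).choose

theorem XT_spec (R : Type) [Ring R] (r : ℕ) : IsCr 1 (glm (cst R) r) (tI R r) (XT R r) :=
  (exists_isCr 1 (glm (cst R) r) (tI R r) (fun _ => tI_comm r _)).choose_spec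

/-- The class of `X` times `t` in `K_1(R) ⊗ ℚ`. -/
def kc (r : ℕ) (X : GLn R r) : KB 1 R := KB.mk 1 R r (XT R r (c1 X))

theorem kc_mul (r : ℕ) (X Y : GLn R r) : kc r (X * Y) = kc r X + kc r Y := by
  unfold kc
  rw [c1_mul, map_add, map_add]

/-- The block relation in `KB`. -/
theorem KB_block (n : ℕ) (a b : ℕ)
    (c : HQ (n + 1) (GLn (LaurentPolynomial R) a × GLn (LaurentPolynomial R) b)) :
    KB.mk n R (a + b) (HQ.map (n + 1) (bsumHom (LaurentPolynomial R) a b) c) =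
      KB.mk n R a (HQ.map (n + 1) (MonoidHom.fst _ _) c) +
      KB.mk n R b (HQ.map (n + 1) (MonoidHom.snd _ _) c) := by
  have h1 : KQ.mk (n + 1) (LaurentPolynomial R) (a + b)
        (HQ.map (n + 1) (bsumHom (LaurentPolynomial R) a b) c) =
      KQ.mk (n + 1) (LaurentPolynomial R) a (HQ.map (n + 1) (MonoidHom.fst _ _) c) +
      KQ.mk (n + 1) (LaurentPolynomial R) b (HQ.map (n + 1) (MonoidHom.snd _ _) c) := by
    rw [← sub_eq_zero, sub_add_eq_sub_sub]
    unfold KQ.mk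
    rw [LinearMap.comp_apply, LinearMap.comp_apply, LinearMap.comp_apply, ← map_sub, ← map_sub,
      Submodule.mkQ_apply, Submodule.Quotient.mk_eq_zero]
    exact Submodule.subset_span ⟨a, b, c, rfl⟩
  unfold KB.mk
  rw [LinearMap.comp_apply, LinearMap.comp_apply, LinearMap.comp_apply, h1, map_add]

theorem glm_bsum {S : Type} [Ring S] (φ : R →+* S) (a b : ℕ) (z : GLn R a × GLn R b) :
    glm φ (a + b) (bsumHom R a b z) =
      bsumHom S a b (MonoidHom.prodMap (glm φ a) (glm φ b) z) := by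
  apply Units.ext
  change (bsum z.1.val z.2.val).map φ = bsum (z.1.val.map φ) (z.2.val.map φ)
  unfold bsum
  rw [← Matrix.submatrix_map, Matrix.fromBlocks_map, Matrix.map_zero _ (map_zero φ),
    Matrix.map_zero _ (map_zero φ)]

theorem bsum_tI (a b : ℕ) :
    bsumHom (LaurentPolynomial R) a b (tI R a, tI R b) = tI R (a + b) := by
  apply Units.ext
  change bsum (Matrix.diagonal fun _ => LaurentPolynomial.T 1)
    (Matrix.diagonal fun _ => LaurentPolynomial.T 1) =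
      Matrix.diagonal fun _ => LaurentPolynomial.T 1
  unfold bsum
  rw [Matrix.fromBlocks_diagonal, Matrix.submatrix_diagonal_equiv]
  congr 1
  funext i
  change Sum.elim (fun _ => LaurentPolynomial.T 1) (fun _ => LaurentPolynomial.T 1)
    (finSumFinEquiv.symm i) = LaurentPolynomial.T 1
  cases finSumFinEquiv.symm i <;> rfl

theorem kc_block (a b : ℕ) (X : GLn R a) (Y : GLn R b) :
    kc (a + b) (bsumHom R a b (X, Y)) = kc a X + kc b Y := by
  obtain ⟨W, hW⟩ := exists_isCr 1 (MonoidHom.prodMap (glm (cst R) a) (glm (cst R) b))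
    (tI R a, tI R b) (fun z => Prod.ext (tI_comm a _) (tI_comm b _))
  have h1 := hW.nat (XT_spec R (a + b)) (bsumHom R a b) (bsumHom (LaurentPolynomial R) a b)
    (fun z => (glm_bsum (cst R) a b z).symm) (bsum_tI a b) (c1 (X, Y))
  have h2 := hW.nat (XT_spec R a) (MonoidHom.fst _ _) (MonoidHom.fst _ _)
    (fun z => rfl) rfl (c1 (X, Y))
  have h3 := hW.nat (XT_spec R b) (MonoidHom.snd _ _) (MonoidHom.snd _ _)
    (fun z => rfl) rfl (c1 (X, Y))
  rw [c1_map] at h1 h2 h3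
  unfold kc
  rw [h1]
  have h2' : XT R a (c1 X) = Hk.map ℚ 2 (MonoidHom.fst _ _) (W (c1 (X, Y))) := h2
  have h3' : XT R b (c1 Y) = Hk.map ℚ 2 (MonoidHom.snd _ _) (W (c1 (X, Y))) := h3
  rw [h2', h3']
  exact KB_block 1 a b _

end tt

/-! ## The functional on the source -/

section aug

variable {P P' : Type} [Group P] [Group P']

theorem lapply_dI (y : IC ℚ 1 P) : (Finsupp.lapply (default : Fin 0 → P) : IC ℚ 0 P →ₗ[ℚ] ℚ)
    (dI ℚ 0 P y) = 0 := by
  induction y using Finsupp.induction_linear with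
  | zero => rw [map_zero, map_zero]
  | add a b ha hb => rw [map_add, map_add, ha, hb, add_zero]
  | single g q =>
    rw [dI_single, Fin.sum_univ_one, map_add, map_smul]
    have h1 : (fun i : Fin 0 => g i.succ) = (default : Fin 0 → P) := Subsingleton.elim _ _
    have h2 : (Fin.contractNth (0 : Fin 1) (· * ·) g : Fin 0 → P) = (default : Fin 0 → P) :=
      Subsingleton.elim _ _
    rw [h1, h2, Finsupp.lapply_apply, Finsupp.single_eq_same, smul_eq_mul]
    norm_num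

/-- The augmentation in degree zero. -/
def aug : Hk ℚ 0 P →ₗ[ℚ] ℚ := Hk.lift (Finsupp.lapply (default : Fin 0 → P)) lapply_dI

theorem aug_cl (z : ZC ℚ 0 P) : aug (cl ℚ 0 P z) = ch ℚ 0 P z default := Hk.lift_cl _ _ z

theorem aug_map (α : P →* P') (c : Hk ℚ 0 P) : aug (Hk.map ℚ 0 α c) = aug c := by
  obtain ⟨z, rfl⟩ := exists_cl c
  obtain ⟨y, h1, h2⟩ := Hk.map_cl α z
  rw [h1, aug_cl, aug_cl, h2]
  have h3 : ch ℚ 0 P z = Finsupp.single default (ch ℚ 0 P z default) := by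
    ext
    rw [Finsupp.single_eq_same]
  rw [h3, IC.map_single]
  have h4 : (α ∘ (default : Fin 0 → P)) = (default : Fin 0 → P') := Subsingleton.elim _ _
  rw [h4, Finsupp.single_eq_same, Finsupp.single_eq_same]

theorem aug_z0 : aug (cl ℚ 0 PUnit z0) = 1 := by
  rw [aug_cl, ch_z0, Finsupp.single_eq_same]

end aug

theorem exists_phi {G : Type} [Group G] (f : (MonoidAlgebra ℤ G)ˣ → ℚ) (hf : IsColim f) :
    ∃ φ : Src1 0 G →ₗ[ℚ] ℚ, ∀ (h : G) (c : HQ 0 (Cen h)) (u : (MonoidAlgebra ℤ G)ˣ), Adm1 h u →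
      φ (sym1 h c u) = aug c * f u := by
  classical
  let A0 : (Sym1 0 G →₀ ℚ) →ₗ[ℚ] ℚ :=
    Finsupp.linearCombination ℚ (fun s => if Adm1 s.h s.u then aug s.c * f s.u else 0)
  have hA0 : ∀ (h : G) (c : HQ 0 (Cen h)) (u : (MonoidAlgebra ℤ G)ˣ),
      A0 (sg1 h c u) = if Adm1 h u then aug c * f u else 0 := by
    intro h c u
    unfold sg1
    exact (Finsupp.linearCombination_single ℚ _ _).trans (one_smul _ _)
  have hrel : ∀ x, Rel1 0 G x → A0 x = 0 := by
    intro x hx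
    cases hx with
    | invalid h c u hv => rw [hA0, if_neg hv]
    | add h c c' u =>
      rw [map_sub, map_sub, hA0, hA0, hA0]
      split_ifs
      · rw [map_add]
        ring
      · ring
    | smul h q c u =>
      rw [map_sub, map_smul, hA0, hA0]
      split_ifs
      · rw [map_smul, smul_eq_mul, smul_eq_mul]
        ring
      · rw [smul_zero, sub_zero]
    | mul h c u v hu hv =>
      rw [map_sub, map_sub, hA0, hA0, hA0, if_pos hu, if_pos hv, if_pos (hu.mul hv),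
        hf.1 h u v hu hv]
      ring
    | conj h x c u =>
      rw [map_sub, hA0, hA0, sub_eq_zero]
      by_cases hv : Adm1 h u
      · rw [if_pos hv, if_pos ((AS1.adm1_conj_iff x).2 hv), hf.2 h x u hv, HQ_map_eq, aug_map]
      · rw [if_neg hv, if_neg (fun H => hv ((AS1.adm1_conj_iff x).1 H))]
    | res h h' hh c u hfin hv =>
      rw [map_sub, hA0, hA0, sub_eq_zero, if_pos hv,
        if_pos (show Adm1 h u from ⟨hfin, unS_mono hh hv.2⟩), HQ_map_eq, aug_map]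
  have hle : RelT 0 G ≤ LinearMap.ker A0 := by
    unfold RelT
    rw [Submodule.span_le]
    intro x hx
    exact hrel x hx
  let φ : Src1 0 G →ₗ[ℚ] ℚ := (RelT 0 G).liftQ A0 hle
  refine ⟨φ, fun h c u hu => ?_⟩
  have h1 : φ (sym1 h c u) = A0 (sg1 h c u) := rfl
  rw [h1, hA0, if_pos hu]

theorem unit1_tL {G : Type} [Group G] (u : (MonoidAlgebra ℤ G)ˣ) :
    glm (cst (MonoidAlgebra ℤ G)) 1 (unit1 u) = uL G u := by
  apply Units.ext
  change (Matrix.diagonal fun _ => (u : MonoidAlgebra ℤ G)).map (cst (MonoidAlgebra ℤ G)) =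
    Matrix.diagonal fun _ => cst (MonoidAlgebra ℤ G) (u : MonoidAlgebra ℤ G)
  rw [Matrix.diagonal_map (map_zero _)]

theorem tI_tL (G : Type) [Group G] : tI (MonoidAlgebra ℤ G) 1 = tL G := by
  apply Units.ext
  change (Matrix.diagonal fun _ => (LaurentPolynomial.T 1 :
      LaurentPolynomial (MonoidAlgebra ℤ G))) =
    (Matrix.diagonal fun _ => AddMonoidAlgebra.single (1 : ℤ) (MonoidAlgebra.of ℤ G 1))
  rw [map_one]
  rfl

/-- The values of `B` on the symbols of the units. -/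
theorem B_kc {G : Type} [Group G] {B : Src1 0 G →ₗ[ℚ] KB (0 + 1) (MonoidAlgebra ℤ G)}
    (hB : IsA1 B) (h : G) (u : (MonoidAlgebra ℤ G)ˣ) (hu : Adm1 h u) :
    B (sym1 h (Hk.map ℚ 0 (1 : PUnit.{1} →* Cen h) (cl ℚ 0 PUnit z0)) u) = kc 1 (unit1 u) := by
  obtain ⟨y, h1, h2⟩ := Hk.map_cl (1 : PUnit.{1} →* Cen h) z0
  obtain ⟨z', h3, h4⟩ := hB h u y hu
  obtain ⟨w, h5, h6⟩ := c1_eq (unit1 u)
  obtain ⟨w', h7, h8⟩ := XT_spec (MonoidAlgebra ℤ G) 1 w
  have h9 : cl ℚ 2 _ z' = cl ℚ 2 _ w' := by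
    apply cl_congr
    have h10 : ch ℚ 2 _ z' = chU u (ch ℚ 0 (Cen h) y) := h3
    rw [h10, h7, h5, h2, ch_z0, IC.map_single, AS1.chU_eq, AS1.map_insL, unit1_tL, tI_tL,
      IC.map_single, IC.map_single]
    congr 3
    exact Subsingleton.elim _ _
  rw [h1]
  have h11 : B (sym1 h (cl ℚ 0 (Cen h) y) u) =
      KB.mk 1 (MonoidAlgebra ℤ G) 1 (cl ℚ 2 _ z') := h4
  unfold kc
  rw [h11, h9, h6, h8]

/-- The elements of `G`. -/
theorem tau_kc {G : Type} [Group G] (g : G) :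
    ∃ a : HQ (1 + 1) (G × Multiplicative ℤ), tau 1 G a = kc 1 (unit1 (gU G g)) := by
  obtain ⟨X, hX⟩ := exists_isCr 1 (MonoidHom.inl G (Multiplicative ℤ))
    ((1 : G), Multiplicative.ofAdd (1 : ℤ)) (fun z => by
      apply Prod.ext
      · change 1 * z = z * 1
        rw [one_mul, mul_one]
      · exact mul_comm _ _)
  refine ⟨X (c1 g), ?_⟩
  have h1 := hX.nat (XT_spec (MonoidAlgebra ℤ G) 1) (unit1.comp (gU G)) (gl1 mon) (fun z => by
      have h2 := unit1_tL (gU G z)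
      change gl1 mon (z, 1) = glm (cst (MonoidAlgebra ℤ G)) 1 (unit1 (gU G z))
      rw [h2]
      rfl) (tI_tL G).symm (c1 g)
  rw [c1_map] at h1
  have h3 : tau 1 G (X (c1 g)) =
      KB.mk 1 (MonoidAlgebra ℤ G) 1 (Hk.map ℚ 2 (gl1 mon) (X (c1 g))) := rfl
  rw [h3, ← h1]
  rfl

end WHX

open WHX in
/-- Functionals on the colimit extend. -/
theorem t_WHX {G : Type} [Group G] (B : Src1 0 G →ₗ[ℚ] KB (0 + 1) (MonoidAlgebra ℤ G))
    (hB : IsA1 B)
    (hinj : ∀ (a : HQ (0 + 2) (G × Multiplicative ℤ)) (y : Src1 0 G),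
      FJA.tau (0 + 1) G a + B y = 0 → y = 0)
    (f : (MonoidAlgebra ℤ G)ˣ → ℚ) (hf : IsColim f) :
    ∃ F : ∀ r : ℕ, GLn (MonoidAlgebra ℤ G) r → ℚ, IsK1 F ∧
      (∀ g : G, F 1 (unit1 (gU G g)) = 0) ∧
      ∀ (h : G) (u : (MonoidAlgebra ℤ G)ˣ), Adm1 h u → F 1 (unit1 u) = f u := by
  obtain ⟨φ, hφ⟩ := exists_phi f hf
  obtain ⟨g, hg⟩ := LinearMap.exists_leftInverse_of_injective
    ((LinearMap.range (FJA.tau (0 + 1) G)).mkQ ∘ₗ B) (by
      rw [Submodule.eq_bot_iff]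
      intro y hy
      rw [LinearMap.mem_ker, LinearMap.comp_apply, Submodule.mkQ_apply,
        Submodule.Quotient.mk_eq_zero] at hy
      obtain ⟨a, ha⟩ := hy
      refine hinj (-a) y ?_
      rw [map_neg, ha, neg_add_cancel])
  obtain ⟨Φ, hΦ⟩ : ∃ Φ : KB 1 (MonoidAlgebra ℤ G) →ₗ[ℚ] ℚ,
      Φ = φ ∘ₗ g ∘ₗ (LinearMap.range (FJA.tau (0 + 1) G)).mkQ := ⟨_, rfl⟩
  refine ⟨fun r X => Φ (kc r X), ⟨fun r X Y => ?_, fun a b X Y => ?_⟩, fun x => ?_,
    fun h u hu => ?_⟩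
  · change Φ (kc r (X * Y)) = Φ (kc r X) + Φ (kc r Y)
    rw [kc_mul, map_add]
  · change Φ (kc (a + b) (bsumHom _ a b (X, Y))) = Φ (kc a X) + Φ (kc b Y)
    rw [kc_block, map_add]
  · obtain ⟨a, ha⟩ := tau_kc x
    change Φ (kc 1 (unit1 (gU G x))) = 0
    rw [← ha, hΦ, LinearMap.comp_apply, LinearMap.comp_apply, Submodule.mkQ_apply,
      (Submodule.Quotient.mk_eq_zero _).2 (LinearMap.mem_range_self (FJA.tau (0 + 1) G) a), map_zero,
      map_zero]
  · change Φ (kc 1 (unit1 u)) = f u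
    rw [← B_kc hB h u hu, hΦ, LinearMap.comp_apply, LinearMap.comp_apply]
    have h1 := LinearMap.congr_fun hg
      (sym1 h (Hk.map ℚ 0 (1 : PUnit.{1} →* Cen h) (cl ℚ 0 PUnit z0)) u)
    rw [LinearMap.comp_apply, LinearMap.comp_apply, LinearMap.id_apply] at h1
    rw [h1, hφ _ _ _ hu, aug_map, aug_z0, one_mul]

end Pool.Agent.FJB
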