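import Pool.Agent.FJB.FinB
import Pool.Agent.FJB.Def
import Pool.Agent.FJB.P_WHX
import Pool.Agent.FJA.FinF

/-!
# The final statement in terms of the definitions of the hand-in
-/

set_option autoImplicit false
set_option linter.unusedSectionVars false

open Matrix Pool.Agent.WhK Pool.Agent.Lib25 CategoryTheory Pool.Agent.FJA

noncomputable section

namespace Pool.Agent.FJB

/-- The final statement. -/
def S_ALL9 : Prop :=
  (∀ (G : Type) [Group G], WhInj G) ∧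
  ∃ ε : ∀ N : ℕ, ℕ → IdemMat (LaurentPolynomial (MonoidAlgebra ℤ (Cyc N))),
    ∀ (G : Type) [Group G] (n : ℕ), ∃ T : SrcT n G →ₗ[ℚ] Kb n (MonoidAlgebra ℤ G), IsTot ε T ∧
      (n = 1 → ∀ w, T w = 0 → w.z = 0 ∧ w.y = 0) ∧
      ((n ≤ 2 ∨ PBd G) → (FgCen n G → Function.Injective T) ∧
        ∀ w, T w = 0 → w.z = 0 ∧ w.x ∈ UndN n G ∧ w.y ∈ UndO n G)

theorem undN_zero {n : ℕ} {G : Type} [Group G]
    (h : ∀ h : G, IsOfFinOrder h → h ≠ 1 → Module.Finite ℤ (HZ (n + 1) (Cen h))) (x : SrcN n G)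
    (hx : x ∈ UndN n G) : x = 0 := by
  unfold UndN at hx
  induction hx using Submodule.span_induction with
  | mem x hx =>
    obtain ⟨p, g, c, h1, h2, h3, rfl⟩ := hx
    rw [und_fin (Or.inr (h g h1 h2)) c h3]
    exact map_zero (symL n G p g)
  | zero => rfl
  | add x y _ _ hx hy => rw [hx, hy, add_zero]
  | smul q x _ hx => rw [hx, smul_zero]

theorem und1_zero {m : ℕ} {G : Type} [Group G]
    (h : ∀ h : G, IsOfFinOrder h → h ≠ 1 → m = 0 ∨ Module.Finite ℤ (HZ m (Cen h))) (x : Src1 m G)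
    (hx : x ∈ Und1 m G) : x = 0 := by
  unfold Und1 at hx
  induction hx using Submodule.span_induction with
  | mem x hx =>
    obtain ⟨g, c, u, h1, h2, h3, rfl⟩ := hx
    rw [und_fin (h g h1 h2) c h3]
    exact map_zero (sym1L m g u)
  | zero => rfl
  | add x y _ _ hx hy => rw [hx, hy, add_zero]
  | smul q x _ hx => rw [hx, smul_zero]

theorem undO_zero {n : ℕ} {G : Type} [Group G]
    (h : ∀ h : G, IsOfFinOrder h → h ≠ 1 → n ≤ 1 ∨ Module.Finite ℤ (HZ (n - 1) (Cen h)))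
    (x : SrcO n G) (hx : x ∈ UndO n G) : x = 0 := by
  cases n with
  | zero => exact hx
  | succ m =>
    exact und1_zero (fun g h1 h2 => (h g h1 h2).imp (fun h => by omega) id) x hx

/-- The map `τ` on the quotient. -/
def tauK (n : ℕ) (G : Type) [Group G] : SrcZ n G →ₗ[ℚ] Kb n (MonoidAlgebra ℤ G) :=
  (inG n G).liftQ (show HQ (n + 1) (G × Multiplicative ℤ) →ₗ[ℚ] Kb n (MonoidAlgebra ℤ G) from
    tau n G) (by
      rintro _ ⟨c, rfl⟩
      rw [LinearMap.mem_ker]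
      exact tau_inl c)

/-- The maps `B` in all degrees. -/
def extB {G : Type} [Group G] (B : ∀ m : ℕ, Src1 m G →ₗ[ℚ] Kb (m + 1) (MonoidAlgebra ℤ G)) :
    ∀ n : ℕ, SrcO n G →ₗ[ℚ] Kb n (MonoidAlgebra ℤ G)
  | 0 => 0
  | m + 1 => B m

theorem t_ALL9 (h : S_ALL8 (fun G _ => ∀ p : ℕ, p.Prime → TorP G p)) : S_ALL9 := by
  refine ⟨?_, ?_⟩
  · obtain ⟨ε, hε⟩ := h
    intro G _ f hf
    obtain ⟨A, B, hA, hB, htau, h0, h1⟩ := hε G
    refine t_WHX (B 0) (hB 0) (fun a y hy => ?_) f hf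
    have hy' : FJA.tau (0 + 1) G a + A (0 + 1) 0 + B 0 y = 0 := by
      rw [map_zero, add_zero]
      exact hy
    obtain ⟨-, -, h4⟩ := h1 0 (Or.inr (Nat.zero_le 1)) a 0 y hy'
    exact und1_zero (fun g h1 h2 => Or.inl rfl) y (udSrc1_le 0 G h4)
  obtain ⟨ε, hε⟩ := h
  refine ⟨ε, fun G _ n => ?_⟩
  obtain ⟨A, B, hA, hB, htau, h0, h1⟩ := hε G
  obtain ⟨T, hT⟩ : ∃ T : SrcT n G →ₗ[ℚ] Kb n (MonoidAlgebra ℤ G),
      T = (tauK n G).coprod (LinearMap.coprod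
        (show SrcN n G →ₗ[ℚ] Kb n (MonoidAlgebra ℤ G) from A n) (extB B n)) := ⟨_, rfl⟩
  have key : (n ≤ 2 ∨ PBd G) →
      ∀ w : SrcT n G, T w = 0 → w.z = 0 ∧ w.x ∈ UndN n G ∧ w.y ∈ UndO n G := by
    rintro hn ⟨a, x, y⟩ hw
    rw [hT] at hw
    obtain ⟨a, rfl⟩ := Submodule.Quotient.mk_surjective _ a
    cases n with
    | zero =>
      have hw' : FJA.tau 0 G a + (A 0 x + 0) = 0 := hw
      rw [add_zero] at hw'
      obtain ⟨h2, h3⟩ := h0 a x hw'
      exact ⟨(Submodule.Quotient.mk_eq_zero _).2 h2, udSrc_le 0 G x h3, rfl⟩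
    | succ m =>
      have hw' : FJA.tau (m + 1) G a + (A (m + 1) x + B m y) = 0 := hw
      rw [← add_assoc] at hw'
      obtain ⟨h2, h3, h4⟩ := h1 m (hn.elim (fun h => Or.inr (by omega)) Or.inl) a x y hw'
      exact ⟨(Submodule.Quotient.mk_eq_zero _).2 h2, udSrc_le (m + 1) G x h3, udSrc1_le m G h4⟩
  refine ⟨T, ⟨show SrcN n G →ₗ[ℚ] Kb n (MonoidAlgebra ℤ G) from A n, extB B n, hA n, ?_, ?_⟩,
    ?_, ?_⟩
  · cases n with
    | zero => exact trivial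
    | succ m => exact hB m
  · intro a x y
    rw [add_assoc, hT]
    rfl
  · rintro rfl w hw
    have h2 := key (Or.inl (by norm_num)) w hw
    exact ⟨h2.1, undO_zero (fun g h5 h6 => Or.inl le_rfl) _ h2.2.2⟩
  · intro hn
    refine ⟨fun hfg => ?_, key hn⟩
    rw [← LinearMap.ker_eq_bot, Submodule.eq_bot_iff]
    intro w hw
    obtain ⟨h2, h3, h4⟩ := key hn w (LinearMap.mem_ker.1 hw)
    refine Prod.ext h2 (Prod.ext ?_ ?_)
    · exact undN_zero (fun g h5 h6 => (hfg g h5 h6).1) _ h3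
    · exact undO_zero (fun g h5 h6 => Or.inr (hfg g h5 h6).2) _ h4

end Pool.Agent.FJB
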