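import Pool.Agent.FJB.St
import Pool.Agent.FJA.P_ADB

/-!
# ADE: the core theorem, with a term with coefficients `K_1`
-/

set_option autoImplicit false

open Matrix Pool.Agent.WhK Pool.Agent.Lib25 CategoryTheory Pool.Agent.FJA

noncomputable section

namespace Pool.Agent.FJB

/-- The final descent (`FINC`) with `PdgE` and the chain of `D1`. -/
theorem ADE.fin (hrle : S_RLE) (hfnb : S_FNB) (hfnc : S_FNC)
    (ε : ∀ N : ℕ, ℕ → IdemMat (LaurentPolynomial (MonoidAlgebra ℤ (Cyc N))))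
    (v : ∀ (N : ℕ) (_ : ℕ) (q : ℕ), [Fact q.Prime] → Cyc N → ℚ_[q]) (K : ℕ → ℕ)
    (hN : NodeD ε v K) (G : Type) [Group G] (m : ℕ) (hG : PdgE G m) (D : Dat G (m + 1))
    (D1 : Sy1 m G →₀ ℚ)
    (hD : D.ch (fun j => ε (D.N j) (D.p j)) + chn1 m G D1 ∈
      LinearMap.range (bdS (LaurentPolynomial (MonoidAlgebra ℤ G)) (m + 3)) ⊔
        Kil (MonoidAlgebra ℤ G) (m + 3))
    (L : ℕ → (Fin (m + 1 + 2) → G) → G → ℚ) (hL : FamC (m + 1) L) :
    ∑ j ∈ D.s, D.q j * evc (fun z : Cen (D.φ j (gen (D.N j))) => (z : G)) (L (D.p j)) (D.w j)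
      (D.φ j (gen (D.N j))) = 0 := by
  have key : ∀ n0 : ℕ, [NeZero n0] →
      ∑ j ∈ D.s with D.N j = n0, D.q j *
        evc (fun z : Cen (D.φ j (gen (D.N j))) => (z : G)) (L (D.p j)) (D.w j)
          (D.φ j (gen (D.N j))) = 0 := by
    intro n0 hn0
    obtain ⟨Q, hQ⟩ := hrle G m n0 (Nat.pos_of_ne_zero (NeZero.ne n0)) hG D D1
      (fun j => ε (D.N j) (D.p j)) (fun j p _ => v (D.N j) (D.p j) p)
      (fun j => hN.loc (D.N j) (D.p j) (D.dvd j)) hD
    have hmap : ∀ j ∈ D.s.filter (fun j => D.N j = n0), D.p j ∈ n0.primeFactors := by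
      intro j hj
      have hj2 := (Finset.mem_filter.mp hj).2
      refine Nat.mem_primeFactors.mpr ⟨(D.prime j).out, ?_, NeZero.ne n0⟩
      have := D.dvd j
      rwa [hj2] at this
    rw [← Finset.sum_fiberwise_of_maps_to hmap]
    have hK : (K n0 : ℚ) ≠ 0 := by
      have := hN.pos n0
      exact_mod_cast this.ne'
    have h2 : (K n0 : ℚ) * ∑ p ∈ n0.primeFactors,
        ∑ j ∈ (D.s.filter (fun j => D.N j = n0)).filter (fun j => D.p j = p), D.q j *
          evc (fun z : Cen (D.φ j (gen (D.N j))) => (z : G)) (L (D.p j)) (D.w j)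
            (D.φ j (gen (D.N j))) = 0 := by
      rw [Finset.mul_sum]
      have h3 : ∀ p ∈ n0.primeFactors, (K n0 : ℚ) *
          ∑ j ∈ (D.s.filter (fun j => D.N j = n0)).filter (fun j => D.p j = p), D.q j *
            evc (fun z : Cen (D.φ j (gen (D.N j))) => (z : G)) (L (D.p j)) (D.w j)
              (D.φ j (gen (D.N j))) = Q (rsF n0 (L p)) := by
        intro p hp
        rw [← hfnb ε v K hN G (m + 1) n0 D Q hQ L hL p (Nat.prime_of_mem_primeFactors hp)
          (Nat.dvd_of_mem_primeFactors hp), Finset.filter_filter]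
        congr 1
        refine Finset.sum_congr rfl fun j hj => ?_
        have hj2 := (Finset.mem_filter.mp hj).2.2
        rw [hj2]
      rw [Finset.sum_congr rfl h3, ← FIN.Q_sum hQ]
      exact hfnc ε v K hN G (m + 1) n0 D Q hQ L hL
    exact (mul_eq_zero.mp h2).resolve_left hK
  rw [← Finset.sum_fiberwise_of_maps_to (fun j hj => Finset.mem_image_of_mem D.N hj)]
  refine Finset.sum_eq_zero fun n0 hn0 => ?_
  obtain ⟨j0, hj0, rfl⟩ := Finset.mem_image.mp hn0
  exact key (D.N j0)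

theorem t_ADE (hbre : S_BRE) (hvsu : S_VSU) (hrle : S_RLE) : S_ADE := by
  intro ε v K hNode G _ m hG A1 hA1 L hAdmL J s q N p φ c hN hp hd hφ y hrel
  classical
  obtain ⟨D1, rfl⟩ := hvsu m G y
  have hz : ∀ j, ∃ x : ZC ℚ (m + 1 + 1) (Cen (φ j (gen (N j)))), cl ℚ (m + 1 + 1) _ x = c j :=
    fun j => exists_cl (k := ℚ) (c j)
  choose z hz using hz
  have h0 := hbre ε G m A1 hA1 J s q N p φ hN hp hd hφ z 0 D1 (by
    rw [map_zero, map_zero, zero_add, ← hrel]
    congr 1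
    refine Finset.sum_congr rfl fun j _ => ?_
    rw [hz j])
  rw [map_zero, map_zero, map_zero, map_zero, zero_add] at h0
  obtain ⟨T, Lam, hTT, hFamL, hDen, hLam⟩ :=
    t_RST G (m + 1) L hAdmL (s.image fun j => φ j (gen (N j))) (by
      intro t ht
      obtain ⟨j, _, rfl⟩ := Finset.mem_image.1 ht
      exact ADP.finOrder (hN j) (φ j) _)
  obtain ⟨L', hFam, hL'⟩ := h_FCH G (m + 1) T Lam hFamL hDen
  have h1 := ADE.fin hrle (t_FNB t_FNA) (t_FNC t_FNA) ε v K hNode G m hG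
    (mkDat J s q N p φ hN hp hd hφ z) D1 h0 L' hFam
  refine Eq.trans ?_ h1
  refine Finset.sum_congr rfl fun j hj => ?_
  have h2 := hL' (p j) (φ j (gen (N j))) (hp j) (z j)
  have h3 := hLam (p j) (φ j (gen (N j))) (Finset.mem_image_of_mem _ hj)
  rw [hz j, h3] at h2
  exact congrArg (fun t => q j * t) h2.symm

end Pool.Agent.FJB
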