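import Pool.Agent.FJB.St
import Pool.Agent.FJA.P_BRF
import Pool.Agent.FJA.P_CRS
import Pool.Agent.FJA.P_PRI

/-!
# BRE: a relation in `K_(m+1)(ℤ[G]) ⊗ ℚ` with a term with coefficients `K_1` gives a relation between chains
-/

set_option autoImplicit false

open Matrix Pool.Agent.WhK Pool.Agent.Lib25 CategoryTheory Pool.Agent.FJA

noncomputable section

namespace Pool.Agent.FJB

open BRF in
/-- The bridge of the part with coefficients `K_1`. -/
theorem BRE.br (hCRS : S_CRS) {G : Type} [Group G] {m : ℕ}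
    {A1 : Src1 m G →ₗ[ℚ] KB (m + 1) (MonoidAlgebra ℤ G)} (hA : IsA1 A1) :
    (bridge (MonoidAlgebra ℤ G) (m + 1)).comp (A1.comp (val1 m G)) =
      (BK (MonoidAlgebra ℤ G) (m + 3)).mkQ.comp (chn1 m G) := by
  refine Finsupp.lhom_ext fun s r => ?_
  have h5 : val1 m G (Finsupp.single s r) = r • s.val := Finsupp.linearCombination_single ℚ r s
  have h6 : chn1 m G (Finsupp.single s r) = r • s.chn := Finsupp.linearCombination_single ℚ r s
  rw [LinearMap.comp_apply, LinearMap.comp_apply, LinearMap.comp_apply, h5, h6, map_smul,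
    map_smul, map_smul]
  congr 1
  obtain ⟨z', hz', hA'⟩ := hA (s.φ (gen s.N)) (uG s.φ s.u) s.z (adm s.φ s.u)
  have h7 : A1 s.val = KB.mk (m + 1) (MonoidAlgebra ℤ G) 1 (cl ℚ (m + 2) _ z') := hA'
  have h8 : bridge (MonoidAlgebra ℤ G) (m + 1)
      (KB.mk (m + 1) (MonoidAlgebra ℤ G) 1 (cl ℚ (m + 2) _ z')) =
      (BK (MonoidAlgebra ℤ G) (m + 3)).mkQ
        (kinS (LaurentPolynomial (MonoidAlgebra ℤ G)) (m + 3) 1
          (psi ℚ (m + 2) _ (ch ℚ (m + 2) _ z'))) :=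
    br1_of (MonoidAlgebra ℤ G) (m + 1) 1 z'
  rw [h7, h8, hz', chain_eq hCRS]
  rfl

theorem t_BRE : S_BRE := by
  have hCRS : S_CRS := t_CRS t_PRI t_BD
  intro ε0 G _ m A1 hA J s q N p φ hN hp hd hφ z x D h
  have h1 := congrArg (bridge (MonoidAlgebra ℤ G) (m + 1)) h
  have h2 : bridge (MonoidAlgebra ℤ G) (m + 1) (tau (m + 1) G (cl ℚ (m + 1 + 1) _ x)) =
      (BK (MonoidAlgebra ℤ G) (m + 3)).mkQ
        (kinS (LaurentPolynomial (MonoidAlgebra ℤ G)) (m + 3) 1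
          (hmap ℚ (gl1 mon) (m + 3) (psi ℚ (m + 1 + 1) _ (ch ℚ (m + 1 + 1) _ x)))) :=
    bridge_mk (MonoidAlgebra ℤ G) (m + 1) 1 (gl1 mon) x
  have h3 : bridge (MonoidAlgebra ℤ G) (m + 1)
      (∑ j ∈ s, q j • KB.mk (m + 1) (MonoidAlgebra ℤ G) (ε0 (N j) (p j)).n
        (HQ.map (m + 1 + 1) (rhoC (ε0 (N j) (p j)) (φ j)) (cl ℚ (m + 1 + 1) _ (z j)))) =
      (BK (MonoidAlgebra ℤ G) (m + 3)).mkQ
        ((mkDat J s q N p φ hN hp hd hφ z).ch (fun j => ε0 (N j) (p j))) := by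
    unfold Dat.ch
    rw [map_sum, map_sum]
    refine Finset.sum_congr rfl fun j _ => ?_
    rw [map_smul, map_smul]
    congr 1
    exact bridge_mk (MonoidAlgebra ℤ G) (m + 1) _ (rhoC (ε0 (N j) (p j)) (φ j)) (z j)
  have h5 := LinearMap.congr_fun (BRE.br hCRS hA) D
  rw [LinearMap.comp_apply, LinearMap.comp_apply, LinearMap.comp_apply] at h5
  rw [map_add, map_add, map_zero, h2, h3, h5, ← map_add, ← map_add, Submodule.mkQ_apply,
    Submodule.Quotient.mk_eq_zero] at h1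
  exact h1

end Pool.Agent.FJB
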