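import Pool.Agent.FJB.St
import Pool.Agent.FJA.P_DNB
import Pool.Agent.FJA.P_AVS

/-!
# DNE: reduction of denominators in degree two, with a bound for the denominators of the cochain
-/

set_option autoImplicit false

open Matrix Pool.Agent.WhK Pool.Agent.Lib25 CategoryTheory Pool.Agent.FJA

noncomputable section

namespace Pool.Agent.FJB

namespace DNE

variable {Γ : Type}

theorem avS_int (Pt : List Γ → Γ → Finset Γ) (Y : List Γ) (y : Γ) (q : ℕ)
    (hq : (Pt Y y).card ∣ q) (x : Γ) : ∃ z : ℤ, (q : ℚ) * avS Pt Y y x = z := by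
  classical
  obtain ⟨k, rfl⟩ := hq
  by_cases hx : x ∈ Pt Y y
  · refine ⟨k, ?_⟩
    have h0 : ((Pt Y y).card : ℚ) ≠ 0 := by
      have : 0 < (Pt Y y).card := Finset.card_pos.2 ⟨x, hx⟩
      exact_mod_cast this.ne'
    unfold avS
    rw [Finsupp.finsetSum_apply]
    simp only [Finsupp.single_apply]
    rw [Finset.sum_ite_eq' (Pt Y y) x, if_pos hx]
    push_cast
    field_simp
  · refine ⟨0, ?_⟩
    unfold avS
    rw [Finsupp.finsetSum_apply]
    simp only [Finsupp.single_apply]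
    rw [Finset.sum_ite_eq' (Pt Y y) x, if_neg hx]
    simp

theorem sum_int {ι : Type*} (s : Finset ι) (f : ι → ℚ) (h : ∀ i ∈ s, ∃ z : ℤ, f i = z) :
    ∃ z : ℤ, ∑ i ∈ s, f i = z := by
  classical
  induction s using Finset.induction_on with
  | empty => exact ⟨0, by simp⟩
  | insert a s ha ih =>
    obtain ⟨z1, h1⟩ := h a (Finset.mem_insert_self a s)
    obtain ⟨z2, h2⟩ := ih fun i hi => h i (Finset.mem_insert_of_mem hi)
    refine ⟨z1 + z2, ?_⟩
    rw [Finset.sum_insert ha, h1, h2]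
    push_cast
    rfl

theorem prod_int {ι : Type*} (s : Finset ι) (f : ι → ℚ) (h : ∀ i ∈ s, ∃ z : ℤ, f i = z) :
    ∃ z : ℤ, ∏ i ∈ s, f i = z := by
  classical
  induction s using Finset.induction_on with
  | empty => exact ⟨1, by simp⟩
  | insert a s ha ih =>
    obtain ⟨z1, h1⟩ := h a (Finset.mem_insert_self a s)
    obtain ⟨z2, h2⟩ := ih fun i hi => h i (Finset.mem_insert_of_mem hi)
    refine ⟨z1 * z2, ?_⟩
    rw [Finset.prod_insert ha, h1, h2]
    push_cast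
    rfl

theorem mex_int {M : ℕ} (Fn : (Fin M → Γ) → ℚ) (c : Fin M → (Γ →₀ ℚ)) (q A : ℕ)
    (hc : ∀ i x, ∃ z : ℤ, (q : ℚ) * c i x = z) (hF : ∀ x, ∃ z : ℤ, (A : ℚ) * Fn x = z) :
    ∃ z : ℤ, ((A * q ^ M : ℕ) : ℚ) * mex Fn c = z := by
  rw [MEX.mex_def, Finset.mul_sum]
  refine sum_int _ _ fun x _ => ?_
  obtain ⟨z1, h1⟩ := prod_int Finset.univ (fun i => (q : ℚ) * c i (x i)) fun i _ => hc i (x i)
  obtain ⟨z2, h2⟩ := hF x
  refine ⟨z1 * z2, ?_⟩
  rw [Finset.prod_mul_distrib, Finset.prod_const, Finset.card_univ, Fintype.card_fin] at h1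
  push_cast
  rw [← h1, ← h2]
  ring

/-- the denominators of `ll` -/
theorem ll_int {D mm : ℕ} {Fy : (Fin 3 → Γ) → ℚ} (hF : DNB.Oc D Fy) (hD : 0 < D) (hm : 0 < mm)
    (P : Fin 2 → Finset Γ) (h : ∀ i, DNB.Ok mm (P i)) (b : Fin 2 → Γ) :
    ∃ z : ℤ, ((D * mm : ℕ) : ℚ) * DNB.ll D mm Fy P b = z := by
  obtain ⟨z1, h1⟩ := DNB.c01_int hF (h 0) (b 0) (b 1)
  have hD' : (D : ℚ) ≠ 0 := by exact_mod_cast hD.ne'
  have hm' : (mm : ℚ) ≠ 0 := by exact_mod_cast hm.ne'
  refine ⟨z1 + ⌊(D : ℚ) * DNB.g10 mm Fy (P 0) (P 1) (b 1)⌋, ?_⟩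
  unfold DNB.ll DNB.c10
  push_cast
  rw [← h1]
  field_simp

end DNE

open DNB in
theorem t_DNE : S_DNE := by
  classical
  have havs : S_AVS := t_AVS
  intro Γ _ Pt dl hP S F hS hF
  obtain ⟨hsec, -, -⟩ := havs Γ Pt dl hP
  obtain ⟨D, hD, hden⟩ := hF.den
  refine ⟨D, hD, fun mm hmm => ?_⟩
  let L : (Fin 2 → List Γ) → Γ → ℚ := fun Y y =>
    if (∀ i, Y i ≠ []) ∧ IsOfFinOrder y ∧ ∀ i, Good mm (Y i) y then
      mex (ll D mm (fun a => F a y) fun i => Pt (Y i) y) fun i => avS Pt (Y i) y else 0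
  have hL : ∀ Y y, (∀ i, Y i ≠ []) → IsOfFinOrder y → (∀ i, Good mm (Y i) y) →
      L Y y = mex (ll D mm (fun a => F a y) fun i => Pt (Y i) y) fun i => avS Pt (Y i) y :=
    fun Y y h1 h2 h3 => if_pos ⟨h1, h2, h3⟩
  have hL0 : ∀ Y y, ¬ ((∀ i, Y i ≠ []) ∧ IsOfFinOrder y ∧ ∀ i, Good mm (Y i) y) → L Y y = 0 :=
    fun Y y h => if_neg h
  have hoc0 : ∀ y, Oc D (fun a => F a y) := by
    intro y
    refine ⟨fun b => hden b y, ?_⟩
    intro b0 b1 b2 b3
    have h4 := hF.coc ![b0, b1, b2, b3] y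
    rw [Fin.sum_univ_four] at h4
    have s0 : (fun j => ![b0, b1, b2, b3] ((0 : Fin 4).succAbove j)) = ![b1, b2, b3] := by
      funext j
      fin_cases j <;> rfl
    have s1 : (fun j => ![b0, b1, b2, b3] ((1 : Fin 4).succAbove j)) = ![b0, b2, b3] := by
      funext j
      fin_cases j <;> rfl
    have s2 : (fun j => ![b0, b1, b2, b3] ((2 : Fin 4).succAbove j)) = ![b0, b1, b3] := by
      funext j
      fin_cases j <;> rfl
    have s3 : (fun j => ![b0, b1, b2, b3] ((3 : Fin 4).succAbove j)) = ![b0, b1, b2] := by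
      funext j
      fin_cases j <;> rfl
    rw [s0, s1, s2, s3] at h4
    have e3 : ((3 : Fin 4) : ℕ) = 3 := rfl
    rw [e3] at h4
    norm_num at h4
    change F ![b1, b2, b3] y - F ![b0, b2, b3] y + F ![b0, b1, b3] y - F ![b0, b1, b2] y = 0
    linarith
  refine ⟨L, ⟨?_, ?_, ?_, ?_⟩, ?_⟩
  · intro γ Y y
    have hiff : ((∀ i, (Y i).map (γ * ·) ≠ []) ∧ IsOfFinOrder (γ * y * γ⁻¹) ∧
        ∀ i, Good mm ((Y i).map (γ * ·)) (γ * y * γ⁻¹)) ↔
        ((∀ i, Y i ≠ []) ∧ IsOfFinOrder y ∧ ∀ i, Good mm (Y i) y) := by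
      rw [fin_conj]
      simp only [good_map, ne_eq, List.map_eq_nil_iff]
    by_cases hc : (∀ i, Y i ≠ []) ∧ IsOfFinOrder y ∧ ∀ i, Good mm (Y i) y
    · obtain ⟨h1, h2, h3⟩ := hc
      obtain ⟨h1', h2', h3'⟩ := hiff.2 ⟨h1, h2, h3⟩
      rw [hL _ _ h1' h2' h3', hL _ _ h1 h2 h3]
      have e1 : (fun i => avS Pt ((Y i).map (γ * ·)) (γ * y * γ⁻¹)) =
          fun i => (avS Pt (Y i) y).mapDomain (γ * ·) := by
        funext i
        exact hsec.inv γ (Y i) y h2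
      rw [e1, MEX.change _ _ _ (mul_right_injective γ)]
      congr 1
      funext b
      refine ll_move (γ * ·) _ _ _ ?_ ?_ b
      · intro i f
        exact avg_map hP γ (Y i) y (h1 i) h2 f
      · intro b
        exact hF.inv γ b y
    · rw [hL0 _ _ hc, hL0 _ _ fun h => hc (hiff.1 h)]
  · intro Y y h1 h2
    have hne : ∀ i, rotL y (Y i) ≠ [] := by
      intro i h
      exact h1 i (rotL_inj y h)
    by_cases hc : ∀ i, Good mm (Y i) y
    · rw [hL _ _ hne h2 fun i => (good_rot mm (Y i) y).2 (hc i), hL _ _ h1 h2 hc]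
      have e1 : (fun i => avS Pt (rotL y (Y i)) y) = fun i => avS Pt (Y i) y := by
        funext i
        unfold avS
        rw [hP.rot (Y i) y (h1 i) h2]
      have e2 : (fun i => Pt (rotL y (Y i)) y) = fun i => Pt (Y i) y := by
        funext i
        exact hP.rot (Y i) y (h1 i) h2
      rw [e1, e2]
    · rw [hL0 _ _ fun h => hc h.2.2, hL0 _ _ fun h => hc fun i => (good_rot mm (Y i) y).1 (h.2.2 i)]
  · intro Y y h
    by_cases hc : (∀ i, Y i ≠ []) ∧ IsOfFinOrder y ∧ ∀ i, Good mm (Y i) y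
    · refine ⟨hc.1, ?_⟩
      by_contra hno
      push Not at hno
      apply h
      rw [hL _ _ hc.1 hc.2.1 hc.2.2]
      refine MEX.vanish _ _ fun x _ => ?_
      exact ll_zero _ hno x
    · exact absurd (hL0 _ _ hc) h
  · intro Y y h1 h2 h3
    have hok : ∀ i, Ok mm (Pt (Y i) y) := fun i =>
      ⟨hP.ne (Y i) y (h1 i) h2, card_dvd hP (h1 i) h2 (h3 i)⟩
    have hoc : Oc D (fun a => F a y) := hoc0 y
    let _ : Inhabited Γ := ⟨1⟩
    obtain ⟨z, hz⟩ := core (Fy := fun a => F a y) hoc hD hmm (fun i => Pt (Y i) y) hok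
    refine ⟨z, ?_⟩
    set c : Fin 3 → (Γ →₀ ℚ) := fun i => avS Pt (Y i) y with hcdef
    have haug : ∀ i, aug (c i) = 1 := fun i => hsec.aug (Y i) y h2 (h1 i)
    have hLi : ∀ i : Fin 3, L (fun j => Y (i.succAbove j)) y =
        mex (fun a => ll D mm (fun a => F a y) (fun j => Pt (Y (i.succAbove j)) y)
          fun j => a (i.succAbove j)) c := by
      intro i
      rw [hL _ _ (fun j => h1 _) h2 (fun j => h3 _)]
      exact (MEX.delete (ll D mm (fun a => F a y) fun j => Pt (Y (i.succAbove j)) y) c i haug).symm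
    have hmain : mA Pt F Y y = mex (fun a => F a y) c := rfl
    rw [hmain, Finset.sum_congr rfl fun i _ => by rw [hLi i]]
    rw [← MEX.linear (Fin 3) Finset.univ (fun i => (-1 : ℚ) ^ (i : ℕ))
      (fun i a => ll D mm (fun a => F a y) (fun j => Pt (Y (i.succAbove j)) y)
        fun j => a (i.succAbove j)) c]
    rw [MEX.mex_def, MEX.mex_def, ← Finset.sum_sub_distrib, Finset.mul_sum]
    have h5 : ∀ a ∈ Fintype.piFinset fun i => (c i).support,
        ((D * mm : ℕ) : ℚ) * ((∏ i, c i (a i)) * F a y - (∏ i, c i (a i)) *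
          ∑ i : Fin 3, (-1 : ℚ) ^ (i : ℕ) *
            ll D mm (fun a => F a y) (fun j => Pt (Y (i.succAbove j)) y)
              fun j => a (i.succAbove j)) =
        (∏ i, c i (a i)) * z := by
      intro a _
      rw [← hz a]
      ring
    rw [Finset.sum_congr rfl h5, ← Finset.sum_mul, ← Finset.prod_univ_sum]
    have h6 : ∀ i, ∑ x ∈ (c i).support, c i x = 1 := fun i => haug i
    rw [Finset.prod_congr rfl fun i _ => h6 i, Finset.prod_const_one, one_mul]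
  · intro q Y y hq hcard
    by_cases hc : (∀ i, Y i ≠ []) ∧ IsOfFinOrder y ∧ ∀ i, Good mm (Y i) y
    · obtain ⟨h1, h2, h3⟩ := hc
      rw [hL _ _ h1 h2 h3]
      have hok : ∀ i, Ok mm (Pt (Y i) y) := fun i =>
        ⟨hP.ne (Y i) y (h1 i) h2, card_dvd hP (h1 i) h2 (h3 i)⟩
      refine DNE.mex_int _ _ q (D * mm) (fun i x => ?_) fun x => ?_
      · exact DNE.avS_int Pt (Y i) y q (hcard h1 h2 i) x
      · exact DNE.ll_int (hoc0 y) hD hmm _ hok x
    · refine ⟨0, ?_⟩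
      rw [hL0 _ _ hc]
      simp

end Pool.Agent.FJB
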