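import Pool.Agent.FJB.St
import Pool.Agent.FJA.P_MEX
import Pool.Agent.FJA.P_PRI

/-!
# FJB, module EHI: decomposition of the prism function
-/

set_option autoImplicit false

open Matrix Pool.Agent.WhK Pool.Agent.Lib25 CategoryTheory Pool.Agent.FJA

noncomputable section

namespace Pool.Agent.FJB

namespace EHI

variable {Γ C : Type} [Group Γ] [Group C] [Fintype C]

/-- the augmentation as a linear map -/
def augL (Γ : Type) : (Γ →₀ ℚ) →ₗ[ℚ] ℚ := Finsupp.linearCombination ℚ fun _ => (1 : ℚ)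

omit [Group Γ] in
theorem augL_apply (c : Γ →₀ ℚ) : augL Γ c = aug c := by
  unfold augL aug
  rw [Finsupp.linearCombination_apply]
  simp

omit [Group Γ] in
theorem augL_map (g : Γ → Γ) (c : Γ →₀ ℚ) : augL Γ (c.mapDomain g) = augL Γ c := by
  unfold augL
  rw [Finsupp.linearCombination_mapDomain]
  rfl

theorem aug_avL (f : C →* Γ) (c : Γ →₀ ℚ) : aug (avL f c) = aug c := by
  rw [← augL_apply, ← augL_apply]
  unfold avL
  rw [map_smul, map_sum]
  simp only [augL_map]
  rw [Finset.sum_const, Finset.card_univ, nsmul_eq_mul, smul_eq_mul, ← mul_assoc, inv_mul_cancel₀,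
    one_mul]
  exact_mod_cast Fintype.card_ne_zero

/-- one tuple -/
theorem one (f : C →* Γ) {σ : Γ →* Multiplicative ℤ} {M : ℕ} {F : (Fin (M + 2) → Γ) → Γ → ℚ}
    (hF : Coch σ (M + 1) F) (y : Γ) (x : Fin (M + 2) → (Γ →₀ ℚ)) (hx : ∀ i, aug (x i) = 1) :
    mex (fun a => F a y) x = mex (fun a => F a y) (fun l => avL f (x l)) +
      ∑ i : Fin (M + 2), (-1 : ℚ) ^ (i : ℕ) * gh f F y (fun j => x (i.succAbove j)) := by
  set A : (Fin (M + 2) → (Γ →₀ ℚ)) → ℚ := fun c => mex (fun a => F a y) c with hA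
  set L : ((Fin (M + 2) → (Γ →₀ ℚ)) →₀ ℚ) →ₗ[ℚ] ℚ := Finsupp.linearCombination ℚ A with hL
  have key := congrArg L (t_PRI ℚ (Γ →₀ ℚ) (Γ →₀ ℚ) (avL f) id (M + 1) (Finsupp.single x 1))
  have h0 : L (bd ℚ (Γ →₀ ℚ) (M + 2) (prism ℚ (avL f) id (M + 2) (Finsupp.single x 1))) = 0 := by
    unfold prism bd
    rw [Finsupp.linearCombination_single, one_smul, map_sum, map_sum]
    refine Finset.sum_eq_zero fun i _ => ?_
    rw [Finsupp.linearCombination_single, map_smul, map_sum]
    have h3 := SCH.closed t_MEX hF y (mix (avL f) id x i)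
      (fun j => SCH.mix_all (avL f) id x i j (fun c => aug c = 1)
        (fun l => by rw [aug_avL]; exact hx l) (fun l => hx l))
    have h4 : ∑ l : Fin (M + 1 + 2), L (Finsupp.single
        (fun j => mix (avL f) id x i (l.succAbove j)) ((-1 : ℚ) ^ (l : ℕ))) = 0 := by
      rw [← h3]
      refine Finset.sum_congr rfl fun l _ => ?_
      rw [hL, Finsupp.linearCombination_single, smul_eq_mul]
    rw [h4, smul_zero]
  have hB : L (hmap ℚ id (M + 2) (Finsupp.single x (1 : ℚ))) = A x := by
    unfold hmap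
    rw [Finsupp.lmapDomain_apply, Finsupp.mapDomain_single, hL, Finsupp.linearCombination_single,
      one_smul]
    rfl
  have hB' : L (hmap ℚ (avL f) (M + 2) (Finsupp.single x (1 : ℚ))) = A (fun l => avL f (x l)) := by
    unfold hmap
    rw [Finsupp.lmapDomain_apply, Finsupp.mapDomain_single, hL, Finsupp.linearCombination_single,
      one_smul]
  have hD : L (prism ℚ (avL f) id (M + 1) (bd ℚ (Γ →₀ ℚ) (M + 1) (Finsupp.single x 1))) =
      ∑ i : Fin (M + 2), (-1 : ℚ) ^ (i : ℕ) * gh f F y (fun j => x (i.succAbove j)) := by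
    unfold prism bd
    rw [Finsupp.linearCombination_single, one_smul, map_sum, map_sum]
    refine Finset.sum_congr rfl fun i _ => ?_
    rw [Finsupp.linearCombination_single, map_smul, map_sum, smul_eq_mul]
    congr 1
    unfold gh
    refine Finset.sum_congr rfl fun j _ => ?_
    rw [hL, Finsupp.linearCombination_single, smul_eq_mul]
  rw [map_sub, map_sub, h0, hB, hB', hD] at key
  have h5 : A x = A (fun l => avL f (x l)) +
      ∑ i : Fin (M + 2), (-1 : ℚ) ^ (i : ℕ) * gh f F y (fun j => x (i.succAbove j)) := by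
    linarith
  exact h5

/-- the prism identity for a function on tuples -/
theorem two {V : Type} {M : ℕ} (G : (Fin (M + 1) → V) → ℚ) (v : Fin (M + 1) → V × V) :
    ∑ j : Fin (M + 1), (-1 : ℚ) ^ (j : ℕ) * ∑ i : Fin (M + 2), (-1 : ℚ) ^ (i : ℕ) *
        G (fun l => mix Prod.snd Prod.fst v j (i.succAbove l)) =
      G (fun i => (v i).1) - G (fun i => (v i).2) -
      ∑ i : Fin (M + 1), (-1 : ℚ) ^ (i : ℕ) * ∑ j : Fin M, (-1 : ℚ) ^ (j : ℕ) *
        G (mix Prod.snd Prod.fst (fun l => v (i.succAbove l)) j) := by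
  set L : ((Fin (M + 1) → V) →₀ ℚ) →ₗ[ℚ] ℚ := Finsupp.linearCombination ℚ G with hL
  have key := congrArg L (t_PRI ℚ (V × V) V Prod.snd Prod.fst M (Finsupp.single v 1))
  have h0 : L (bd ℚ V (M + 1) (prism ℚ Prod.snd Prod.fst (M + 1) (Finsupp.single v 1))) =
      ∑ j : Fin (M + 1), (-1 : ℚ) ^ (j : ℕ) * ∑ i : Fin (M + 2), (-1 : ℚ) ^ (i : ℕ) *
        G (fun l => mix Prod.snd Prod.fst v j (i.succAbove l)) := by
    unfold prism bd
    rw [Finsupp.linearCombination_single, one_smul, map_sum, map_sum]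
    refine Finset.sum_congr rfl fun i _ => ?_
    rw [Finsupp.linearCombination_single, map_smul, map_sum, smul_eq_mul]
    congr 1
    refine Finset.sum_congr rfl fun l _ => ?_
    rw [hL, Finsupp.linearCombination_single, smul_eq_mul]
  have hB : L (hmap ℚ Prod.fst (M + 1) (Finsupp.single v (1 : ℚ))) = G (fun i => (v i).1) := by
    unfold hmap
    rw [Finsupp.lmapDomain_apply, Finsupp.mapDomain_single, hL, Finsupp.linearCombination_single,
      one_smul]
  have hB' : L (hmap ℚ Prod.snd (M + 1) (Finsupp.single v (1 : ℚ))) = G (fun i => (v i).2) := by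
    unfold hmap
    rw [Finsupp.lmapDomain_apply, Finsupp.mapDomain_single, hL, Finsupp.linearCombination_single,
      one_smul]
  have hD : L (prism ℚ Prod.snd Prod.fst M (bd ℚ (V × V) M (Finsupp.single v 1))) =
      ∑ i : Fin (M + 1), (-1 : ℚ) ^ (i : ℕ) * ∑ j : Fin M, (-1 : ℚ) ^ (j : ℕ) *
        G (mix Prod.snd Prod.fst (fun l => v (i.succAbove l)) j) := by
    unfold prism bd
    rw [Finsupp.linearCombination_single, one_smul, map_sum, map_sum]
    refine Finset.sum_congr rfl fun i _ => ?_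
    rw [Finsupp.linearCombination_single, map_smul, map_sum, smul_eq_mul]
    congr 1
    refine Finset.sum_congr rfl fun j _ => ?_
    rw [hL, Finsupp.linearCombination_single, smul_eq_mul]
  rw [map_sub, map_sub, h0, hB, hB', hD] at key
  exact key

end EHI

theorem t_EHI : S_EHI := by
  intro Γ C _ _ _ f σ M F hF y v h1 h2
  have hm : ∀ j : Fin (M + 1), mex (fun a => F a y) (mix Prod.snd Prod.fst v j) =
      mex (fun a => F a y) (fun l => avL f (mix Prod.snd Prod.fst v j l)) +
      ∑ i : Fin (M + 2), (-1 : ℚ) ^ (i : ℕ) *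
        gh f F y (fun l => mix Prod.snd Prod.fst v j (i.succAbove l)) := fun j =>
    EHI.one f hF y _ (fun i => SCH.mix_all Prod.snd Prod.fst v j i (fun c => aug c = 1) h2 h1)
  have h3 := EHI.two (gh f F y) v
  unfold SCH.EE
  rw [Finset.sum_congr rfl fun j _ => by rw [hm j, mul_add], Finset.sum_add_distrib, h3]
  unfold hh
  ring

end Pool.Agent.FJB
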