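import Pool.Agent.FJB.St
import Pool.Agent.FJA.P_MEX

/-!
# GHP: properties of `avL`, `gh`, `hh`
-/

set_option autoImplicit false

open Matrix Pool.Agent.WhK Pool.Agent.Lib25 CategoryTheory Pool.Agent.FJA

noncomputable section

namespace Pool.Agent.FJB

namespace GHP

variable {Γ C : Type} [Group Γ] [Group C] [Fintype C]

/-- `avL` as a linear map -/
def avLin (f : C →* Γ) : (Γ →₀ ℚ) →ₗ[ℚ] (Γ →₀ ℚ) :=
  (Fintype.card C : ℚ)⁻¹ • ∑ t : C, Finsupp.lmapDomain ℚ ℚ (fun x => f t * x)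

theorem avLin_apply (f : C →* Γ) (c : Γ →₀ ℚ) : avLin f c = avL f c := by
  unfold avLin avL
  rw [LinearMap.smul_apply, LinearMap.sum_apply]
  rfl

/-- `aug` as a linear map -/
def augLin (Γ : Type) : (Γ →₀ ℚ) →ₗ[ℚ] ℚ := Finsupp.linearCombination ℚ (fun _ => (1 : ℚ))

theorem augLin_apply (c : Γ →₀ ℚ) : augLin Γ c = aug c := by
  unfold augLin aug
  rw [Finsupp.linearCombination_apply]
  simp only [smul_eq_mul, mul_one]

theorem aug_mapDomain (g : Γ → Γ) (c : Γ →₀ ℚ) : aug (c.mapDomain g) = aug c := by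
  unfold aug
  exact Finsupp.sum_mapDomain_index (fun _ => rfl) (fun _ _ _ => rfl)

theorem card_ne : (Fintype.card C : ℚ) ≠ 0 := by
  have h : 0 < Fintype.card C := Fintype.card_pos_iff.mpr ⟨1⟩
  exact_mod_cast h.ne'

theorem aug_avL (f : C →* Γ) (c : Γ →₀ ℚ) : aug (avL f c) = aug c := by
  unfold avL
  rw [← augLin_apply, map_smul, map_sum]
  have h : ∀ t ∈ (Finset.univ : Finset C),
      augLin Γ (c.mapDomain (fun x => f t * x)) = aug c := by
    intro t _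
    rw [augLin_apply]
    exact aug_mapDomain _ c
  rw [Finset.sum_congr rfl h, Finset.sum_const, Finset.card_univ, nsmul_eq_mul, smul_eq_mul,
    ← mul_assoc, inv_mul_cancel₀ card_ne, one_mul]

theorem avL_mapDomain (f : C →* Γ) (γ : Γ) (hγ : ∀ t, γ * f t = f t * γ) (c : Γ →₀ ℚ) :
    avL f (c.mapDomain (fun x => γ * x)) = (avL f c).mapDomain (fun x => γ * x) := by
  unfold avL
  rw [Finsupp.mapDomain_smul, Finsupp.mapDomain_finset_sum]
  congr 1
  refine Finset.sum_congr rfl fun t _ => ?_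
  rw [← Finsupp.mapDomain_comp, ← Finsupp.mapDomain_comp]
  congr 1
  funext x
  simp only [Function.comp]
  rw [← mul_assoc, ← mul_assoc, hγ t]

theorem avL_single (f : C →* Γ) (γ : Γ) (hγ : ∀ t, γ * f t = f t * γ) (t : C) :
    avL f (Finsupp.single (γ * f t) 1) = avL f (Finsupp.single γ 1) := by
  unfold avL
  congr 1
  simp only [Finsupp.mapDomain_single]
  refine Fintype.sum_equiv (Equiv.mulRight t) _ _ fun s => ?_
  simp only [Equiv.coe_mulRight]
  rw [hγ t, ← mul_assoc, map_mul]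

theorem avL_eq (f : C →* Γ) (γ : Γ) (hγ : ∀ t, γ * f t = f t * γ) (c : Γ →₀ ℚ)
    (hc : aug c = 1) (hs : ∀ x ∈ c.support, ∃ t : C, x = γ * f t) :
    avL f c = avL f (Finsupp.single γ 1) := by
  have h1 : c = ∑ x ∈ c.support, c x • Finsupp.single x (1 : ℚ) := by
    conv_lhs => rw [← Finsupp.sum_single c]
    unfold Finsupp.sum
    refine Finset.sum_congr rfl fun x _ => ?_
    rw [Finsupp.smul_single, smul_eq_mul, mul_one]
  have h2 : avLin f c = ∑ x ∈ c.support, c x • avL f (Finsupp.single γ 1) := by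
    conv_lhs => rw [h1]
    rw [map_sum]
    refine Finset.sum_congr rfl fun x hx => ?_
    rw [map_smul, avLin_apply]
    obtain ⟨t, rfl⟩ := hs x hx
    rw [avL_single f γ hγ t]
  rw [← avLin_apply, h2, ← Finset.sum_smul]
  have h3 : ∑ x ∈ c.support, c x = 1 := hc
  rw [h3, one_smul]

theorem mix_mapDomain (f : C →* Γ) (γ : Γ) (hγ : ∀ t, γ * f t = f t * γ) {M : ℕ}
    (c : Fin M → (Γ →₀ ℚ)) (j : Fin M) :
    mix (avL f) id (fun i => (c i).mapDomain (fun x => γ * x)) j =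
      fun l => (mix (avL f) id c j l).mapDomain (fun x => γ * x) := by
  funext l
  unfold mix
  split_ifs with h
  · exact avL_mapDomain f γ hγ _
  · rfl

theorem gh_inv (f : C →* Γ) (M : ℕ) (F : (Fin (M + 1) → Γ) → Γ → ℚ)
    (hF : ∀ (γ : Γ) (a : Fin (M + 1) → Γ) (y : Γ), F (fun i => γ * a i) (γ * y * γ⁻¹) = F a y)
    (γ : Γ) (hγ : ∀ t, γ * f t = f t * γ) (y : Γ) (c : Fin M → (Γ →₀ ℚ)) :
    gh f F (γ * y * γ⁻¹) (fun i => (c i).mapDomain (γ * ·)) = gh f F y c := by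
  unfold gh
  refine Finset.sum_congr rfl fun j _ => ?_
  congr 1
  have h1 := mix_mapDomain f γ hγ c j
  rw [h1, MEX.change _ _ _ (mul_right_injective γ)]
  congr 1
  funext a
  exact hF γ a y

theorem hh_inv (f : C →* Γ) (M : ℕ) (F : (Fin (M + 2) → Γ) → Γ → ℚ)
    (hF : ∀ (γ : Γ) (a : Fin (M + 2) → Γ) (y : Γ), F (fun i => γ * a i) (γ * y * γ⁻¹) = F a y)
    (γ : Γ) (hγ : ∀ t, γ * f t = f t * γ) (y : Γ) (v : Fin M → (Γ →₀ ℚ) × (Γ →₀ ℚ)) :
    hh f F (γ * y * γ⁻¹) (fun i => ((v i).1.mapDomain (γ * ·), (v i).2.mapDomain (γ * ·))) =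
      hh f F y v := by
  unfold hh
  refine Finset.sum_congr rfl fun j _ => ?_
  congr 1
  have h1 : (mix Prod.snd Prod.fst
      (fun i => ((v i).1.mapDomain (fun x => γ * x), (v i).2.mapDomain (fun x => γ * x))) j) =
      fun l => (mix Prod.snd Prod.fst v j l).mapDomain (fun x => γ * x) := by
    funext l
    unfold mix
    split_ifs with h
    · rfl
    · rfl
  rw [h1]
  exact gh_inv f (M + 1) F hF γ hγ y _

theorem gh_zero (f : C →* Γ) (M : ℕ) (F : (Fin (M + 1) → Γ) → Γ → ℚ) (y : Γ)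
    (hF : ∀ a, F a y = 0) (c : Fin M → (Γ →₀ ℚ)) : gh f F y c = 0 := by
  unfold gh
  refine Finset.sum_eq_zero fun j _ => ?_
  rw [MEX.vanish _ _ fun x _ => hF x, mul_zero]

theorem hh_zero (f : C →* Γ) (M : ℕ) (F : (Fin (M + 2) → Γ) → Γ → ℚ) (y : Γ)
    (hF : ∀ a, F a y = 0) (v : Fin M → (Γ →₀ ℚ) × (Γ →₀ ℚ)) : hh f F y v = 0 := by
  unfold hh
  refine Finset.sum_eq_zero fun j _ => ?_
  rw [gh_zero f (M + 1) F y hF, mul_zero]

theorem avL_denom (f : C →* Γ) (c : Γ →₀ ℚ) (b : ℕ)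
    (hc : ∀ x, ∃ z : ℤ, (b : ℚ) * c x = z) (x : Γ) :
    ∃ z : ℤ, ((Fintype.card C * b : ℕ) : ℚ) * avL f c x = z := by
  choose z hz using hc
  refine ⟨∑ t : C, z ((f t)⁻¹ * x), ?_⟩
  unfold avL
  rw [Finsupp.smul_apply, Finsupp.finset_sum_apply, smul_eq_mul]
  push_cast
  have h1 : ∀ t ∈ (Finset.univ : Finset C),
      (c.mapDomain (fun x => f t * x)) x = c ((f t)⁻¹ * x) := by
    intro t _
    have h2 := Finsupp.mapDomain_apply (mul_right_injective (f t)) c ((f t)⁻¹ * x)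
    simp only [mul_inv_cancel_left] at h2
    exact h2
  rw [Finset.sum_congr rfl h1]
  calc (Fintype.card C : ℚ) * (b : ℚ) * ((Fintype.card C : ℚ)⁻¹ * ∑ t : C, c ((f t)⁻¹ * x))
      = ((Fintype.card C : ℚ) * (Fintype.card C : ℚ)⁻¹) *
          ((b : ℚ) * ∑ t : C, c ((f t)⁻¹ * x)) := by ring
    _ = (b : ℚ) * ∑ t : C, c ((f t)⁻¹ * x) := by
        rw [mul_inv_cancel₀ card_ne, one_mul]
    _ = ∑ t : C, (z ((f t)⁻¹ * x) : ℚ) := by
        rw [Finset.mul_sum]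
        exact Finset.sum_congr rfl fun t _ => hz _

theorem gh_denom (f : C →* Γ) (M : ℕ) (F : (Fin (M + 1) → Γ) → Γ → ℚ) (y : Γ)
    (c : Fin M → (Γ →₀ ℚ)) (D b : ℕ) (hF : ∀ a, ∃ z : ℤ, (D : ℚ) * F a y = z)
    (hc : ∀ i x, ∃ z : ℤ, (b : ℚ) * c i x = z) :
    ∃ z : ℤ, ((D * (Fintype.card C * b) ^ (M + 1) : ℕ) : ℚ) * gh f F y c = z := by
  have h1 : ∀ j : Fin M, ∃ z : ℤ, ((D * (Fintype.card C * b) ^ (M + 1) : ℕ) : ℚ) *
      mex (fun a => F a y) (mix (avL f) id c j) = z := by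
    intro j
    refine MEX.denom (fun a => F a y) (mix (avL f) id c j) D (Fintype.card C * b) hF ?_
    intro i x
    unfold mix
    split_ifs with h
    · exact avL_denom f _ b (hc _) x
    · obtain ⟨z, hz⟩ := hc (j.predAbove i) x
      refine ⟨(Fintype.card C : ℤ) * z, ?_⟩
      push_cast
      rw [id, ← hz]
      ring
  choose z hz using h1
  refine ⟨∑ j : Fin M, (-1 : ℤ) ^ (j : ℕ) * z j, ?_⟩
  unfold gh
  rw [Finset.mul_sum]
  push_cast
  refine Finset.sum_congr rfl fun j _ => ?_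
  rw [← hz j]
  push_cast
  ring

theorem gh_add (f : C →* Γ) (M : ℕ) (F F' : (Fin (M + 1) → Γ) → Γ → ℚ) (y : Γ)
    (c : Fin M → (Γ →₀ ℚ)) :
    gh f (fun a y => F a y + F' a y) y c = gh f F y c + gh f F' y c := by
  unfold gh
  rw [← Finset.sum_add_distrib]
  refine Finset.sum_congr rfl fun j _ => ?_
  rw [← mul_add]
  congr 1
  rw [MEX.mex_def, MEX.mex_def, MEX.mex_def, ← Finset.sum_add_distrib]
  refine Finset.sum_congr rfl fun x _ => ?_
  ring

theorem gh_mul (f : C →* Γ) (M : ℕ) (r : ℚ) (F : (Fin (M + 1) → Γ) → Γ → ℚ) (y : Γ)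
    (c : Fin M → (Γ →₀ ℚ)) :
    gh f (fun a y => r * F a y) y c = r * gh f F y c := by
  unfold gh
  rw [Finset.mul_sum]
  refine Finset.sum_congr rfl fun j _ => ?_
  rw [MEX.mex_def, MEX.mex_def, Finset.mul_sum, Finset.mul_sum, Finset.mul_sum]
  refine Finset.sum_congr rfl fun x _ => ?_
  ring

end GHP

theorem t_GHP : S_GHP := by
  intro Γ C _ _ _ f
  exact ⟨fun M F hF γ hγ y c => GHP.gh_inv f M F hF γ hγ y c,
    fun M F hF γ hγ y v => GHP.hh_inv f M F hF γ hγ y v,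
    fun M F y hF => ⟨fun c => GHP.gh_zero f (M + 1) F y hF c, fun v => GHP.hh_zero f M F y hF v⟩,
    fun γ hγ c hc hs => GHP.avL_eq f γ hγ c hc hs,
    fun c => GHP.aug_avL f c,
    fun M F y c D b hF hc => GHP.gh_denom f M F y c D b hF hc,
    fun M F F' y c => GHP.gh_add f M F F' y c,
    fun M r F y c => GHP.gh_mul f M r F y c⟩

end Pool.Agent.FJB
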