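import Pool.Agent.FJB.St
import Pool.Agent.FJA.P_EVS

/-!
# Module GHT: the trace property of `ghR`
-/

set_option autoImplicit false

open Matrix Pool.Agent.WhK Pool.Agent.Lib25 CategoryTheory Pool.Agent.FJA

noncomputable section

namespace Pool.Agent.FJB

namespace GHT

section Gen

variable {Γ C : Type} [Group Γ] [Group C] [Fintype C]

theorem ghR_pos (f : C →* Γ) {M : ℕ} (F : (Fin (M + 1) → Γ) → Γ → ℚ)
    (s : List Γ → Γ → (Γ →₀ ℚ)) (μ : Rec Γ (Fin M)) (h : ∀ i, μ.lst i ≠ []) :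
    ghR f F s μ = gh f F μ.val (fun l => s (μ.lst l) μ.val) := by
  unfold ghR
  exact if_pos h

theorem ghR_neg (f : C →* Γ) {M : ℕ} (F : (Fin (M + 1) → Γ) → Γ → ℚ)
    (s : List Γ → Γ → (Γ →₀ ℚ)) (μ : Rec Γ (Fin M)) (h : ¬ ∀ i, μ.lst i ≠ []) :
    ghR f F s μ = 0 := by
  unfold ghR
  exact if_neg h

end Gen

section Cyc

variable {G : Type} [Group G] {N : ℕ} [NeZero N]

theorem emb_comm (φ : Cyc N →* G) (z : PZ (φ (gen N))) (t : Cyc N) :
    emb (φ (gen N)) z * ffC φ t = ffC φ t * emb (φ (gen N)) z := by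
  have h1 : Commute ((Cen (φ (gen N))).subtype z.1) (φ t) := commute_cyc φ z.1 t
  refine Prod.ext ?_ ?_
  · exact h1
  · exact mul_comm _ _

theorem ff_comm (φ : Cyc N →* G) (x y : Cyc N) : ffC φ x * ffC φ y = ffC φ y * ffC φ x := by
  rw [← map_mul, ← map_mul, mul_comm]

theorem tw_mul (φ : Cyc N →* G) {M r : ℕ} (X : Fin M → PZ (φ (gen N)) × Fin r)
    (μ ν : Rec (Cyc N) (Fin r)) : twX φ X (μ * ν) = twX φ X μ * twX φ X ν := by
  apply Rec.ext
  · funext l
    rw [Rec.mul_lst]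
    change ((μ.lst (X l).2 ++ (ν.lst (X l).2).map (μ.val * ·)).map fun x =>
        emb (φ (gen N)) (X l).1 * ffC φ x) =
      ((μ.lst (X l).2).map fun x => emb (φ (gen N)) (X l).1 * ffC φ x) ++
        ((ν.lst (X l).2).map fun x => emb (φ (gen N)) (X l).1 * ffC φ x).map
          (ffC φ μ.val * ·)
    rw [List.map_append, List.map_map, List.map_map]
    congr 2
    funext x
    simp only [Function.comp_apply]
    rw [map_mul, ← mul_assoc, ← mul_assoc, emb_comm]
  · change ffC φ (μ.val * ν.val) = ffC φ μ.val * ffC φ ν.val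
    rw [map_mul]

theorem ff_fin (φ : Cyc N →* G) (x : Cyc N) : IsOfFinOrder (ffC φ x) :=
  (ffC φ).isOfFinOrder (isOfFinOrder_of_finite x)

end Cyc

end GHT

open GHT in
theorem t_GHT : S_GHP → S_GHT := by
  intro hGHP G _ N _ φ M r F hF s hs hr X μ ν
  refine ⟨tw_mul φ X μ ν, ?_⟩
  have hmul := tw_mul φ X μ ν
  have hmul' := tw_mul φ X ν μ
  rw [hmul, hmul']
  have hcomm : ffC φ μ.val * ffC φ ν.val = ffC φ ν.val * ffC φ μ.val := ff_comm φ _ _
  by_cases hc : ∀ i, (twX φ X μ * twX φ X ν).lst i ≠ []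
  · have hc' := (EVS.cond_iff (twX φ X μ) (twX φ X ν)).1 hc
    rw [ghR_pos _ _ _ _ hc, ghR_pos _ _ _ _ hc']
    simp only [Rec.mul_val, Rec.mul_lst]
    have hfin : IsOfFinOrder ((twX φ X ν).val * (twX φ X μ).val) := by
      change IsOfFinOrder (ffC φ ν.val * ffC φ μ.val)
      rw [← map_mul]
      exact ff_fin φ _
    have hval : (twX φ X μ).val * ((twX φ X ν).val * (twX φ X μ).val) * (twX φ X μ).val⁻¹ =
        (twX φ X μ).val * (twX φ X ν).val := by group
    have hfin' : IsOfFinOrder ((twX φ X μ).val * (twX φ X ν).val) := by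
      change IsOfFinOrder (ffC φ μ.val * ffC φ ν.val)
      rw [← map_mul]
      exact ff_fin φ _
    have key : ∀ i, s ((twX φ X μ).lst i ++ ((twX φ X ν).lst i).map ((twX φ X μ).val * ·))
          ((twX φ X μ).val * (twX φ X ν).val) =
        (s ((twX φ X ν).lst i ++ ((twX φ X μ).lst i).map ((twX φ X ν).val * ·))
          ((twX φ X ν).val * (twX φ X μ).val)).mapDomain ((twX φ X μ).val * ·) := by
      intro i
      rw [← hs.inv _ _ _ hfin, hval, List.map_append, List.map_map,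
        EVS.rot_list (fun a Y => hr a Y _ hfin')]
      congr 3
      funext a
      simp only [Function.comp_apply]
      group
    simp only [key]
    have h1 := (hGHP (G × Multiplicative ℤ) (Cyc N) (ffC φ)).1 M F hF (twX φ X μ).val
      (fun t => ff_comm φ _ _) ((twX φ X ν).val * (twX φ X μ).val)
      (fun i => s ((twX φ X ν).lst i ++ ((twX φ X μ).lst i).map ((twX φ X ν).val * ·))
          ((twX φ X ν).val * (twX φ X μ).val))
    rw [hval] at h1
    exact h1
  · have hc' : ¬ ∀ i, (twX φ X ν * twX φ X μ).lst i ≠ [] :=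
      fun h => hc ((EVS.cond_iff _ _).2 h)
    rw [ghR_neg _ _ _ _ hc, ghR_neg _ _ _ _ hc']

end Pool.Agent.FJB
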