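import Pool.Agent.FJB.St
import Pool.Agent.FJA.P_EVS
import Pool.Agent.FJA.P_TXD

/-!
# Module LSF: the functional of `ghR f F hdS` does not depend on the level; `ghR` on powers
-/

set_option autoImplicit false

open Matrix Pool.Agent.WhK Pool.Agent.Lib25 CategoryTheory Pool.Agent.FJA

noncomputable section

namespace Pool.Agent.FJB

namespace LSF

variable {Γ C : Type} [Group Γ] [Group C] [Fintype C]

theorem ghR_pos (f : C →* Γ) {M : ℕ} (F : (Fin (M + 1) → Γ) → Γ → ℚ)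
    (s : List Γ → Γ → (Γ →₀ ℚ)) (μ : Rec Γ (Fin M)) (h : ∀ i, μ.lst i ≠ []) :
    ghR f F s μ = gh f F μ.val (fun l => s (μ.lst l) μ.val) := by
  unfold ghR
  exact if_pos h

theorem ghR_neg (f : C →* Γ) {M : ℕ} (F : (Fin (M + 1) → Γ) → Γ → ℚ)
    (s : List Γ → Γ → (Γ →₀ ℚ)) (μ : Rec Γ (Fin M)) (h : ¬ ∀ i, μ.lst i ≠ []) :
    ghR f F s μ = 0 := by
  unfold ghR
  exact if_neg h

omit [Group Γ] in
theorem hdS_append (Y Z : List Γ) (y y' : Γ) (h : Y ≠ []) : hdS (Y ++ Z) y = hdS Y y' := by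
  obtain ⟨a, Y', rfl⟩ := List.exists_cons_of_ne_nil h
  rfl

end LSF

open LSF in
theorem t_LSF : S_LSF := by
  refine ⟨?_, ?_⟩
  · intro k _ _ Γ C _ _ _ f ι _ _ M K F X hK
    refine t_TXfst k Γ ι M K (ghR f F hdS) X hK fun μ ν h => ?_
    have h1 : ∀ i, (μ * ν).lst i ≠ [] := by
      intro i
      rw [Rec.mul_lst]
      intro h2
      exact h i (List.append_eq_nil_iff.1 h2).1
    have h2 : ∀ i, (μ * Rec.inc ν.val).lst i ≠ [] := by
      intro i
      rw [Rec.mul_lst]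
      intro h2
      exact h i (List.append_eq_nil_iff.1 h2).1
    rw [ghR_pos f F hdS _ h1, ghR_pos f F hdS _ h2]
    have h3 : (μ * ν).val = (μ * Rec.inc ν.val).val := rfl
    rw [h3]
    congr 1
    funext l
    rw [Rec.mul_lst, Rec.mul_lst, hdS_append _ _ _ 1 (h l), hdS_append _ _ _ 1 (h l)]
  · intro Γ C _ _ _ f M F s e he μ
    by_cases h : ∀ i, μ.lst i ≠ []
    · have h1 : ∀ i, (μ ^ e).lst i ≠ [] := by
        intro i
        rw [EVS.pow_lst]
        exact (EVS.powL_ne e he _ _).2 (h i)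
      rw [ghR_pos f F s _ h1, ghR_pos f _ _ _ h, EVS.pow_val]
      simp only [EVS.pow_lst]
      rfl
    · have h1 : ¬ ∀ i, (μ ^ e).lst i ≠ [] := by
        intro h2
        apply h
        intro i
        have h3 := h2 i
        rw [EVS.pow_lst] at h3
        exact (EVS.powL_ne e he _ _).1 h3
      rw [ghR_neg f F s _ h1, ghR_neg f _ _ _ h]

end Pool.Agent.FJB
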