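import Pool.Agent.FJB.St
import Pool.Agent.FJA.P_CUP

/-!
# Module LVE: the level equation
-/

set_option autoImplicit false

open Matrix Pool.Agent.WhK Pool.Agent.Lib25 CategoryTheory Pool.Agent.FJA

noncomputable section

namespace Pool.Agent.FJB

namespace LVE

theorem w_mem {m : ℕ} {G : Type} [Group G] (x : Sy1 m G) :
    x.w ∈ cyc ℚ (Cen (x.φ (gen x.N))) m := by
  cases m with
  | zero => exact Submodule.mem_top
  | succ m => exact psi_ch_mem m x.z

theorem TS_chn1 (k : Type) [Field k] [CharZero k] {m : ℕ} {G : Type} [Group G]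
    (η : Rec (G × Multiplicative ℤ) (Fin (m + 3)) → ℚ) (K : ℕ) (D : Sy1 m G →₀ ℚ) :
    TS k η K (chn1 m G D) = ∑ x ∈ D.support, ((D x : ℚ) : k) * TS k η K x.chn := by
  unfold chn1
  rw [Finsupp.linearCombination_apply, Finsupp.sum, map_sum]
  refine Finset.sum_congr rfl fun x _ => ?_
  rw [map_smul, Algebra.smul_def, eq_ratCast]

theorem TS_level (hLSF : S_LSF) (k : Type) [Field k] [CharZero k] {G : Type} [Group G] {N : ℕ}
    [NeZero N] (φ : Cyc N →* G) {M : ℕ}
    (F : (Fin (M + 1) → G × Multiplicative ℤ) → G × Multiplicative ℤ → ℚ) (K : ℕ) (hK : 0 < K)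
    (z : SCh (LaurentPolynomial (MonoidAlgebra ℤ G)) M) :
    TS k (ghR (ffC φ) F hdS) K z = TS k (ghR (ffC φ) F hdS) 1 z := by
  unfold TS
  rw [Finsupp.linearCombination_apply, Finsupp.linearCombination_apply]
  refine Finsupp.sum_congr fun x _ => ?_
  rw [hLSF.1 k (G × Multiplicative ℤ) (Cyc N) (ffC φ) _ M K F _ hK]

end LVE

open LVE in
/-- The level equation. -/
theorem t_LVE : S_SLE → S_LSF → S_SCE → S_LVE := by
  intro hSLE hLSF hSCE k _ _ G _ m S F hS hF hF1 B D hB s hs K hK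
  have hC : Coch (sg2 G) (m + 3) (cup F) := (t_CUP G (m + 2) F).2 S hS hF
  obtain ⟨hnull, h2⟩ := hSCE (G × Multiplicative ℤ) (sg2 G) (m + 3) (cup F) s hC hs
  obtain ⟨h3, h4⟩ := h2 k K hK B
  rw [h4, hB _ hnull K hK, TS_chn1] at h3
  have h1 : ∀ a, cup F a 1 = 0 := by
    intro a
    have e : (1 : G × Multiplicative ℤ).2 = 1 := rfl
    unfold cup
    rw [if_pos e]
    change F _ 1 * _ = 0
    rw [hF1, zero_mul]
  have h5 : ∀ x : Sy1 m G, TS k (SCH.eta (cup F) s) K x.chn =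
      TS k (ghR (ffC x.φ) (cup F) s) K x.chn - T1 k x F := by
    intro x
    have h6 := hSLE k G x.N m K x.φ x.u x.w (w_mem x) (cup F) hC h1 s hs hK
    change TS k (SCH.eta (cup F) s) K x.chn = TS k (ghR (ffC x.φ) (cup F) s) K x.chn -
      TS k (ghR (ffC x.φ) (cup F) hdS) K x.chn at h6
    rw [TS_level hLSF k x.φ (cup F) K hK] at h6
    exact h6
  have h7 : ∑ x ∈ D.support, ((D x : ℚ) : k) * TS k (SCH.eta (cup F) s) K x.chn =
      ∑ x ∈ D.support, ((D x : ℚ) : k) * TS k (ghR (ffC x.φ) (cup F) s) K x.chn -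
        ∑ x ∈ D.support, ((D x : ℚ) : k) * T1 k x F := by
    rw [← Finset.sum_sub_distrib]
    refine Finset.sum_congr rfl fun x _ => ?_
    rw [h5 x, mul_sub]
  unfold UE T1S
  rw [h3, h7]
  ring

end Pool.Agent.FJB
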