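import Pool.Agent.FJB.St
import Pool.Agent.FJA.P_PDQ
import Pool.Agent.FJA.P_PNT
import Pool.Agent.FJA.P_AVS
import Pool.Agent.FJA.P_SUP
import Pool.Agent.FJA.P_GAQ
import Pool.Agent.FJA.P_EVQ

/-!
# PDN: the `ℓ`-adic theorem with symbols, if the `p`-torsion is bounded for every prime `p`
-/

set_option autoImplicit false

open Matrix Pool.Agent.WhK Pool.Agent.Lib25 Pool.Agent.FJA

noncomputable section

namespace Pool.Agent.FJB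

namespace PDN

open Step7 PDG

/-- The two sides of the theorem as values on chains of any level. -/
theorem levels (hlve : S_LVE) (hlsf : S_LSF) {m : ℕ} {G : Type} [Group G] {n0 : ℕ} (hn0 : 0 < n0)
    {ℓ : ℕ} [Fact ℓ.Prime] {F : (Fin (m + 3) → G) → G → ℚ}
    (hF : GCoch (m + 2) (fun y => y ^ n0 = 1) F) (hF1 : ∀ a, F a 1 = 0)
    (B : KCh ℚ_[ℓ] (G × Multiplicative ℤ) (m + 4)) (D : Sy1 m G →₀ ℚ)
    (hnull : ∀ η : Rec (G × Multiplicative ℤ) (Fin (m + 3)) → ℚ, NullFun (sg2 G) η → ∀ N : ℕ,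
      0 < N → TK ℚ_[ℓ] η N (bdK _ _ (m + 3) B) = TS ℚ_[ℓ] η N (chn1 m G D))
    (s : List (G × Multiplicative ℤ) → G × Multiplicative ℤ → (G × Multiplicative ℤ →₀ ℚ))
    (hs : Sec s) :
    (∀ N : ℕ, 0 < N → TK ℚ_[ℓ] (fst (cup F)) 1 B - T1S ℚ_[ℓ] F D =
      TK ℚ_[ℓ] (evs (cup F) s) N B - ∑ x ∈ D.support, ((D x : ℚ) : ℚ_[ℓ]) *
        TS ℚ_[ℓ] (ghR (ffC x.φ) (cup F) s) N x.chn) ∧
    ∀ N : ℕ, 0 < N → TK ℚ_[ℓ] (fst (powF ℓ (cup F))) 1 B - T1S ℚ_[ℓ] (powF ℓ F) D =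
      TK ℚ_[ℓ] (fun μ => evs (cup F) s (μ ^ ℓ)) N B - ∑ x ∈ D.support, ((D x : ℚ) : ℚ_[ℓ]) *
        TS ℚ_[ℓ] (fun μ => ghR (ffC x.φ) (cup F) s (μ ^ ℓ)) N x.chn := by
  have hprime : ℓ.Prime := Fact.out
  have hS : ∀ y : G, y ^ n0 = 1 → IsOfFinOrder y := fun y hy =>
    isOfFinOrder_iff_pow_eq_one.2 ⟨n0, hn0, hy⟩
  have hFc : Coch (sg2 G) (m + 3) (cup F) := (t_CUP G (m + 2) F).2 _ hS hF
  have hevs := t_EVS.{0} t_MEX.{0}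
  obtain ⟨-, -, e3, e4, e5, -, -⟩ := hevs (G × Multiplicative ℤ) (sg2 G) (m + 3) (cup F) s hFc hs
  refine ⟨fun N hN => hlve ℚ_[ℓ] G m (fun y => y ^ n0 = 1) F hS hF hF1 B D hnull s hs N hN,
    fun N hN => ?_⟩
  have hFp := gcoch_pow hF ℓ
  have hS' : ∀ y : G, y ^ (ℓ * n0) = 1 → IsOfFinOrder y := fun y hy =>
    isOfFinOrder_iff_pow_eq_one.2 ⟨ℓ * n0, Nat.mul_pos hprime.pos hn0, hy⟩
  have h1 := hlve ℚ_[ℓ] G m (fun y => y ^ (ℓ * n0) = 1) (powF ℓ F) hS' hFp (fun a => by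
    unfold powF
    rw [one_pow]
    exact hF1 a) B D hnull (fun Y y => s (powL ℓ Y y) (y ^ ℓ)) (e5 _ hprime.pos) N hN
  rw [← powF_cup F hprime.pos] at h1
  rw [h1]
  unfold UE
  have h6 : (fun μ => evs (cup F) s (μ ^ ℓ)) =
      evs (powF ℓ (cup F)) (fun Y y => s (powL ℓ Y y) (y ^ ℓ)) := by
    funext μ
    exact e4 _ hprime.pos μ
  rw [h6]
  congr 1
  refine Finset.sum_congr rfl fun x _ => ?_
  have h7 : (fun μ => ghR (ffC x.φ) (cup F) s (μ ^ ℓ)) =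
      ghR (ffC x.φ) (powF ℓ (cup F)) (fun Y y => s (powL ℓ Y y) (y ^ ℓ)) := by
    funext μ
    exact hlsf.2 _ _ (ffC x.φ) (m + 3) (cup F) s ℓ hprime.pos μ
  rw [h7]

/-- One step. -/
theorem one (hlve : S_LVE) (hlsf : S_LSF) (hegh : S_EGH) {m : ℕ}
    {G : Type} [Group G] {n0 : ℕ} (hn0 : 0 < n0) {ℓ : ℕ} [Fact ℓ.Prime] (htor : TorP G ℓ)
    {F : (Fin (m + 3) → G) → G → ℚ} (hF : GCoch (m + 2) (fun y => y ^ n0 = 1) F)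
    (hF1 : ∀ a, F a 1 = 0)
    (B : KCh ℚ_[ℓ] (G × Multiplicative ℤ) (m + 4)) (hB : ∀ x ∈ B.support, ∀ i, NIU (x.2 i))
    (D : Sy1 m G →₀ ℚ)
    (hnull : ∀ η : Rec (G × Multiplicative ℤ) (Fin (m + 3)) → ℚ, NullFun (sg2 G) η → ∀ N : ℕ,
      0 < N → TK ℚ_[ℓ] η N (bdK _ _ (m + 3) B) = TS ℚ_[ℓ] η N (chn1 m G D)) :
    TK ℚ_[ℓ] (fst (cup F)) 1 B - T1S ℚ_[ℓ] F D =
      TK ℚ_[ℓ] (fst (powF ℓ (cup F))) 1 B - T1S ℚ_[ℓ] (powF ℓ F) D := by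
  classical
  have hprime : ℓ.Prime := Fact.out
  have hS : ∀ y : G, y ^ n0 = 1 → IsOfFinOrder y := fun y hy =>
    isOfFinOrder_iff_pow_eq_one.2 ⟨n0, hn0, hy⟩
  have hFc : Coch (sg2 G) (m + 3) (cup F) := (t_CUP G (m + 2) F).2 _ hS hF
  obtain ⟨Pt, dl, hP⟩ := t_PNT (G × Multiplicative ℤ)
  obtain ⟨hs, hrot, -⟩ := t_AVS (G × Multiplicative ℤ) Pt dl hP
  obtain ⟨c, hc⟩ := t_EVQ t_AVS G (m + 2) (fun y => y ^ n0 = 1) F hS hF ℓ htor Pt dl hP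
  obtain ⟨e1, -, -, -, -, -, -⟩ := t_EVS.{0} t_MEX.{0} (G × Multiplicative ℤ) (sg2 G) (m + 3)
    (cup F) (avS Pt) hFc hs
  have htr : IsTr (evs (cup F) (avS Pt)) := e1 hrot
  obtain ⟨S, L1, hSB, hInc, hSx⟩ := exists_sub t_SUP B
  obtain ⟨W, hW, hgau⟩ := hegh ℓ G m (cup F) hFc Pt dl hP D
  obtain ⟨a1, a2⟩ := levels hlve hlsf hn0 hF hF1 B D hnull (avS Pt) hs
  obtain ⟨A, hA⟩ : ∃ A, A = TK ℚ_[ℓ] (fst (cup F)) 1 B - T1S ℚ_[ℓ] F D := ⟨_, rfl⟩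
  obtain ⟨A', hA'⟩ : ∃ A', A' = TK ℚ_[ℓ] (fst (powF ℓ (cup F))) 1 B - T1S ℚ_[ℓ] (powF ℓ F) D :=
    ⟨_, rfl⟩
  rw [← hA] at a1 ⊢
  rw [← hA'] at a2 ⊢
  have hℓ0 : (0 : ℝ) < (ℓ : ℝ) := by exact_mod_cast hprime.pos
  have hW0 : (0 : ℝ) < ‖(W : ℚ_[ℓ])‖ := norm_pos_iff.mpr (by exact_mod_cast hW.ne')
  have hW1 : ‖(W : ℚ_[ℓ])‖ ≤ 1 := by
    have := Padic.norm_int_le_one (p := ℓ) (W : ℤ)
    simpa using this
  have hbound : ∀ k : ℕ, ‖(W : ℚ_[ℓ])‖ * ‖A - A'‖ ≤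
      ((∑ x ∈ B.support, ‖((B x : ℚ) : ℚ_[ℓ])‖) * (ℓ : ℝ) ^ ((c : ℤ) - 1) + (ℓ : ℝ) ^ (-1 : ℤ)) *
        ((ℓ : ℝ)⁻¹) ^ k := by
    intro k
    have hstep : ∀ x ∈ B.support,
        ‖TX (evs (cup F) (avS Pt)) (ℓ ^ (k + 1)) x.2 -
          TX (fun μ => evs (cup F) (avS Pt) (μ ^ ℓ)) (ℓ ^ k) x.2‖ ≤
          (ℓ : ℝ) ^ ((c : ℤ) - (k + 1 : ℤ)) := fun x hx =>
      t_GAQ (G × Multiplicative ℤ) (m + 4) ℓ S k c (evs (cup F) (avS Pt))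
        (fun μ _ ν _ => htr μ ν) (fun μ _ _ => hc μ) (Fin x.1) x.2 (hB x hx) (hSx x hx)
    have h10 : ∀ e : ℤ, (ℓ : ℝ) ^ (e - (k + 1 : ℤ)) = (ℓ : ℝ) ^ (e - 1) * ((ℓ : ℝ)⁻¹) ^ k := by
      intro e
      rw [inv_pow, ← zpow_natCast, ← _root_.zpow_neg, ← zpow_add₀ hℓ0.ne']
      congr 1
      ring
    have h11 : ‖TK ℚ_[ℓ] (evs (cup F) (avS Pt)) (ℓ ^ (k + 1)) B -
        TK ℚ_[ℓ] (fun μ => evs (cup F) (avS Pt) (μ ^ ℓ)) (ℓ ^ k) B‖ ≤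
        (∑ x ∈ B.support, ‖((B x : ℚ) : ℚ_[ℓ])‖) * (ℓ : ℝ) ^ ((c : ℤ) - (k + 1 : ℤ)) := by
      rw [PDK.TK_apply, PDK.TK_apply, ← Finset.sum_sub_distrib, Finset.sum_mul]
      refine (norm_sum_le _ _).trans (Finset.sum_le_sum fun x hx => ?_)
      rw [← mul_sub, norm_mul]
      exact mul_le_mul_of_nonneg_left (hstep x hx) (norm_nonneg _)
    have h12 := hgau k
    have h13 : (W : ℚ_[ℓ]) * (A - A') =
        (W : ℚ_[ℓ]) * (TK ℚ_[ℓ] (evs (cup F) (avS Pt)) (ℓ ^ (k + 1)) B -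
          TK ℚ_[ℓ] (fun μ => evs (cup F) (avS Pt) (μ ^ ℓ)) (ℓ ^ k) B) -
        (W : ℚ_[ℓ]) * (∑ x ∈ D.support, ((D x : ℚ) : ℚ_[ℓ]) *
            TS ℚ_[ℓ] (ghR (ffC x.φ) (cup F) (avS Pt)) (ℓ ^ (k + 1)) x.chn -
          ∑ x ∈ D.support, ((D x : ℚ) : ℚ_[ℓ]) *
            TS ℚ_[ℓ] (fun μ => ghR (ffC x.φ) (cup F) (avS Pt) (μ ^ ℓ)) (ℓ ^ k) x.chn) := by
      rw [a1 _ (pow_pos hprime.pos (k + 1)), a2 _ (pow_pos hprime.pos k)]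
      ring
    have h14 : (ℓ : ℝ) ^ (-(k + 1 : ℤ)) = (ℓ : ℝ) ^ (-1 : ℤ) * ((ℓ : ℝ)⁻¹) ^ k := by
      have := h10 0
      rw [zero_sub, zero_sub] at this
      exact this
    rw [← norm_mul, h13, add_mul]
    refine (norm_sub_le _ _).trans (add_le_add ?_ (h12.trans h14.le))
    rw [norm_mul, mul_assoc, ← h10]
    calc ‖(W : ℚ_[ℓ])‖ * _ ≤ 1 * _ := mul_le_mul_of_nonneg_right hW1 (norm_nonneg _)
      _ = _ := one_mul _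
      _ ≤ _ := h11
  have hℓ1 : (1 : ℝ) < ℓ := by exact_mod_cast hprime.one_lt
  have hlim : Filter.Tendsto (fun k : ℕ =>
      ((∑ x ∈ B.support, ‖((B x : ℚ) : ℚ_[ℓ])‖) * (ℓ : ℝ) ^ ((c : ℤ) - 1) +
        (ℓ : ℝ) ^ (-1 : ℤ)) * ((ℓ : ℝ)⁻¹) ^ k) Filter.atTop (nhds 0) := by
    have h9 : Filter.Tendsto (fun n : ℕ => ((ℓ : ℝ)⁻¹) ^ n) Filter.atTop (nhds 0) :=
      tendsto_pow_atTop_nhds_zero_of_lt_one (by positivity) (inv_lt_one_of_one_lt₀ hℓ1)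
    have h10 := h9.const_mul ((∑ x ∈ B.support, ‖((B x : ℚ) : ℚ_[ℓ])‖) *
      (ℓ : ℝ) ^ ((c : ℤ) - 1) + (ℓ : ℝ) ^ (-1 : ℤ))
    rw [mul_zero] at h10
    exact h10
  have h12 : ‖(W : ℚ_[ℓ])‖ * ‖A - A'‖ ≤ 0 := ge_of_tendsto' hlim hbound
  have h13 : ‖A - A'‖ ≤ 0 := by
    by_contra h
    rw [not_le] at h
    have := mul_pos hW0 h
    linarith
  exact sub_eq_zero.mp (norm_le_zero_iff.mp h13)

end PDN

open PDG in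
theorem t_PDN (hlve : S_LVE) (hlsf : S_LSF) (hegh : S_EGH) : S_PDN := by
  intro G _ htor m n0 hn0 ℓ _ F hF hF1 B hB D hnull e
  have hprime : ℓ.Prime := Fact.out
  induction e with
  | zero =>
    have h1 : powF (ℓ ^ 0) (cup F) = cup F := by
      funext a y
      unfold powF
      rw [pow_zero, pow_one]
    have h2 : powF (ℓ ^ 0) F = F := by
      funext a y
      unfold powF
      rw [pow_zero, pow_one]
    rw [h1, h2]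
  | succ e ih =>
    rw [ih]
    have hp : 0 < ℓ ^ e := pow_pos hprime.pos _
    have h1 := PDN.one hlve hlsf hegh (Nat.mul_pos hp hn0) (htor ℓ hprime)
      (gcoch_pow hF (ℓ ^ e)) (fun a => by
        unfold powF
        rw [one_pow]
        exact hF1 a) B hB D hnull
    rw [← powF_cup F hp, powF_powF, powF_powF] at h1
    rw [h1, pow_succ']

end Pool.Agent.FJB
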