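import Pool.Agent.FJB.St
import Pool.Agent.FJA.P_REL
import Pool.Agent.FJA.CoreAll

/-!
# RLE: the relation theorem with the correction term
-/

set_option autoImplicit false

open Matrix Pool.Agent.WhK Pool.Agent.Lib25 CategoryTheory Pool.Agent.FJA

noncomputable section

namespace Pool.Agent.FJB

open REL

/-- RLE: the relation theorem with `PdgE` and the chain of `D1`. -/
theorem t_RLE (hRPE : S_RPE) (hRGE : S_RGE) (hT1C : S_T1C) : S_RLE := by
  intro G _ m n0 hn0 hpd D D1 e v hv hch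
  obtain ⟨hT, hTp⟩ := hT1C m G D1
  obtain ⟨hadd, hsmul, -⟩ := hT ℚ
  rcases Nat.lt_or_ge 1 n0 with hn1 | hn1
  swap
  · have hn : n0 = 1 := le_antisymm hn1 hn0
    refine ⟨fun _ => 0, fun _ _ => (add_zero 0).symm, fun _ _ => (mul_zero _).symm, ?_,
      fun _ _ _ _ => rfl⟩
    intro F _ p hp hd
    rw [hn] at hd
    exact absurd (Nat.dvd_one.1 hd) hp.out.ne_one
  choose d X hX hY using hv
  obtain ⟨b, κ, hκ, hb⟩ : ∃ (b : SCh (LaurentPolynomial (MonoidAlgebra ℤ G)) (m + 4))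
      (κ : SCh (LaurentPolynomial (MonoidAlgebra ℤ G)) (m + 3)),
      κ ∈ Kil (MonoidAlgebra ℤ G) (m + 3) ∧
        D.ch e + chn1 m G D1 = bdS (LaurentPolynomial (MonoidAlgebra ℤ G)) (m + 3) b + κ := by
    rw [Submodule.mem_sup] at hch
    obtain ⟨y, ⟨b, rfl⟩, κ, hκ, h⟩ := hch
    exact ⟨b, κ, hκ, h.symm⟩
  refine ⟨fun F => (-1) ^ (m + 2) * (TK ℚ (fst (cup F)) 1 (BT ℚ D e b X) - T1S ℚ F D1),
    ?_, ?_, ?_, ?_⟩
  · intro F F'
    show _ * (_ - _) = _ * (_ - _) + _ * (_ - _)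
    rw [fst_cup_add, TK_add, hadd]
    ring
  · intro c F
    show _ * (_ - _) = _ * (_ * (_ - _))
    rw [fst_cup_smul, TK_smul, hsmul, Rat.cast_id]
    ring
  · intro F hF p _ hp
    have hYp := fun j => hY j p
    choose Y hYi hYt hYc using hYp
    obtain ⟨hm1, hm2, hm3⟩ := h_MPB ℚ ℚ_[p] (algebraMap ℚ ℚ_[p])
    have h1 := hRPE G m n0 hn1 hpd p hp D D1 e d Y hYt hYi b κ hκ hb F hF
    have h2 := h_RLD ℚ_[p] G (m + 1) D e d (fun j => mapU (algebraMap ℚ ℚ_[p]) (X j)) Y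
      (fun j => hm2 _ (e j) (d j) (X j) (hX j)) hYt b (fun y => orderOf y = n0) F
      (fun y hy => orderOf_pos_iff.1 (by rw [hy]; exact hn0)) hF
    rw [h1, hm1 G (m + 1) D e X b (fst (cup F)) 1] at h2
    have h3 : (((-1) ^ (m + 2) * (TK ℚ (fst (cup F)) 1 (BT ℚ D e b X) - T1S ℚ F D1) : ℚ) :
        ℚ_[p]) = (-1 : ℚ_[p]) ^ (m + 2) *
        ((algebraMap ℚ ℚ_[p]) (TK ℚ (fst (cup F)) 1 (BT ℚ D e b X)) - T1S ℚ_[p] F D1) := by
      rw [Rat.cast_mul, Rat.cast_pow, Rat.cast_neg, Rat.cast_one, Rat.cast_sub, hTp p F,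
        eq_ratCast]
    refine Eq.trans ?_ h3.symm
    rw [h2, ← mul_assoc, ← pow_add, ← two_mul, pow_mul, neg_one_sq, one_pow, one_mul]
    refine Finset.sum_congr rfl fun j _ => ?_
    congr 1
    refine Finset.sum_congr rfl fun c _ => ?_
    congr 1
    refine (hYc j c).symm.trans ?_
    refine Finset.sum_congr rfl fun a _ => ?_
    congr 1
    rw [hm3, eq_ratCast]
  · intro F hF a ha
    show _ * (_ - _) = _ * (_ - _)
    rw [hRGE G m n0 hn1 hpd a ha D D1 e d X hX b κ hκ hb F hF]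

end Pool.Agent.FJB
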