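import Pool.Agent.FJB.St
import Pool.Agent.FJA.P_RPB
import Pool.Agent.FJA.P_SUP
import Pool.Agent.FJA.CoreAll2

/-!
# RPE: the value on `BT` over `ℚ_p` of a family supported on the elements of order `n0`, `p ∣ n0`,
with the correction term
-/

set_option autoImplicit false

open Matrix Pool.Agent.WhK Pool.Agent.Lib25 CategoryTheory Pool.Agent.FJA

noncomputable section

namespace Pool.Agent.FJB

namespace RPE

variable {m : ℕ} {G : Type} [Group G]

/-- The correction term of a family which vanishes on the images of the cyclic groups. -/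
theorem T1S_zero (h : S_T1C) (k : Type) [Field k] [CharZero k] (D : Sy1 m G →₀ ℚ)
    (F : (Fin (m + 3) → G) → G → ℚ)
    (hF : ∀ s ∈ D.support, ∀ (c : Cyc s.N) (a : Fin (m + 3) → G), F a (s.φ c) = 0) :
    T1S k F D = 0 := by
  have h1 := (h m G D).1 k
  rw [h1.2.2 F (fun _ _ => 0) (fun s hs c a => hF s hs c a)]
  have h2 := h1.2.1 0 (fun _ _ => 0)
  simpa using h2

/-- The values of `powF (p ^ E) F` at the elements of small order. -/
theorem powF_zero {M n0 p E : ℕ} (hp : p.Prime) (hd : p ∣ n0)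
    {F : (Fin (M + 1) → G) → G → ℚ} (hF : GCoch M (fun y => orderOf y = n0) F)
    (a : Fin (M + 1) → G) (y : G) (hy : IsOfFinOrder y) (hE : orderOf y < p ^ E) :
    powF (p ^ E) F a y = 0 := by
  by_contra h
  have h1 : orderOf (y ^ p ^ E) = n0 := hF.supp _ _ h
  refine RLP.not_dvd hy hp hE ?_
  rw [h1]
  exact hd

/-- The order of an element in the image of the cyclic group of a symbol. -/
theorem order_le (s : Sy1 m G) (c : Cyc s.N) :
    IsOfFinOrder (s.φ c) ∧ orderOf (s.φ c) ≤ s.N := by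
  refine ⟨s.φ.isOfFinOrder (isOfFinOrder_of_finite c), ?_⟩
  have h1 : orderOf (s.φ c) ∣ orderOf c := orderOf_map_dvd s.φ c
  have h2 : orderOf c ∣ Nat.card (Cyc s.N) := orderOf_dvd_natCard c
  have h3 : Nat.card (Cyc s.N) = s.N := Nat.card_zmod s.N
  rw [h3] at h2
  exact Nat.le_of_dvd (Nat.pos_of_ne_zero s.pos.out) (h1.trans h2)

end RPE

theorem t_RPE (ht : S_T1C) : S_RPE := by
  intro G _ m n0 hn1 hpdg p hpp hp D D1 e d T hT hTN b κ hκ hch F hF
  have hn0 : 0 < n0 := by omega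
  obtain ⟨-, hsupb, -⟩ := t_SUP
  set B := BT ℚ_[p] D e b T with hB
  have hsb : ∀ x : (Σ r : ℕ, (Fin (m + 4) → (Matrix (Fin r) (Fin r)
      (MonoidAlgebra ℚ_[p] (G × Multiplicative ℤ)))ˣ)),
      ∃ M : ℕ, ∀ a b μ, (UX x.2 a b).coeff μ ≠ 0 → orderOf μ.val ≤ M := by
    intro x
    obtain ⟨Tx, -, hTx⟩ := hsupb ℚ_[p] (G × Multiplicative ℤ) (Fin x.1) (m + 4) x.2
    refine ⟨Tx.sup fun μ => orderOf μ.val, fun a b μ hμ => ?_⟩
    exact Finset.le_sup (f := fun μ : Rec (G × Multiplicative ℤ) (Fin (m + 4)) => orderOf μ.val)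
      (hTx a b μ hμ)
  choose M hM using hsb
  obtain ⟨E, hE1, hE2⟩ : ∃ E, B.support.sup M < p ^ E ∧ D1.support.sup Sy1.N < p ^ E :=
    ⟨max (B.support.sup M) (D1.support.sup Sy1.N),
      lt_of_le_of_lt (le_max_left _ _) (Nat.lt_pow_self hpp.out.one_lt),
      lt_of_le_of_lt (le_max_right _ _) (Nat.lt_pow_self hpp.out.one_lt)⟩
  have hF1 : ∀ a, F a 1 = 0 := by
    intro a
    by_contra h
    have h1 : orderOf (1 : G) = n0 := hF.supp _ _ h
    rw [orderOf_one] at h1
    omega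
  have h1 := hpdg n0 hn0 p F (RPB.gcoch (n := m + 1) hF) hF1 B
    (h_NIB p G (m + 1) D e T b (fun j _ => hTN j)) D1
    (fun η hη N _ => h_REB ℚ_[p] G (m + 1) D e d T hT b κ (chn1 m G D1) hκ hch η N hη) E
  have h2 : TK ℚ_[p] (fst (powF (p ^ E) (cup F))) 1 B = 0 := by
    unfold TK
    rw [Finsupp.linearCombination_apply]
    refine Finset.sum_eq_zero fun x hx => ?_
    have h2 : TX (fst (powF (p ^ E) (cup F))) 1 x.2 = 0 := by
      unfold TX
      rw [pow_one]
      refine TXD.lin_zero (T := {μ | orderOf μ.val ≤ M x}) ?_ ?_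
      · exact TXD.sp_trace fun a b μ hμ => hM x a b μ hμ
      · intro μ hμ
        refine RPB.fst_congr fun a => ?_
        refine RPB.powF_zero (n := m + 1) hn0 hpp.out hp F hF a μ.val ?_
        exact lt_of_le_of_lt (le_trans hμ (Finset.le_sup (f := M) hx)) hE1
    change B x • TX (fst (powF (p ^ E) (cup F))) 1 x.2 = 0
    rw [h2, smul_zero]
  have h3 : T1S ℚ_[p] (powF (p ^ E) F) D1 = 0 := by
    refine RPE.T1S_zero ht _ D1 _ fun s hs c a => ?_
    obtain ⟨h4, h5⟩ := RPE.order_le s c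
    refine RPE.powF_zero hpp.out hp hF a _ h4 ?_
    exact lt_of_le_of_lt (le_trans h5 (Finset.le_sup (f := Sy1.N) hs)) hE2
  rw [h2, h3, sub_zero] at h1
  exact sub_eq_zero.1 h1

end Pool.Agent.FJB
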