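import Pool.Agent.FJB.St
import Pool.Agent.FJA.P_EV1
import Pool.Agent.FJA.P_TWI
import Pool.Agent.FJA.P_TXA

/-!
# Module SLA: the value on the chain `E1` is the value of the slant product
-/

set_option autoImplicit false

open Matrix Pool.Agent.WhK Pool.Agent.Lib25 Pool.Agent.FJA

noncomputable section

namespace Pool.Agent.FJB

namespace SLA

/-! ### The entries -/

section Conv

variable (k : Type) [Field k] {G : Type} [Group G]

theorem lauZ_iu {N : ℕ} (φ : Cyc N →* G) (x : MonoidAlgebra ℤ (Cyc N)) :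
    lauZ k G (iu φ x) = MonoidAlgebra.mapDomainRingHom k (ffC φ)
      (MonoidAlgebra.mapRingHom (Cyc N) (Int.castRingHom k) x) := by
  induction x using MonoidAlgebra.induction_linear with
  | zero => simp only [map_zero]
  | add x y hx hy => simp only [map_add, hx, hy]
  | single c z =>
    have h1 : iu φ (MonoidAlgebra.single c z) =
        AddMonoidAlgebra.single 0 (MonoidAlgebra.single (φ c) z) := by
      change AddMonoidAlgebra.single 0 (MonoidAlgebra.mapDomainRingHom ℤ φ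
        (MonoidAlgebra.single c z)) = _
      rw [LAU.mapDomain_apply_single]
    rw [h1, LAU.lauZ_single, MonoidAlgebra.mapRingHom_single, LAU.mapDomain_apply_single]
    rfl

theorem cvt_uEl {N : ℕ} (φ : Cyc N →* G) (u : (MonoidAlgebra ℤ (Cyc N))ˣ) :
    cvt k 1 (uEl φ u) = glG (ffC φ) (sc (uK k u)) := by
  apply Units.ext
  change (Matrix.diagonal fun _ : Fin 1 => iu φ (u : MonoidAlgebra ℤ (Cyc N))).map (lauZ k G) =
    (Matrix.diagonal fun _ : Fin 1 => MonoidAlgebra.mapRingHom (Cyc N) (Int.castRingHom k)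
      (u : MonoidAlgebra ℤ (Cyc N))).map (MonoidAlgebra.mapDomainRingHom k (ffC φ))
  rw [Matrix.diagonal_map (map_zero _), Matrix.diagonal_map (map_zero _)]
  congr 1
  funext _
  exact lauZ_iu k φ _

end Conv

/-! ### The vertices -/

/-- naturality of `mix` -/
theorem mix_nat {V W V' W' : Type} (f f' : V → V') (g g' : W → W') (A : V' → W') {M : ℕ}
    (v : Fin M → V) (w : Fin M → W) (h : ∀ l, A (f (v l)) = g (w l))
    (h' : ∀ l, A (f' (v l)) = g' (w l)) (i : Fin M) (j : Fin (M + 1)) :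
    A (mix f f' v i j) = mix g g' w i j := by
  unfold mix
  split_ifs
  · exact h _
  · exact h' _

section Vert

variable (k : Type) [Field k] {G : Type} [Group G] {N : ℕ} (m : ℕ) (φ : Cyc N →* G)
  (u : (MonoidAlgebra ℤ (Cyc N))ˣ)

/-- the two vertices `1`, `u` -/
def XX : Fin 2 → (Matrix (Fin 1) (Fin 1) (MonoidAlgebra k (Cyc N)))ˣ := ![1, sc (uK k u)]

/-- the matrix of a labelled vertex -/
def VV (x : PZ (φ (gen N)) × Fin 2) :
    (Matrix (Fin 1) (Fin 1) (MonoidAlgebra k (G × Multiplicative ℤ)))ˣ :=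
  sclU k (Fin 1) (emb (φ (gen N)) x.1) * glG (ffC φ) (XX k u x.2)

theorem VV_zero (z : Cen (φ (gen N))) :
    cvt k 1 (gl1 (elt (G := G)) (z : G)) = VV k φ u ((z, 1), 0) := by
  unfold VV
  have h0 : XX k u 0 = 1 := rfl
  rw [h0, map_one, mul_one, EV1.cvt_elt]
  rfl

theorem VV_one (z : Cen (φ (gen N))) :
    cvt k 1 (gl1 (elt (G := G)) (z : G) * uEl φ u) = VV k φ u ((z, 1), 1) := by
  unfold VV
  have h0 : XX k u 1 = sc (uK k u) := rfl
  rw [h0, map_mul, EV1.cvt_elt, cvt_uEl]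
  rfl

theorem VV_mt (x : PZ (φ (gen N)) × Fin 2) :
    VV k φ u x * cvt k 1 (sEl G) = VV k φ u (mt x) := by
  unfold VV mt
  have h1 : emb (φ (gen N)) (x.1 * (1, Multiplicative.ofAdd 1)) =
      emb (φ (gen N)) x.1 * ((1 : G), Multiplicative.ofAdd 1) := by
    rw [map_mul]
    rfl
  rw [h1, EV1.cvt_sEl, map_mul, mul_assoc, mul_assoc,
    EV1.sclU_comm k (Fin 1) (EV1.central_t (Multiplicative.ofAdd (1 : ℤ)))]

/-- the vertices of the simplices of `k2` -/
def YY (Z : Fin (m + 1) → Cen (φ (gen N))) (i : Fin (m + 1)) (i' : Fin (m + 2)) :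
    Fin (m + 3) → PZ (φ (gen N)) × Fin 2 :=
  mix id mt (mix (fun z : Cen (φ (gen N)) => (((z, 1), 0) : PZ (φ (gen N)) × Fin 2))
    (fun z : Cen (φ (gen N)) => (((z, 1), 1) : PZ (φ (gen N)) × Fin 2)) Z i) i'

/-- the inner vertices of the chain `E1` -/
def Y0 (Z : Fin (m + 1) → Cen (φ (gen N))) (i : Fin (m + 1)) :
    Fin (m + 2) → GLn (LaurentPolynomial (MonoidAlgebra ℤ G)) 1 :=
  mix (fun z : Cen (φ (gen N)) => gl1 (elt (G := G)) (z : G))
    (fun z : Cen (φ (gen N)) => gl1 (elt (G := G)) (z : G) * uEl φ u) Z i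

/-- the inner labelled vertices -/
def X0 (Z : Fin (m + 1) → Cen (φ (gen N))) (i : Fin (m + 1)) :
    Fin (m + 2) → PZ (φ (gen N)) × Fin 2 :=
  mix (fun z : Cen (φ (gen N)) => (((z, 1), 0) : PZ (φ (gen N)) × Fin 2))
    (fun z : Cen (φ (gen N)) => (((z, 1), 1) : PZ (φ (gen N)) × Fin 2)) Z i

theorem inner (Z : Fin (m + 1) → Cen (φ (gen N))) (i : Fin (m + 1)) (j : Fin (m + 2)) :
    cvt k 1 (Y0 m φ u Z i j) = VV k φ u (X0 m φ Z i j) := by
  unfold Y0 X0
  rw [mix_nat (fun z : Cen (φ (gen N)) => gl1 (elt (G := G)) (z : G))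
      (fun z : Cen (φ (gen N)) => gl1 (elt (G := G)) (z : G) * uEl φ u)
      (fun z : Cen (φ (gen N)) => VV k φ u ((z, 1), 0))
      (fun z : Cen (φ (gen N)) => VV k φ u ((z, 1), 1)) (cvt k 1) Z Z
      (fun l => VV_zero k φ u (Z l)) (fun l => VV_one k φ u (Z l)) i j,
    mix_nat (fun z : Cen (φ (gen N)) => (((z, 1), 0) : PZ (φ (gen N)) × Fin 2))
      (fun z : Cen (φ (gen N)) => (((z, 1), 1) : PZ (φ (gen N)) × Fin 2))
      (fun z : Cen (φ (gen N)) => VV k φ u ((z, 1), 0))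
      (fun z : Cen (φ (gen N)) => VV k φ u ((z, 1), 1)) (VV k φ u) Z Z
      (fun l => rfl) (fun l => rfl) i j]

theorem vert (Z : Fin (m + 1) → Cen (φ (gen N))) (i : Fin (m + 1)) (i' : Fin (m + 2))
    (l : Fin (m + 3)) :
    cvt k 1 (mix id (fun x => x * sEl G) (Y0 m φ u Z i) i' l) =
      VV k φ u (YY m φ Z i i' l) := by
  rw [mix_nat id (fun x => x * sEl G) (VV k φ u) (fun x => VV k φ u (mt x)) (cvt k 1)
      (Y0 m φ u Z i) (X0 m φ Z i) (fun l => inner k m φ u Z i l)
      (fun l => by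
        rw [map_mul, inner k m φ u Z i l]
        exact VV_mt k φ u _) i' l]
  exact (mix_nat id mt (VV k φ u) (fun x => VV k φ u (mt x)) (VV k φ u)
      (X0 m φ Z i) (X0 m φ Z i) (fun l => rfl) (fun l => rfl) i' l).symm

theorem mono_lab (Z : Fin (m + 1) → Cen (φ (gen N))) (i : Fin (m + 1)) (i' : Fin (m + 2)) :
    Monotone fun l => (YY m φ Z i i' l).2 := by
  have h1 : ∀ l, (YY m φ Z i i' l).2 =
      if i'.predAbove l ≤ i.castSucc then (0 : Fin 2) else 1 := by
    intro l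
    unfold YY mix mt
    split_ifs <;> rfl
  intro a b hab
  have h2 : i'.predAbove a ≤ i'.predAbove b := Fin.predAbove_right_monotone i' hab
  change (YY m φ Z i i' a).2 ≤ (YY m φ Z i i' b).2
  rw [h1, h1]
  by_cases h3 : i'.predAbove a ≤ i.castSucc
  · rw [if_pos h3]
    exact Fin.zero_le _
  · rw [if_neg h3, if_neg fun h4 => h3 (h2.trans h4)]

/-- The value on a simplex. -/
theorem key [CharZero k] (hTXM : S_TXM) (K : ℕ)
    (η : Rec (G × Multiplicative ℤ) (Fin (m + 3)) → ℚ)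
    (Z : Fin (m + 1) → Cen (φ (gen N))) (i : Fin (m + 1)) (i' : Fin (m + 2)) :
    TX η K (fun l : Fin (m + 3) => cvt k 1 (mix id (fun x => x * sEl G) (Y0 m φ u Z i) i' l)) =
      TX (fun ν => η (twX φ (YY m φ Z i i') ν)) K (XX k u) := by
  have h1 : (fun l : Fin (m + 3) => cvt k 1 (mix id (fun x => x * sEl G)
      (Y0 m φ u Z i) i' l)) =
      fun l => sclU k (Fin 1) (emb (φ (gen N)) (YY m φ Z i i' l).1) *
        glG (ffC φ) (XX k u (YY m φ Z i i' l).2) := by
    funext l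
    exact vert k m φ u Z i i' l
  rw [h1, t_TWI k (Cyc N) (G × Multiplicative ℤ) (ffC φ) (Fin 1) (m + 3) K η
    (fun l => emb (φ (gen N)) (YY m φ Z i i' l).1) ?_ (fun l => XX k u (YY m φ Z i i' l).2)]
  · exact (hTXM k (Cyc N) (Fin 1) (m + 3) 2 K (fun l => (YY m φ Z i i' l).2)
      (mono_lab m φ Z i i')
      (fun μ => η (twR (ffC φ) (fun l => emb (φ (gen N)) (YY m φ Z i i' l).1) μ))
      (XX k u)).symm
  · intro l c
    refine Prod.ext ?_ ?_
    · exact commute_cyc φ _ c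
    · exact mul_comm _ _

end Vert

/-! ### Linearity -/

section Lin

variable (k : Type) [Field k] [CharZero k] {G : Type} [Group G] {N : ℕ} (φ : Cyc N →* G)

theorem SL_single {M r : ℕ} (η : Rec (G × Multiplicative ℤ) (Fin M) → ℚ)
    (X : Fin M → PZ (φ (gen N)) × Fin r) (q : ℚ) (ν : Rec (Cyc N) (Fin r)) :
    SL φ η (Finsupp.single X q) ν = q * η (twX φ X ν) := by
  unfold SL
  exact Finsupp.sum_single_index (zero_mul _)

theorem SL_add {M r : ℕ} (η : Rec (G × Multiplicative ℤ) (Fin M) → ℚ)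
    (κ κ' : (Fin M → PZ (φ (gen N)) × Fin r) →₀ ℚ) (ν : Rec (Cyc N) (Fin r)) :
    SL φ η (κ + κ') ν = SL φ η κ ν + SL φ η κ' ν := by
  classical
  unfold SL
  exact Finsupp.sum_add_index' (fun _ => zero_mul _) fun _ _ _ => add_mul _ _ _

/-- The values of the slant products. -/
theorem TX_SL {M r : ℕ} (K : ℕ) (η : Rec (G × Multiplicative ℤ) (Fin M) → ℚ)
    (V : Fin r → (Matrix (Fin 1) (Fin 1) (MonoidAlgebra k (Cyc N)))ˣ)
    (κ : (Fin M → PZ (φ (gen N)) × Fin r) →₀ ℚ) :
    TX (SL φ η κ) K V =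
      Finsupp.linearCombination ℚ (fun X => TX (fun ν => η (twX φ X ν)) K V) κ := by
  obtain ⟨h1, h2⟩ := t_TXlin k (Cyc N) (Fin 1) r K V
  induction κ using Finsupp.induction_linear with
  | zero =>
    rw [map_zero]
    have h3 : SL φ η (0 : (Fin M → PZ (φ (gen N)) × Fin r) →₀ ℚ) =
        fun ν : Rec (Cyc N) (Fin r) => (0 : ℚ) * (0 : ℚ) := by
      funext ν
      rw [mul_zero]
      exact Finsupp.sum_zero_index
    rw [h3, h2 0 (fun _ => 0), Rat.cast_zero, zero_mul]
  | add κ κ' hκ hκ' =>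
    rw [map_add, ← hκ, ← hκ', ← h1]
    congr 1
    funext ν
    exact SL_add φ η κ κ' ν
  | single X q =>
    rw [Finsupp.linearCombination_single, Rat.smul_def, ← h2]
    congr 1
    funext ν
    exact SL_single φ η X q ν

theorem prism_single {V V' : Type} (f f' : V → V') (M : ℕ) (v : Fin M → V) (c : ℚ) :
    prism ℚ f f' M (Finsupp.single v c) =
      c • ∑ i : Fin M, (-1 : ℚ) ^ (i : ℕ) • Finsupp.single (mix f f' v i) (1 : ℚ) := by
  unfold prism
  rw [Finsupp.linearCombination_single]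
  congr 1
  refine Finset.sum_congr rfl fun i _ => ?_
  rw [Finsupp.smul_single, smul_eq_mul, mul_one]

theorem k2_single (m : ℕ) (Z : Fin (m + 1) → Cen (φ (gen N))) (q : ℚ) :
    k2 m (Finsupp.single Z q) =
      q • ∑ i : Fin (m + 1), (-1 : ℚ) ^ (i : ℕ) • ∑ i' : Fin (m + 2), (-1 : ℚ) ^ (i' : ℕ) •
        Finsupp.single (YY m φ Z i i') (1 : ℚ) := by
  unfold k2
  rw [prism_single, map_smul, map_sum]
  congr 1
  refine Finset.sum_congr rfl fun i _ => ?_
  rw [map_smul, prism_single, one_smul]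
  rfl

end Lin

end SLA

open SLA in
/-- SLA: the value of a function on the chain `E1` is the value of the slant product. -/
theorem t_SLA (hTXM : S_TXM) : S_SLA := by
  intro k _ _ G _ N _ m K φ u w η
  have hX : (![1, sc (uK k u)] : Fin 2 → (Matrix (Fin 1) (Fin 1) (MonoidAlgebra k (Cyc N)))ˣ) =
      XX k u := rfl
  rw [hX, TX_SL]
  induction w using Finsupp.induction_linear with
  | zero =>
    rw [EV1.E1_zero, map_zero]
    unfold k2
    rw [map_zero, map_zero, map_zero]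
  | add w w' hw hw' =>
    have h1 : k2 m (w + w') = k2 m w + k2 m w' := by
      unfold k2
      rw [map_add, map_add]
    rw [EV1.E1_add, map_add, hw, hw', h1, map_add]
  | single Z q =>
    rw [EV1.E1_single, k2_single, map_smul, map_smul, map_sum, map_sum]
    congr 1
    refine Finset.sum_congr rfl fun i _ => ?_
    rw [map_smul, map_smul, map_sum, map_sum]
    congr 1
    refine Finset.sum_congr rfl fun i' _ => ?_
    rw [map_smul, map_smul]
    congr 1
    unfold TS
    rw [Finsupp.linearCombination_single, Finsupp.linearCombination_single, one_smul, one_smul]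
    exact key k m φ u hTXM K η Z i i'

end Pool.Agent.FJB
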