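import Pool.Agent.FJB.St
import Pool.Agent.FJA.P_PRI
import Pool.Agent.FJA.P_TPR

/-!
# T0F: the functional of `K_0` on the chain `E1`
-/

set_option autoImplicit false

open Matrix Pool.Agent.WhK Pool.Agent.Lib25 CategoryTheory Pool.Agent.FJA

noncomputable section

namespace Pool.Agent.FJB

namespace T0F

/-! ### Generalities on prisms -/

section

variable {V V' V'' : Type}

theorem hm_single (f : V → V') (m : ℕ) (v : Fin m → V) (c : ℚ) :
    hmap ℚ f m (Finsupp.single v c) = Finsupp.single (fun i => f (v i)) c :=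
  Finsupp.mapDomain_single

theorem pr_single (f f' : V → V') (m : ℕ) (v : Fin m → V) (c : ℚ) :
    prism ℚ f f' m (Finsupp.single v c) =
      c • ∑ i : Fin m, Finsupp.single (mix f f' v i) ((-1 : ℚ) ^ (i : ℕ)) :=
  Finsupp.linearCombination_single ℚ c v

theorem hmap_pr (g : V' → V'') (f f' : V → V') (m : ℕ) (w : (Fin m → V) →₀ ℚ) :
    hmap ℚ g (m + 1) (prism ℚ f f' m w) =
      prism ℚ (fun v => g (f v)) (fun v => g (f' v)) m w := by
  induction w using Finsupp.induction_linear with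
  | zero => simp only [map_zero]
  | add x y hx hy => simp only [map_add, hx, hy]
  | single v c =>
    rw [pr_single, pr_single, map_smul, map_sum]
    congr 1
    refine Finset.sum_congr rfl fun i _ => ?_
    rw [hm_single]
    congr 1
    funext j
    unfold mix
    split_ifs <;> rfl

theorem pr_hmap (g : V → V') (f f' : V' → V'') (m : ℕ) (w : (Fin m → V) →₀ ℚ) :
    prism ℚ f f' m (hmap ℚ g m w) =
      prism ℚ (fun v => f (g v)) (fun v => f' (g v)) m w := by
  induction w using Finsupp.induction_linear with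
  | zero => simp only [map_zero]
  | add x y hx hy => simp only [map_add, hx, hy]
  | single v c =>
    rw [hm_single, pr_single, pr_single]
    rfl

end

/-! ### The functional -/

section

/-- the linear extension of a function on tuples -/
def pa {Γ : Type} {K : ℕ} (F : (Fin K → Γ) → ℚ) : ((Fin K → Γ) →₀ ℚ) →ₗ[ℚ] ℚ :=
  Finsupp.linearCombination ℚ F

theorem pa_single {Γ : Type} {K : ℕ} (F : (Fin K → Γ) → ℚ) (X : Fin K → Γ) (q : ℚ) :
    pa F (Finsupp.single X q) = q * F X :=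
  Finsupp.linearCombination_single ℚ q X

variable {Γ : Type} [Group Γ] {M : ℕ}

variable (F : (Fin (M + 1) → Γ) → ℚ) (t : Γ)

/-- the linear extension of `F` to the chains, after the product with `t` -/
def L : ((Fin M → Γ) →₀ ℚ) →ₗ[ℚ] ℚ :=
  (pa F) ∘ₗ prism ℚ id (fun x => x * t) M

theorem L_apply (c : (Fin M → Γ) →₀ ℚ) :
    L F t c = pa F (prism ℚ id (fun x => x * t) M c) := rfl

theorem pair_hmap (hinv : ∀ (γ : Γ) (X : Fin (M + 1) → Γ), F (fun i => γ * X i) = F X) (γ : Γ)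
    (c : (Fin (M + 1) → Γ) →₀ ℚ) : pa F (hmap ℚ (γ * ·) (M + 1) c) = pa F c := by
  induction c using Finsupp.induction_linear with
  | zero => simp only [map_zero]
  | add x y hx hy => simp only [map_add, hx, hy]
  | single X q => rw [hm_single, pa_single, pa_single, hinv]

theorem L_hmap (hinv : ∀ (γ : Γ) (X : Fin (M + 1) → Γ), F (fun i => γ * X i) = F X) (γ : Γ)
    (c : (Fin M → Γ) →₀ ℚ) : L F t (hmap ℚ (γ * ·) M c) = L F t c := by
  rw [L_apply, L_apply]
  have h1 := (t_BD ℚ Γ M).2.2 Γ id (fun x => x * t) (γ * ·) (γ * ·) c (fun _ => rfl)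
    (fun v => mul_assoc _ _ _)
  rw [h1, pair_hmap F hinv]

theorem L_bd (hinv : ∀ (γ : Γ) (X : Fin (M + 1) → Γ), F (fun i => γ * X i) = F X)
    (hcoc : ∀ X : Fin (M + 2) → Γ,
      ∑ i : Fin (M + 2), (-1 : ℚ) ^ (i : ℕ) * F (fun j => X (i.succAbove j)) = 0)
    (ht : ∀ x : Γ, x * t = t * x) (c : (Fin (M + 1) → Γ) →₀ ℚ) : L F t (bd ℚ Γ M c) = 0 := by
  have h1 := t_PRI ℚ Γ Γ id (fun x => x * t) M c
  have h2 : prism ℚ id (fun x => x * t) M (bd ℚ Γ M c) =
      hmap ℚ (fun x => x * t) (M + 1) c - hmap ℚ id (M + 1) c -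
        bd ℚ Γ (M + 1) (prism ℚ id (fun x => x * t) (M + 1) c) := by
    rw [h1]
    abel
  have h3 : ∀ y : (Fin (M + 2) → Γ) →₀ ℚ, pa F (bd ℚ Γ (M + 1) y) = 0 := by
    intro y
    induction y using Finsupp.induction_linear with
    | zero => simp only [map_zero]
    | add x y hx hy => rw [map_add, map_add, hx, hy, add_zero]
    | single X q =>
      have e1 : bd ℚ Γ (M + 1) (Finsupp.single X q) =
          q • ∑ i : Fin (M + 2), Finsupp.single (fun j => X (i.succAbove j)) ((-1 : ℚ) ^ (i : ℕ)) :=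
        Finsupp.linearCombination_single ℚ q X
      rw [e1, map_smul, map_sum]
      have e2 : ∀ i : Fin (M + 2), pa F
          (Finsupp.single (fun j => X (i.succAbove j)) ((-1 : ℚ) ^ (i : ℕ))) =
          (-1 : ℚ) ^ (i : ℕ) * F (fun j => X (i.succAbove j)) := by
        intro i
        rw [pa_single]
      simp only [e2]
      rw [hcoc, smul_zero]
  have h4 : hmap ℚ (fun x => x * t) (M + 1) c = hmap ℚ (t * ·) (M + 1) c := by
    congr 2
    funext x
    exact ht x
  have h5 : hmap ℚ (id : Γ → Γ) (M + 1) c = c := by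
    have : (hmap ℚ (id : Γ → Γ) (M + 1)) = LinearMap.id := by
      unfold hmap
      have e : (fun (X : Fin (M + 1) → Γ) (i : Fin (M + 1)) => (id : Γ → Γ) (X i)) = id := rfl
      rw [e, Finsupp.lmapDomain_id]
    rw [this]
    rfl
  rw [L_apply, h2, map_sub, map_sub, h3, h4, pair_hmap F hinv, h5]
  ring

end

/-! ### The prisms of the maps `z ↦ (z * φ a, 1)` -/

section

variable {G : Type} [Group G] {N : ℕ}

/-- the map `z ↦ (z * φ a, 1)` -/
def fa (φ : Cyc N →* G) (a : Cyc N) (z : Cen (φ (gen N))) : G × Multiplicative ℤ :=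
  ((z : G) * φ a, 1)

/-- the element `t` -/
def tt (G : Type) [Group G] : G × Multiplicative ℤ := (1, Multiplicative.ofAdd 1)

theorem tt_comm (x : G × Multiplicative ℤ) : x * tt G = tt G * x := by
  refine Prod.ext ?_ ?_
  · show x.1 * 1 = 1 * x.1
    rw [mul_one, one_mul]
  · exact mul_comm _ _

variable (m : ℕ) (φ : Cyc N →* G) (w : (Fin (m + 1) → Cen (φ (gen N))) →₀ ℚ)
  (F : (Fin (m + 3) → G × Multiplicative ℤ) → ℚ)

/-- the value of `F` on the product of the prism of `fa φ a`, `fa φ b` with `t` -/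
def Sv (a b : Cyc N) : ℚ := L F (tt G) (prism ℚ (fa φ a) (fa φ b) (m + 1) w)

variable (hinv : ∀ (γ : G × Multiplicative ℤ) (X : Fin (m + 3) → G × Multiplicative ℤ),
      F (fun i => γ * X i) = F X)
  (hcoc : ∀ X : Fin (m + 4) → G × Multiplicative ℤ,
      ∑ i : Fin (m + 4), (-1 : ℚ) ^ (i : ℕ) * F (fun j => X (i.succAbove j)) = 0)

include hinv in
theorem Sv_mul (c a b : Cyc N) : Sv m φ w F (c * a) (c * b) = Sv m φ w F a b := by
  have key : ∀ d : Cyc N, (fun z => fa φ (c * d) z) =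
      fun z => ((φ c, 1) : G × Multiplicative ℤ) * fa φ d z := by
    intro d
    funext z
    refine Prod.ext ?_ (one_mul _).symm
    show (z : G) * φ (c * d) = φ c * ((z : G) * φ d)
    rw [map_mul, ← mul_assoc, ← mul_assoc, (commute_cyc φ z c).eq]
  unfold Sv
  have h1 : prism ℚ (fa φ (c * a)) (fa φ (c * b)) (m + 1) w =
      hmap ℚ (((φ c, 1) : G × Multiplicative ℤ) * ·) (m + 2)
        (prism ℚ (fa φ a) (fa φ b) (m + 1) w) := by
    rw [hmap_pr, ← key a, ← key b]
  rw [h1, L_hmap F (tt G) hinv]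

include hinv hcoc in
theorem Sv_add (hw : w ∈ cyc ℚ (Cen (φ (gen N))) m) (a b c : Cyc N) :
    Sv m φ w F a b + Sv m φ w F b c = Sv m φ w F a c := by
  obtain ⟨T, hT1, hT2, hT3⟩ := t_TPR (Cen (φ (gen N))) (G × Multiplicative ℤ) (fa φ a) (fa φ b)
    (fa φ c)
  have h1 := hT1 m w
  have h2 := L_bd F (tt G) hinv hcoc tt_comm (T (m + 1) w)
  rw [h1, map_add, map_sub, map_add] at h2
  have h3 : L F (tt G) (T m (bd ℚ (Cen (φ (gen N))) m w)) = 0 := by
    cases m with
    | zero => rw [hT3, map_zero]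
    | succ m =>
      have h4 : bd ℚ (Cen (φ (gen N))) (m + 1) w ∈ hdeg ℚ (Cen (φ (gen N))) m := hw
      have h5 : hdeg ℚ (Cen (φ (gen N))) m ≤
          LinearMap.ker ((L F (tt G)) ∘ₗ (T (m + 1))) := by
        unfold hdeg
        rw [Submodule.span_le]
        rintro x ⟨g, X, rfl⟩
        show L F (tt G) (T (m + 1) (Finsupp.single (fun i => g * X i) 1 - Finsupp.single X 1)) = 0
        have h6 := hT2 (g * ·) ((((g : G), 1) : G × Multiplicative ℤ) * ·)
          (fun v => Prod.ext (mul_assoc _ _ _) (one_mul _).symm)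
          (fun v => Prod.ext (mul_assoc _ _ _) (one_mul _).symm)
          (fun v => Prod.ext (mul_assoc _ _ _) (one_mul _).symm) (m + 1) (Finsupp.single X 1)
        rw [hm_single] at h6
        rw [map_sub, map_sub, h6, L_hmap F (tt G) hinv, sub_self]
      exact h5 h4
  rw [h3] at h2
  show L F (tt G) (prism ℚ (fa φ a) (fa φ b) (m + 1) w) +
    L F (tt G) (prism ℚ (fa φ b) (fa φ c) (m + 1) w) =
      L F (tt G) (prism ℚ (fa φ a) (fa φ c) (m + 1) w)
  linarith

include hinv hcoc in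
theorem Sv_zero [NeZero N] (hw : w ∈ cyc ℚ (Cen (φ (gen N))) m) (a b : Cyc N) :
    Sv m φ w F a b = 0 := by
  have h1 : ∀ c, Sv m φ w F 1 c = 0 := by
    intro c
    have h2 : ∀ n : ℕ, (n : ℚ) * Sv m φ w F 1 c = Sv m φ w F 1 (c ^ n) := by
      intro n
      induction n with
      | zero =>
        have h3 := Sv_add m φ w F hinv hcoc hw 1 1 1
        rw [pow_zero, Nat.cast_zero, zero_mul]
        linarith
      | succ n ih =>
        have h3 := Sv_add m φ w F hinv hcoc hw 1 (c ^ n) (c ^ n * c)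
        have h4 := Sv_mul m φ w F hinv (c ^ n) 1 c
        rw [mul_one] at h4
        rw [pow_succ, ← h3, h4, ← ih]
        push_cast
        ring
    obtain ⟨n, hn, hn2⟩ := (isOfFinOrder_iff_pow_eq_one.1 (isOfFinOrder_of_finite c))
    have h3 := h2 n
    have h5 := h2 0
    rw [pow_zero, Nat.cast_zero, zero_mul] at h5
    rw [hn2, ← h5] at h3
    rcases mul_eq_zero.1 h3 with h | h
    · rw [Nat.cast_eq_zero] at h
      omega
    · exact h
  have h2 := Sv_mul m φ w F hinv a 1 (a⁻¹ * b)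
  rw [mul_one, mul_inv_cancel_left] at h2
  rw [h2, h1]

/-- the vertices of the simplices -/
def Wx (φ : Cyc N →* G) (a : Fin 2 → Cyc N) (x : PZ (φ (gen N)) × Fin 2) : G × Multiplicative ℤ :=
  emb (φ (gen N)) x.1 * ffC φ (a x.2)

theorem SL_eq (a : Fin 2 → Cyc N) (ν : Rec (Cyc N) (Fin 2)) (hl : ∀ e, ν.lst e = [a e])
    (hv : ffC φ ν.val = 1) (κ : (Fin (m + 3) → PZ (φ (gen N)) × Fin 2) →₀ ℚ) :
    SL φ (fst (T0M.Ff F)) κ ν = pa F (hmap ℚ (Wx φ a) (m + 3) κ) := by
  have h1 : ∀ X : Fin (m + 3) → PZ (φ (gen N)) × Fin 2,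
      fst (T0M.Ff F) (twX φ X ν) = F fun i => Wx φ a (X i) := by
    intro X
    have h2 : ∀ i, (twX φ X ν).lst i = [Wx φ a (X i)] := by
      intro i
      have h3 : (twX φ X ν).lst i =
          (ν.lst (X i).2).map (fun x => emb (φ (gen N)) (X i).1 * ffC φ x) := rfl
      rw [h3, hl]
      rfl
    rw [T0M.fst_pos (fun i => by rw [h2]; simp) hv]
    simp only [h2]
    rfl
  unfold SL
  simp only [h1]
  induction κ using Finsupp.induction_linear with
  | zero => simp only [map_zero, Finsupp.sum_zero_index]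
  | add x y hx hy =>
    rw [Finsupp.sum_add_index' (fun X => by rw [zero_mul]) (fun X q q' => by rw [add_mul]), hx, hy,
      map_add, map_add]
  | single X q =>
    rw [Finsupp.sum_single_index (by rw [zero_mul]), hm_single, pa_single]

theorem hmap_k2 (a : Fin 2 → Cyc N) :
    hmap ℚ (Wx φ a) (m + 3) (k2 m w) =
      prism ℚ id (fun x => x * tt G) (m + 2) (prism ℚ (fa φ (a 0)) (fa φ (a 1)) (m + 1) w) := by
  unfold k2
  have e0 : (fun v : Cen (φ (gen N)) => Wx φ a (((v, 1), 0) : PZ (φ (gen N)) × Fin 2)) =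
      fa φ (a 0) := by
    funext v
    exact Prod.ext rfl (one_mul 1)
  have e1 : (fun v : Cen (φ (gen N)) => Wx φ a (((v, 1), 1) : PZ (φ (gen N)) × Fin 2)) =
      fa φ (a 1) := by
    funext v
    exact Prod.ext rfl (one_mul 1)
  rw [← e0, ← e1, ← hmap_pr (Wx φ a), pr_hmap, hmap_pr]
  have e2 : (fun v => Wx φ a (mt v)) = fun v => Wx φ a v * tt G := ?_
  · rw [e2]
    rfl
  funext v
  refine Prod.ext ?_ ?_
  · show ((v.1.1 * (1 : Cen (φ (gen N))) : Cen (φ (gen N))) : G) * φ (a v.2) =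
      (v.1.1 : G) * φ (a v.2) * 1
    rw [mul_one, mul_one]
  · show v.1.2 * Multiplicative.ofAdd 1 * 1 = v.1.2 * 1 * Multiplicative.ofAdd 1
    rw [mul_one, mul_one]

end

end T0F

theorem t_T0F : S_SLA → S_T0F := by
  intro hSLA G _ N _ m φ u w hw F hinv hcoc
  rw [hSLA ℚ G N m 1 φ u w (fst (T0M.Ff F))]
  have h1 : TX (SL φ (fst (T0M.Ff F)) (k2 m w)) 1 ![1, sc (uK ℚ u)] =
      TX (fun _ => (0 : ℚ)) 1 ![1, sc (uK ℚ u)] := by
    apply t_TXlen
    intro ν hν
    have h2 : ∀ e, ∃ x, ν.lst e = [x] := fun e => List.length_eq_one_iff.1 (hν e)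
    choose a ha using h2
    by_cases hv : ffC φ ν.val = 1
    · rw [T0F.SL_eq m φ F a ν ha hv, T0F.hmap_k2]
      exact T0F.Sv_zero m φ w F hinv hcoc hw (a 0) (a 1)
    · have h3 : ∀ X : Fin (m + 3) → PZ (φ (gen N)) × Fin 2,
          fst (T0M.Ff F) (twX φ X ν) = 0 := fun X => T0M.fst_ne hv
      unfold SL
      simp only [h3, mul_zero]
      exact Finset.sum_const_zero
  rw [h1]
  have h3 := T0M.TX_sum (∅ : Finset ℕ) (fun _ => (0 : ℚ))
    (fun _ (_ : Rec (Cyc N) (Fin 2)) => (0 : ℚ)) 1 ![1, sc (uK ℚ u)]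
  simp only [Finset.sum_empty] at h3
  exact h3

end Pool.Agent.FJB
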