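import Pool.Agent.FJB.St
import Pool.Agent.FJA.P_REP

/-!
# VSU: every element of `Src1 m G` is the value of a formal combination of symbols
-/

set_option autoImplicit false

open Matrix Pool.Agent.WhK Pool.Agent.Lib25 CategoryTheory Pool.Agent.FJA

noncomputable section

namespace Pool.Agent.FJB

theorem t_VSU : S_VSU := by
  intro m G _ y
  have h1 : y ∈ LinearMap.range (val1 m G) := by
    obtain ⟨q, rfl⟩ := exists_rep1 y
    refine Submodule.sum_mem _ fun s _ => Submodule.smul_mem _ _ ?_
    by_cases hv : Adm1 s.h s.u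
    · obtain ⟨T, -, -, hT⟩ := t_REP m G (orderOf s.h) (orderOf_pos_iff.2 hv.1)
      obtain ⟨s', hs', -⟩ := hT s.h s.c s.u hv le_rfl
      exact ⟨Finsupp.single s' 1, (Finsupp.linearCombination_single ℚ 1 s').trans
        ((one_smul ℚ _).trans hs')⟩
    · rw [sym1_invalid s.h s.c s.u hv]
      exact Submodule.zero_mem _
  exact h1

end Pool.Agent.FJB
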