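import Pool.Agent.FJB.Final4

/-!
# Whitehead groups of arbitrary groups, and the rationalised assembly map for `t ≤ 1`

All injectivity statements are in dual form: a linear map of rational vector spaces is injective if and
only if every linear functional on its source extends to its target.

(1) For every group `G` the map `colim Wh(H) ⊗ ℚ → Wh(G) ⊗ ℚ`, over the finite subgroups `H` of `G`, is
injective (`WhInj G`).

(2) The source of the rationalised assembly map in degree `n` is the sum of the spaces
`H_s(Z_G C; ℚ) ⊗_{W_G C} Θ_C K_t(ℤ[C]) ⊗ ℚ` with `s + t = n`, over the conjugacy classes of finite cyclic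
subgroups `C` of `G`.  The parts with `t < -1` vanish.  The part `t = 0` is `H_n(G; ℚ)` (only the trivial
subgroup contributes); a linear functional on it is a class `f` in `H^n(G; ℚ)` (`Coh n G`).  The part
`t = -1` is generated by symbols `[p, h, c]` with `h` a generator of `C`, `p` a prime dividing its order
and `c` in `H_{n+1}(Z_G(h); ℚ)`; a linear functional on it is a family of classes `L p h` in
`H^{n+1}(Z_G(h); ℚ)` (`IsL`).  The part `t = 1`, for `n ≥ 1`, is generated by symbols `[h, c, u]`, with `h` of
finite order, `c` in `H_{n-1}(Z_G(h); ℚ)` and `u` a unit of `ℤ[⟨h⟩]`; a linear functional on it is a family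
of classes `M h u` in `H^{n-1}(Z_G(h); ℚ)` (`IsM`).  The part `t = 2` vanishes, so for `n ≤ 2` this is the
complete source.

A linear functional on `K_n(ℤ[G]) ⊗ ℚ` is a family of classes `F r` in `H^{n+1}(GL_r(ℤ[G][t, t⁻¹]); ℚ)` which
is additive on block sums and vanishes on the subrings `ℤ[G][t]` and `ℤ[G][t⁻¹]` (`IsKn`).

There are idempotent matrices `e N p` over `ℤ[C_N][t, t⁻¹]` such that for every group `G` and every `n`
with `n ≤ 2`, or for arbitrary `n` if for every prime `p` the `p`-parts of the orders of the torsion
elements of `G` are bounded (`PBd G`): every linear functional `(f, L, M)` on the source, whose components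
at the elements `h ≠ 1` are detected (`Det`), extends to a linear functional `F` on `K_n(ℤ[G]) ⊗ ℚ`.  The
map from the source to `K_n(ℤ[G]) ⊗ ℚ` sends `c` in `H_n(G; ℚ)` to `c × [t]` (`ExtZ`), the symbol `[p, h, c]` to
the image of `c` under the homomorphism `z ↦ z e + 1 - e` from `Z_G(h)` to the general linear group of
`ℤ[G][t, t⁻¹]`, where `e` is the image of `e (ord h) p` under the homomorphism `C_N → G` defined by `h`
(`ExtN`), and the symbol `[h, c, u]` to `c × [u] × [t]` (`ExtO`).

A class in `H^m(Γ; ℚ)` is detected if it vanishes on the homology classes on which all homomorphisms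
`H_m(Γ; ℤ) → ℤ` vanish.  If `m = 0` or if `H_m(Γ; ℤ)` is finitely generated, then every class is detected.
So the map is injective in degree `n` if `H_{n+1}(Z_G(h); ℤ)` and `H_{n-1}(Z_G(h); ℤ)` are finitely generated
for all `h ≠ 1` of finite order; without an assumption an element `(a, x, y)` of its kernel has `a = 0`,
and `x` and `y` are combinations of symbols with `h ≠ 1` and undetected `c`.
-/

set_option autoImplicit false

namespace Pool.Agent.FJB.Kept

open Pool.Agent.FJB.Dl

theorem result :
    (∀ (G : Type) [Group G], WhInj G) ∧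
    ∃ (r : ℕ → ℕ → ℕ) (e : ∀ N p : ℕ, Matrix (Fin (r N p)) (Fin (r N p)) (LG (Cyc N))),
      (∀ N p : ℕ, e N p * e N p = e N p) ∧ ∀ (G : Type) [Group G] (n : ℕ),
        (∀ F : ∀ r : ℕ, Coh (n + 1) (GLr (LG G) r), IsKn F → ∃ s : SrcFun n G, Ext e s F) ∧
        ((n ≤ 2 ∨ PBd G) → ∀ s : SrcFun n G, s.IsDet →
          ∃ F : ∀ r : ℕ, Coh (n + 1) (GLr (LG G) r), IsKn F ∧ Ext e s F) :=
  Pool.Agent.FJB.s_dual

end Pool.Agent.FJB.Kept
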