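import Pool.Agent.FJB.St
import Pool.Agent.FJB.P_EGL
import Pool.Agent.FJB.P_DNE

/-!
# EGH: the Gauss congruence for the functions `ghR`
-/

set_option autoImplicit false

open Matrix Pool.Agent.WhK Pool.Agent.Lib25 CategoryTheory Pool.Agent.FJA

noncomputable section

namespace Pool.Agent.FJB

/-- EGH. -/
theorem t_EGG (hGSE : S_GSE) (hGHT : S_GHT) (hPTC : S_PTC) (hGHP : S_GHP) : S_EGH := by
  classical
  intro ℓ _ G _ m F hF Pt dl hP D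
  obtain ⟨hSec, hRot, -⟩ := t_AVS (G × Multiplicative ℤ) Pt dl hP
  obtain ⟨D0, hD0, hden0⟩ := hF.den
  choose W hW hWb using fun x : Sy1 m G => hGSE ℓ G x.N m x.φ x.u x.w
  have hNp : ∀ x : Sy1 m G, 0 < x.N := fun x => Nat.pos_of_ne_zero x.pos.out
  obtain ⟨C, hC⟩ : ∃ C : Sy1 m G → ℕ, ∀ x, C x = D0 * (Fintype.card (Cyc x.N) * x.N) ^ (m + 4) :=
    ⟨_, fun _ => rfl⟩
  have hCp : ∀ x, 0 < C x := fun x => by
    rw [hC]
    exact Nat.mul_pos hD0 (pow_pos (Nat.mul_pos Fintype.card_pos (hNp x)) _)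
  have hcp : ∀ x : Sy1 m G, 0 < W x * C x * (D x).den := fun x =>
    Nat.mul_pos (Nat.mul_pos (hW x) (hCp x)) (D x).pos
  refine ⟨∏ x ∈ D.support, (W x * C x * (D x).den), Finset.prod_pos fun x _ => hcp x, ?_⟩
  intro k
  -- one symbol
  have hone : ∀ x : Sy1 m G, ‖((W x * C x : ℕ) : ℚ_[ℓ]) *
      (TS ℚ_[ℓ] (ghR (ffC x.φ) F (avS Pt)) (ℓ ^ (k + 1)) x.chn -
        TS ℚ_[ℓ] (fun μ => ghR (ffC x.φ) F (avS Pt) (μ ^ ℓ)) (ℓ ^ k) x.chn)‖ ≤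
      (ℓ : ℝ) ^ (-(k + 1 : ℤ)) := by
    intro x
    refine hWb x (C x) (ghR (ffC x.φ) F (avS Pt)) (hCp x) ?_ ?_ k
    · intro X μ hμ ν hν
      exact (hGHT G x.N x.φ (m + 3) 2 F hF.inv (avS Pt) hSec hRot X μ ν).2
    · intro X μ hμ
      unfold ghR
      by_cases h1 : ∀ i, (twX x.φ X μ).lst i ≠ []
      · rw [if_pos h1]
        obtain ⟨-, -, -, -, -, hg, -, -⟩ := hGHP (G × Multiplicative ℤ) (Cyc x.N) (ffC x.φ)
        have h2 := hg (m + 3) F (twX x.φ X μ).val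
          (fun l => avS Pt ((twX x.φ X μ).lst l) (twX x.φ X μ).val) D0 x.N
          (fun a => hden0 a _)
          (fun i z => DNE.avS_int Pt _ _ x.N
            (hPTC G x.N x.φ Pt dl hP (m + 3) 2 X μ i (h1 i)).2 z)
        rw [hC]
        exact h2
      · rw [if_neg h1]
        exact ⟨0, by rw [mul_zero, Int.cast_zero]⟩
  rw [← Finset.sum_sub_distrib, Finset.mul_sum]
  refine IsUltrametricDist.norm_sum_le_of_forall_le_of_nonneg (by positivity) ?_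
  intro x hx
  have hsplit : ((∏ x ∈ D.support, (W x * C x * (D x).den)) : ℕ) =
      (∏ y ∈ D.support.erase x, (W y * C y * (D y).den)) * ((D x).den * (W x * C x)) := by
    rw [← Finset.mul_prod_erase _ _ hx]
    ring
  have hDx : (((D x).den : ℕ) : ℚ_[ℓ]) * ((D x : ℚ) : ℚ_[ℓ]) = (((D x).num : ℤ) : ℚ_[ℓ]) := by
    have h := Rat.den_mul_eq_num (D x)
    exact_mod_cast congrArg (fun r : ℚ => ((r : ℚ) : ℚ_[ℓ])) h
  have heq : ((∏ x ∈ D.support, (W x * C x * (D x).den) : ℕ) : ℚ_[ℓ]) *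
      (((D x : ℚ) : ℚ_[ℓ]) * TS ℚ_[ℓ] (ghR (ffC x.φ) F (avS Pt)) (ℓ ^ (k + 1)) x.chn -
        ((D x : ℚ) : ℚ_[ℓ]) * TS ℚ_[ℓ] (fun μ => ghR (ffC x.φ) F (avS Pt) (μ ^ ℓ)) (ℓ ^ k) x.chn) =
      ((∏ y ∈ D.support.erase x, (W y * C y * (D y).den) : ℕ) : ℚ_[ℓ]) *
        ((((D x).num : ℤ) : ℚ_[ℓ]) * (((W x * C x : ℕ) : ℚ_[ℓ]) *
      (TS ℚ_[ℓ] (ghR (ffC x.φ) F (avS Pt)) (ℓ ^ (k + 1)) x.chn -
        TS ℚ_[ℓ] (fun μ => ghR (ffC x.φ) F (avS Pt) (μ ^ ℓ)) (ℓ ^ k) x.chn))) := by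
    rw [hsplit, ← hDx]
    push_cast
    ring
  rw [heq, norm_mul, norm_mul]
  calc _ ≤ 1 * (1 * (ℓ : ℝ) ^ (-(k + 1 : ℤ))) := by
        refine mul_le_mul (EGL.norm_nat_le_one ℓ _) ?_ (by positivity) zero_le_one
        exact mul_le_mul (Padic.norm_int_le_one _) (hone x) (norm_nonneg _) zero_le_one
    _ = _ := by rw [one_mul, one_mul]

end Pool.Agent.FJB
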