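import Pool.Agent.FJB.St
import Pool.Agent.FJA.P_AVS

/-!
# EGH: the Gauss congruence for the functions `ghR`
-/

set_option autoImplicit false

open Matrix Pool.Agent.WhK Pool.Agent.Lib25 CategoryTheory Pool.Agent.FJA

noncomputable section

namespace Pool.Agent.FJB

namespace EGH

theorem norm_nat_le_one (ℓ : ℕ) [Fact ℓ.Prime] (n : ℕ) : ‖(n : ℚ_[ℓ])‖ ≤ 1 := by
  have := Padic.norm_int_le_one (p := ℓ) (n : ℤ)
  rwa [Int.cast_natCast] at this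

/-- the denominators of an average -/
theorem avS_den {Γ : Type} (Pt : List Γ → Γ → Finset Γ) (Y : List Γ) (y : Γ) (N : ℕ)
    (h : (Pt Y y).card ∣ N) (x : Γ) : ∃ z : ℤ, (N : ℚ) * avS Pt Y y x = z := by
  classical
  obtain ⟨c, hc⟩ := h
  have h1 : avS Pt Y y x = if x ∈ Pt Y y then 1 / ((Pt Y y).card : ℚ) else 0 := by
    unfold avS
    rw [Finsupp.finsetSum_apply]
    simp only [Finsupp.single_apply]
    rw [Finset.sum_ite_eq' (Pt Y y) x]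
  by_cases hx : x ∈ Pt Y y
  · have hne : ((Pt Y y).card : ℚ) ≠ 0 := by
      exact_mod_cast Finset.card_ne_zero_of_mem hx
    refine ⟨(c : ℤ), ?_⟩
    rw [h1, if_pos hx, hc]
    push_cast
    field_simp
  · exact ⟨0, by rw [h1, if_neg hx, mul_zero, Int.cast_zero]⟩

end EGH

/-- EGH. -/
theorem t_EGH (hGSE : S_GSE) (hGHT : S_GHT) (hPTC : S_PTC) (hGHP : S_GHP) : S_EGH := by
  classical
  intro ℓ _ G _ m F hF Pt dl hP D
  obtain ⟨hSec, hRot, -⟩ := t_AVS (G × Multiplicative ℤ) Pt dl hP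
  obtain ⟨DF, hDF, hden⟩ := hF.den
  choose W hW hWb using fun x : Sy1 m G => hGSE ℓ G x.N m x.φ x.u x.w
  have hNp : ∀ x : Sy1 m G, 0 < x.N := fun x => Nat.pos_of_ne_zero x.pos.out
  -- the denominator of the function
  let Q : Sy1 m G → ℕ := fun x => DF * (Fintype.card (Cyc x.N) * x.N) ^ (m + 3 + 1)
  have hQ : ∀ x : Sy1 m G, 0 < Q x := fun x =>
    Nat.mul_pos hDF (pow_pos (Nat.mul_pos Fintype.card_pos (hNp x)) _)
  have hcp : ∀ x : Sy1 m G, 0 < W x * Q x * (D x).den := fun x =>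
    Nat.mul_pos (Nat.mul_pos (hW x) (hQ x)) (D x).pos
  refine ⟨∏ x ∈ D.support, (W x * Q x * (D x).den),
    Finset.prod_pos fun x _ => hcp x, ?_⟩
  intro k
  -- one symbol
  have hone : ∀ x : Sy1 m G, ‖((W x * Q x : ℕ) : ℚ_[ℓ]) *
      (TS ℚ_[ℓ] (ghR (ffC x.φ) F (avS Pt)) (ℓ ^ (k + 1)) x.chn -
        TS ℚ_[ℓ] (fun μ => ghR (ffC x.φ) F (avS Pt) (μ ^ ℓ)) (ℓ ^ k) x.chn)‖ ≤
      (ℓ : ℝ) ^ (-(k + 1 : ℤ)) := by
    intro x
    refine hWb x (Q x) (ghR (ffC x.φ) F (avS Pt)) (hQ x) ?_ ?_ k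
    · intro X μ _ ν _
      exact (hGHT G x.N x.φ (m + 3) 2 F hF.inv (avS Pt) hSec hRot X μ ν).2
    · intro X μ _
      by_cases hne : ∀ i, (twX x.φ X μ).lst i ≠ []
      · obtain ⟨z, hz⟩ := (hGHP (G × Multiplicative ℤ) (Cyc x.N) (ffC x.φ)).2.2.2.2.2.1 (m + 3) F
          (twX x.φ X μ).val (fun l => avS Pt ((twX x.φ X μ).lst l) (twX x.φ X μ).val) DF x.N
          (fun a => hden a _)
          (fun i y => EGH.avS_den Pt _ _ x.N (hPTC G x.N x.φ Pt dl hP (m + 3) 2 X μ i (hne i)).2 y)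
        refine ⟨z, ?_⟩
        have h1 : ghR (ffC x.φ) F (avS Pt) (twX x.φ X μ) =
            gh (ffC x.φ) F (twX x.φ X μ).val
              (fun l => avS Pt ((twX x.φ X μ).lst l) (twX x.φ X μ).val) := by
          unfold ghR
          rw [if_pos hne]
        rw [h1]
        exact hz
      · refine ⟨0, ?_⟩
        have h1 : ghR (ffC x.φ) F (avS Pt) (twX x.φ X μ) = 0 := by
          unfold ghR
          rw [if_neg hne]
        rw [h1, mul_zero, Int.cast_zero]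
  rw [← Finset.sum_sub_distrib, Finset.mul_sum]
  refine IsUltrametricDist.norm_sum_le_of_forall_le_of_nonneg (by positivity) ?_
  intro x hx
  have hsplit : (∏ x ∈ D.support, (W x * Q x * (D x).den) : ℕ) =
      (∏ y ∈ D.support.erase x, (W y * Q y * (D y).den)) * ((D x).den * (W x * Q x)) := by
    rw [← Finset.mul_prod_erase _ _ hx]
    ring
  have hDx : (((D x).den : ℕ) : ℚ_[ℓ]) * ((D x : ℚ) : ℚ_[ℓ]) = (((D x).num : ℤ) : ℚ_[ℓ]) := by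
    have h := Rat.den_mul_eq_num (D x)
    exact_mod_cast congrArg (fun r : ℚ => ((r : ℚ) : ℚ_[ℓ])) h
  have heq : ((∏ x ∈ D.support, (W x * Q x * (D x).den) : ℕ) : ℚ_[ℓ]) *
      (((D x : ℚ) : ℚ_[ℓ]) * TS ℚ_[ℓ] (ghR (ffC x.φ) F (avS Pt)) (ℓ ^ (k + 1)) x.chn -
        ((D x : ℚ) : ℚ_[ℓ]) *
          TS ℚ_[ℓ] (fun μ => ghR (ffC x.φ) F (avS Pt) (μ ^ ℓ)) (ℓ ^ k) x.chn) =
      ((∏ y ∈ D.support.erase x, (W y * Q y * (D y).den) : ℕ) : ℚ_[ℓ]) *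
        ((((D x).num : ℤ) : ℚ_[ℓ]) * (((W x * Q x : ℕ) : ℚ_[ℓ]) *
      (TS ℚ_[ℓ] (ghR (ffC x.φ) F (avS Pt)) (ℓ ^ (k + 1)) x.chn -
        TS ℚ_[ℓ] (fun μ => ghR (ffC x.φ) F (avS Pt) (μ ^ ℓ)) (ℓ ^ k) x.chn))) := by
    rw [hsplit, ← hDx]
    push_cast
    ring
  rw [heq, norm_mul, norm_mul]
  calc _ ≤ 1 * (1 * (ℓ : ℝ) ^ (-(k + 1 : ℤ))) := by
        refine mul_le_mul (EGH.norm_nat_le_one ℓ _) ?_ (by positivity) zero_le_one
        exact mul_le_mul (Padic.norm_int_le_one _) (hone x) (norm_nonneg _) zero_le_one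
    _ = _ := by rw [one_mul, one_mul]

end Pool.Agent.FJB
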